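import Mathlib
import Pool.Agent.H4R2.Ham

set_option autoImplicit false
set_option linter.unusedSectionVars false

open scoped BigOperators Topology
open Finset Filter
open Pool.Agent.H4R2

/-!
# Energies and reduced states of translation invariant vectors on the torus
-/

namespace Pool.Agent.Y665.PE

/-- Translation invariance up to a phase. -/
def TransInv {d L : ℕ} [NeZero L] (ψ : (Site L → Fin d) → ℂ) : Prop :=
  ∀ u : Site L, ∃ c : ℂ, (fun s => ψ (fun v => s (v + u))) = c • ψ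

section forms

variable {n : Type*} [Fintype n]

/-- The inner product. -/
noncomputable def ip (φ χ : n → ℂ) : ℂ := ∑ s, (starRingEnd ℂ) (φ s) * χ s

/-- The expectation `⟨φ, H φ⟩`. -/
noncomputable def qf (H : Matrix n n ℂ) (φ : n → ℂ) : ℂ := ip φ (H.mulVec φ)

/-- `tr (h ρ)`. -/
noncomputable def pair (h ρ : Matrix n n ℂ) : ℂ := ∑ a, ∑ b, h a b * ρ b a

lemma qf_eq (H : Matrix n n ℂ) (φ : n → ℂ) :
    qf H φ = ∑ s, ∑ t, (starRingEnd ℂ) (φ s) * H s t * φ t := by
  unfold qf ip Matrix.mulVec dotProduct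
  refine Finset.sum_congr rfl fun s _ => ?_
  rw [Finset.mul_sum]
  refine Finset.sum_congr rfl fun t _ => ?_
  ring

lemma ip_self (φ : n → ℂ) : ip φ φ = ((normSq φ : ℝ) : ℂ) := by
  unfold ip normSq
  push_cast
  refine Finset.sum_congr rfl fun s _ => ?_
  rw [mul_comm, Complex.mul_conj, Complex.normSq_eq_norm_sq]
  push_cast
  rfl

lemma ip_conj (φ χ : n → ℂ) : (starRingEnd ℂ) (ip φ χ) = ip χ φ := by
  unfold ip
  rw [map_sum]
  refine Finset.sum_congr rfl fun s _ => ?_
  rw [map_mul, Complex.conj_conj, mul_comm]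

lemma ip_add_right (φ χ χ' : n → ℂ) : ip φ (χ + χ') = ip φ χ + ip φ χ' := by
  unfold ip
  rw [← Finset.sum_add_distrib]
  refine Finset.sum_congr rfl fun s _ => ?_
  rw [Pi.add_apply]; ring

lemma ip_smul_right (c : ℂ) (φ χ : n → ℂ) : ip φ (c • χ) = c * ip φ χ := by
  unfold ip
  rw [Finset.mul_sum]
  refine Finset.sum_congr rfl fun s _ => ?_
  rw [Pi.smul_apply, smul_eq_mul]; ring

lemma ip_add_left (φ χ χ' : n → ℂ) : ip (χ + χ') φ = ip χ φ + ip χ' φ := by
  rw [← ip_conj, ip_add_right, map_add, ip_conj, ip_conj]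

lemma ip_smul_left (c : ℂ) (φ χ : n → ℂ) : ip (c • φ) χ = (starRingEnd ℂ) c * ip φ χ := by
  rw [← ip_conj, ip_smul_right, map_mul, ip_conj]

lemma ip_sub_right (φ χ χ' : n → ℂ) : ip φ (χ - χ') = ip φ χ - ip φ χ' := by
  unfold ip
  rw [← Finset.sum_sub_distrib]
  refine Finset.sum_congr rfl fun s _ => ?_
  rw [Pi.sub_apply]; ring

lemma ip_sub_left (φ χ χ' : n → ℂ) : ip (χ - χ') φ = ip χ φ - ip χ' φ := by
  rw [← ip_conj, ip_sub_right, map_sub, ip_conj, ip_conj]

lemma ip_mulVec {H : Matrix n n ℂ} (hH : H.IsHermitian) (φ χ : n → ℂ) :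
    ip (H.mulVec φ) χ = ip φ (H.mulVec χ) := by
  unfold ip Matrix.mulVec dotProduct
  have h1 : ∀ s, (starRingEnd ℂ) (∑ t, H s t * φ t) * χ s =
      ∑ t, (starRingEnd ℂ) (φ t) * (H t s * χ s) := by
    intro s
    rw [map_sum, Finset.sum_mul]
    refine Finset.sum_congr rfl fun t _ => ?_
    rw [map_mul]
    have h2 : (starRingEnd ℂ) (H s t) = H t s := by
      have := hH.apply t s
      rw [← this]
      rfl
    rw [h2]
    ring
  simp_rw [h1]
  rw [Finset.sum_comm]
  refine Finset.sum_congr rfl fun t _ => ?_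
  rw [Finset.mul_sum]

lemma qf_add (H K : Matrix n n ℂ) (φ : n → ℂ) : qf (H + K) φ = qf H φ + qf K φ := by
  unfold qf
  rw [Matrix.add_mulVec, ip_add_right]

lemma qf_smul (c : ℂ) (H : Matrix n n ℂ) (φ : n → ℂ) : qf (c • H) φ = c * qf H φ := by
  unfold qf
  rw [Matrix.smul_mulVec, ip_smul_right]

lemma qf_sum {ι : Type*} (S : Finset ι) (H : ι → Matrix n n ℂ) (φ : n → ℂ) :
    qf (∑ i ∈ S, H i) φ = ∑ i ∈ S, qf (H i) φ := by
  classical
  induction S using Finset.induction_on with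
  | empty => simp [qf, ip]
  | insert a S ha ih => rw [Finset.sum_insert ha, Finset.sum_insert ha, qf_add, ih]

lemma qf_smul_vec (c : ℂ) (H : Matrix n n ℂ) (φ : n → ℂ) :
    qf H (c • φ) = (‖c‖ ^ 2 : ℝ) * qf H φ := by
  unfold qf
  rw [Matrix.mulVec_smul, ip_smul_left, ip_smul_right, ← mul_assoc]
  have : ((‖c‖ ^ 2 : ℝ) : ℂ) = (starRingEnd ℂ) c * c := by
    rw [mul_comm, Complex.mul_conj, Complex.normSq_eq_norm_sq]
  rw [this]

variable [DecidableEq n]

/-- The eigenvector expansion. -/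
lemma exists_coord {H : Matrix n n ℂ} (hH : H.IsHermitian) :
    ∃ (e : n → n → ℂ) (lam : n → ℝ), (∀ i, H.mulVec (e i) = ((lam i : ℝ) : ℂ) • e i) ∧
      (∀ i, normSq (e i) = 1) ∧
      (∀ φ, normSq φ = ∑ i, ‖ip (e i) φ‖ ^ 2) ∧
      (∀ φ, qf H φ = ((∑ i, lam i * ‖ip (e i) φ‖ ^ 2 : ℝ) : ℂ)) := by
  set b := hH.eigenvectorBasis with hb
  let e : n → n → ℂ := fun i s => (b i) s
  have hmul : ∀ i, H.mulVec (e i) = ((hH.eigenvalues i : ℝ) : ℂ) • e i := by
    intro i
    have h1 := hH.mulVec_eigenvectorBasis i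
    funext s
    have h2 := congrFun h1 s
    simpa [e, hb] using h2
  have hip : ∀ φ χ : n → ℂ, ip φ χ = inner ℂ (WithLp.toLp 2 φ : EuclideanSpace ℂ n)
      (WithLp.toLp 2 χ) := by
    intro φ χ
    rw [PiLp.inner_apply]
    unfold ip
    refine Finset.sum_congr rfl fun s _ => ?_
    simp [mul_comm]
  have he : ∀ i, (WithLp.toLp 2 (e i) : EuclideanSpace ℂ n) = b i := by
    intro i
    ext s
    rfl
  have hpars : ∀ φ χ : n → ℂ, ip φ χ = ∑ i, ip φ (e i) * ip (e i) χ := by
    intro φ χ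
    rw [hip, ← b.sum_inner_mul_inner]
    refine Finset.sum_congr rfl fun i _ => ?_
    rw [hip, hip, he]
  have hsq : ∀ (i : n) (φ : n → ℂ), ip φ (e i) * ip (e i) φ = ((‖ip (e i) φ‖ ^ 2 : ℝ) : ℂ) := by
    intro i φ
    rw [← ip_conj (e i) φ, mul_comm, Complex.mul_conj, Complex.normSq_eq_norm_sq]
  refine ⟨e, hH.eigenvalues, hmul, ?_, ?_, ?_⟩
  · intro i
    have h1 : ((normSq (e i) : ℝ) : ℂ) = 1 := by
      rw [← ip_self, hip, he]
      have := b.orthonormal.1 i
      rw [inner_self_eq_norm_sq_to_K, this]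
      simp
    exact_mod_cast h1
  · intro φ
    have h1 : ((normSq φ : ℝ) : ℂ) = ((∑ i, ‖ip (e i) φ‖ ^ 2 : ℝ) : ℂ) := by
      rw [← ip_self, hpars φ φ]
      push_cast
      refine Finset.sum_congr rfl fun i _ => ?_
      rw [hsq]; push_cast; rfl
    exact_mod_cast h1
  · intro φ
    unfold qf
    rw [hpars φ (H.mulVec φ)]
    push_cast
    refine Finset.sum_congr rfl fun i _ => ?_
    rw [← ip_mulVec hH, hmul, ip_smul_left, Complex.conj_ofReal]
    have := hsq i φ
    push_cast at this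
    rw [← this]
    ring

/-- `ψ` is a vector of lowest energy. -/
def IsGround (H : Matrix n n ℂ) (ψ : n → ℂ) : Prop :=
  ∃ E : ℝ, H.mulVec ψ = ((E : ℝ) : ℂ) • ψ ∧ ∀ φ : n → ℂ, E * normSq φ ≤ (qf H φ).re

lemma gapped_bound {H : Matrix n n ℂ} (hH : H.IsHermitian) {Δ : ℝ} (hΔ : 0 ≤ Δ) {ψ : n → ℂ}
    (hg : IsGappedGround H Δ ψ) :
    ∃ E : ℝ, H.mulVec ψ = ((E : ℝ) : ℂ) • ψ ∧ (∀ φ : n → ℂ, E * normSq φ ≤ (qf H φ).re) ∧
      ∀ φ : n → ℂ, ip ψ φ = 0 → (E + Δ) * normSq φ ≤ (qf H φ).re := by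
  obtain ⟨E, h1, h2, h3⟩ := hg
  obtain ⟨e, lam, he, hn, hN, hQ⟩ := exists_coord hH
  have hne : ∀ i, e i ≠ 0 := by
    intro i h0
    have := hn i
    rw [h0] at this
    simp [normSq] at this
  have hlam : ∀ i, lam i = E ∨ E + Δ ≤ lam i := fun i => h3 (lam i) (e i) (hne i) (he i)
  refine ⟨E, h1, ?_, ?_⟩
  · intro φ
    rw [hQ, Complex.ofReal_re, hN, Finset.mul_sum]
    refine Finset.sum_le_sum fun i _ => ?_
    apply mul_le_mul_of_nonneg_right _ (sq_nonneg _)
    rcases hlam i with h | h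
    · exact h.ge
    · linarith
  · intro φ hφ
    rw [hQ, Complex.ofReal_re, hN, Finset.mul_sum]
    refine Finset.sum_le_sum fun i _ => ?_
    rcases hlam i with h | h
    · obtain ⟨c, hc⟩ := h2 (e i) (by rw [he i, h])
      have : ip (e i) φ = 0 := by rw [hc, ip_smul_left, hφ, mul_zero]
      rw [this]
      simp
    · exact mul_le_mul_of_nonneg_right h (sq_nonneg _)

lemma isGround_of_gapped {H : Matrix n n ℂ} (hH : H.IsHermitian) {Δ : ℝ} (hΔ : 0 ≤ Δ) {ψ : n → ℂ}
    (hg : IsGappedGround H Δ ψ) : IsGround H ψ := by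
  obtain ⟨E, h1, h2, _⟩ := gapped_bound hH hΔ hg
  exact ⟨E, h1, h2⟩

end forms

section torus

variable {d L : ℕ} [NeZero L]

open Classical in
lemma qf_term (B : Finset (ℤ × ℤ)) (h : Matrix (B → Fin d) (B → Fin d) ℂ)
    (u : Site L) (φ : (Site L → Fin d) → ℂ) :
    qf (term B h L u) φ = ∑ a, ∑ b, h a b * rdm (fun x : B => toTorus L x + u) φ b a := by
  rw [qf_eq]
  set j : B → Site L := fun x : B => toTorus L x + u with hj
  have h1 : ∀ a b, h a b * rdm j φ b a =
      ∑ s, ∑ t, if Ker j b a s t then h a b * (φ s * (starRingEnd ℂ) (φ t)) else 0 := by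
    intro a b
    rw [rdm_apply, Finset.mul_sum]
    refine Finset.sum_congr rfl fun s _ => ?_
    rw [Finset.mul_sum]
    refine Finset.sum_congr rfl fun t _ => ?_
    split_ifs <;> simp
  simp_rw [h1]
  have h2 : (∑ a, ∑ b, ∑ s, ∑ t, if Ker j b a s t then h a b * (φ s * (starRingEnd ℂ) (φ t)) else 0)
      = ∑ t, ∑ s, ∑ a, ∑ b,
        if Ker j b a s t then h a b * (φ s * (starRingEnd ℂ) (φ t)) else 0 := by
    calc _ = ∑ a, ∑ s, ∑ b, ∑ t,
          (if Ker j b a s t then h a b * (φ s * (starRingEnd ℂ) (φ t)) else 0) :=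
          Finset.sum_congr rfl fun a _ => Finset.sum_comm
      _ = ∑ s, ∑ a, ∑ b, ∑ t,
          (if Ker j b a s t then h a b * (φ s * (starRingEnd ℂ) (φ t)) else 0) := Finset.sum_comm
      _ = ∑ s, ∑ a, ∑ t, ∑ b,
          (if Ker j b a s t then h a b * (φ s * (starRingEnd ℂ) (φ t)) else 0) :=
          Finset.sum_congr rfl fun s _ => Finset.sum_congr rfl fun a _ => Finset.sum_comm
      _ = ∑ s, ∑ t, ∑ a, ∑ b,
          (if Ker j b a s t then h a b * (φ s * (starRingEnd ℂ) (φ t)) else 0) :=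
          Finset.sum_congr rfl fun s _ => Finset.sum_comm
      _ = _ := Finset.sum_comm
  rw [h2]
  refine Finset.sum_congr rfl fun t _ => ?_
  refine Finset.sum_congr rfl fun s _ => ?_
  unfold term
  by_cases hc : ∀ v, (∀ x : B, toTorus L x + u ≠ v) → t v = s v
  · rw [if_pos hc, Finset.sum_eq_single (fun x => t (j x)), Finset.sum_eq_single (fun x => s (j x))]
    · rw [if_pos]
      · simp only [hj]; ring
      · exact ⟨fun x => rfl, fun x => rfl, fun v hv => (hc v hv).symm⟩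
    · intro b _ hb
      rw [if_neg]
      rintro ⟨h3, _, _⟩
      exact hb (funext fun x => (h3 x).symm)
    · intro hh; exact absurd (Finset.mem_univ _) hh
    · intro a _ ha
      apply Finset.sum_eq_zero
      intro b _
      rw [if_neg]
      rintro ⟨_, h3, _⟩
      exact ha (funext fun x => (h3 x).symm)
    · intro hh; exact absurd (Finset.mem_univ _) hh
  · rw [if_neg hc, mul_zero, zero_mul]
    symm
    apply Finset.sum_eq_zero
    intro a _
    apply Finset.sum_eq_zero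
    intro b _
    rw [if_neg]
    rintro ⟨_, _, h3⟩
    exact hc (fun v hv => (h3 v hv).symm)

/-- The energy of a translation invariant vector in terms of its reduced state. -/
lemma qf_ham (B : Finset (ℤ × ℤ)) (h : Matrix (B → Fin d) (B → Fin d) ℂ)
    (φ : (Site L → Fin d) → ℂ) (hφ : normSq φ = 1) (hT : TransInv φ) :
    qf (ham B h L) φ = ((L : ℂ) ^ 2) * pair h (redState B φ) := by
  unfold ham
  rw [qf_sum]
  have h1 : ∀ u : Site L, qf (term B h L u) φ = pair h (redState B φ) := by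
    intro u
    rw [qf_term]
    unfold pair redState
    refine Finset.sum_congr rfl fun a _ => Finset.sum_congr rfl fun b _ => ?_
    rw [rdm_shift φ hφ hT (fun x : B => toTorus L x) u, hφ]
    simp
  rw [Finset.sum_congr rfl fun u _ => h1 u, Finset.sum_const, Finset.card_univ,
    Fintype.card_prod, ZMod.card, nsmul_eq_mul]
  push_cast
  ring

lemma ham_herm (B : Finset (ℤ × ℤ)) {h : Matrix (B → Fin d) (B → Fin d) ℂ} (hh : h.IsHermitian) :
    (ham B h L).IsHermitian := by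
  classical
  unfold ham
  unfold Matrix.IsHermitian
  rw [Matrix.conjTranspose_sum]
  refine Finset.sum_congr rfl fun u _ => ?_
  ext s t
  rw [Matrix.conjTranspose_apply]
  unfold term
  by_cases hc : ∀ v, (∀ x : B, toTorus L x + u ≠ v) → s v = t v
  · rw [if_pos hc, if_pos (fun v hv => (hc v hv).symm)]
    exact hh.apply _ _
  · rw [if_neg hc, if_neg (fun h => hc (fun v hv => (h v hv).symm)), star_zero]

lemma term_add (B : Finset (ℤ × ℤ)) (h k : Matrix (B → Fin d) (B → Fin d) ℂ) (c : ℂ)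
    (u : Site L) : term B (h + c • k) L u = term B h L u + c • term B k L u := by
  classical
  ext s t
  simp only [Matrix.add_apply, Matrix.smul_apply]
  unfold term
  split_ifs
  · rfl
  · simp

lemma ham_add (B : Finset (ℤ × ℤ)) (h k : Matrix (B → Fin d) (B → Fin d) ℂ) (c : ℂ) :
    ham B (h + c • k) L = ham B h L + c • ham B k L := by
  unfold ham
  rw [Finset.smul_sum, ← Finset.sum_add_distrib]
  exact Finset.sum_congr rfl fun u _ => term_add B h k c u

/-- contraction is translation invariant -/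
lemma contract_shift {K : Type*} [Fintype K] (A : Fin d → K → K → K → K → ℂ) (u : Site L)
    (s : Site L → Fin d) : contract A L (fun v => s (v + u)) = contract A L s := by
  unfold contract
  let T : (Site L → K) ≃ (Site L → K) :=
    Equiv.arrowCongr (Equiv.addRight u) (Equiv.refl _)
  refine Fintype.sum_equiv T _ _ fun h => ?_
  refine Fintype.sum_equiv T _ _ fun v => ?_
  have hT : ∀ h : Site L → K, T h = fun x => h (x - u) := by
    intro h
    funext x
    simp [T, Equiv.arrowCongr, sub_eq_add_neg]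
  rw [hT, hT]
  refine Fintype.prod_equiv (Equiv.addRight u) _ _ fun x => ?_
  have e1 : (Equiv.addRight u) x = x + u := rfl
  rw [e1]
  have e2 : (x + u) - u = x := add_sub_cancel_right x u
  have e3 : ((x + u).1 - 1, (x + u).2) - u = (x.1 - 1, x.2) := by
    apply Prod.ext
    · simp only [Prod.fst_sub, Prod.fst_add]; ring
    · simp only [Prod.snd_sub, Prod.snd_add]; ring
  have e4 : ((x + u).1, (x + u).2 - 1) - u = (x.1, x.2 - 1) := by
    apply Prod.ext
    · simp only [Prod.fst_sub, Prod.fst_add]; ring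
    · simp only [Prod.snd_sub, Prod.snd_add]; ring
  simp only [e2, e3, e4]

lemma transInv_smul {ψ : (Site L → Fin d) → ℂ} (h : TransInv ψ) (c : ℂ) : TransInv (c • ψ) := by
  intro u
  obtain ⟨a, ha⟩ := h u
  refine ⟨a, ?_⟩
  funext s
  have := congrFun ha s
  simp only [Pi.smul_apply, smul_eq_mul] at this ⊢
  rw [this]
  ring

lemma redState_smul (R : Finset (ℤ × ℤ)) (c : ℂ) (hc : c ≠ 0) (φ : (Site L → Fin d) → ℂ) :
    redState R (c • φ) = redState R φ := by
  ext a b
  unfold redState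
  rw [Matrix.smul_apply, Matrix.smul_apply, rdm_smul, normSq_smul]
  have h1 : (‖c‖ ^ 2 : ℝ) ≠ 0 := by
    have := norm_ne_zero_iff.mpr hc
    positivity
  have h2 : (((‖c‖ ^ 2 : ℝ)) : ℂ) ≠ 0 := by exact_mod_cast h1
  simp only [smul_eq_mul]
  rw [Complex.ofReal_mul, mul_inv, mul_comm (((‖c‖ ^ 2 : ℝ)) : ℂ)⁻¹, mul_assoc, ← mul_assoc _ (((‖c‖ ^ 2 : ℝ)) : ℂ),
    inv_mul_cancel₀ h2, one_mul]

end torus

end Pool.Agent.Y665.PE
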