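import Mathlib
import Pool.Agent.Y665.PE.A1

set_option autoImplicit false
set_option linter.unusedSectionVars false

open scoped BigOperators Topology
open Finset Filter
open Pool.Agent.H4R2

/-!
# Transfer of reduced states between system sizes
-/

namespace Pool.Agent.Y665.PE

/-- The entrywise form of the main estimate. -/
theorem entry_approx (d : ℕ) (hd : 2 ≤ d) (R : Finset (ℤ × ℤ)) (ε : ℝ) (hε : 0 < ε) :
    ∃ L₀ : ℕ, ∀ (L : ℕ) [NeZero L], L₀ ≤ L → ∀ ψ : (Site L → Fin d) → ℂ, normSq ψ = 1 →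
      TransInv ψ → ∃ A : Tensor d (bondDim d R ε), ∀ (L' : ℕ) [NeZero L'], L₀ ≤ L' →
        0 < normSq (contract A L') ∧ ∀ a b,
          ‖redState R (contract A L') a b - redState R ψ a b‖
            ≤ ε / (2 * ((d : ℝ) ^ R.card) ^ 2) := by
  classical
  set M := side d R ε with hM
  have hM1 : 2 * R.card + 2 ≤ M := by rw [hM]; unfold side; omega
  have hM2 : 2 * rad R + 2 ≤ M := by rw [hM]; unfold side; omega
  have : NeZero M := ⟨by omega⟩
  have hM3 : 16 * ((rad R : ℝ) + 2) * (d : ℝ) ^ (2 * R.card) / ε ≤ M := by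
    refine (Nat.le_ceil _).trans ?_
    rw [hM]; unfold side
    push_cast
    have : (0 : ℝ) ≤ 2 * (R.card : ℝ) + 2 * rad R + 2 := by positivity
    linarith
  refine ⟨(M + 2) * (M + 2) + (M + 3) * R.card + 1, ?_⟩
  intro L _ hL ψ hψ hT
  let x : R → ℤ × ℤ := fun y => y
  have hr : ∀ i, |(x i).1| ≤ (rad R : ℕ) ∧ |(x i).2| ≤ (rad R : ℕ) := by
    intro i
    have h1 : max (x i).1.natAbs (x i).2.natAbs ≤ rad R :=
      Finset.le_sup (f := fun x : ℤ × ℤ => max x.1.natAbs x.2.natAbs) i.2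
    constructor
    · rw [Int.abs_eq_natAbs]; exact_mod_cast (le_max_left _ _).trans h1
    · rw [Int.abs_eq_natAbs]; exact_mod_cast (le_max_right _ _).trans h1
  obtain ⟨Φ, hΦ, hΦ2⟩ := exists_block hd ψ hψ x (rad R) hr
    (by rw [Fintype.card_coe]; exact hM1) hM2 (by nlinarith)
    (fun u a b => rdm_shift ψ hψ hT (fun i => toTorus L (x i)) u a b)
  have hcard : Fintype.card (Lab d M) = bondDim d R ε := by
    unfold bondDim
    rw [← hM]
    simp only [Fintype.card_prod, Fintype.card_fin, Fintype.card_pi, prod_const, card_univ]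
    ring
  obtain ⟨e⟩ : Nonempty (Fin (bondDim d R ε) ≃ Lab d M) := by
    rw [← hcard]
    exact ⟨(Fintype.equivFin _).symm⟩
  refine ⟨fun s l r u n => tens hd Φ s (e l) (e r) (e u) (e n), ?_⟩
  intro L' _ hL'
  have hcon : contract (fun s l r u n => tens hd Φ s (e l) (e r) (e u) (e n)) L'
      = contract (tens hd Φ) L' := by
    funext s
    exact contract_equiv e _ _ _
  rw [hcon]
  obtain ⟨h1, h2⟩ := block_main (L := L') hd Φ hΦ x (rad R) hr (Finset.Ico (rad R) (M - 1 - rad R))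
    (fun k hk => by rw [Finset.mem_Ico] at hk; omega)
    (by rw [Finset.nonempty_Ico]; omega) (by nlinarith)
    (by rw [Fintype.card_coe]; nlinarith)
  refine ⟨h1, fun a b => ?_⟩
  have h3 := h2 a b
  rw [hΦ2 a b] at h3
  unfold redState
  simp only [Matrix.smul_apply, smul_eq_mul]
  rw [hψ]
  simp only [Complex.ofReal_one, inv_one, one_mul]
  refine h3.trans ?_
  rw [Nat.card_Ico]
  have h4 : ((M - 1 - rad R - rad R : ℕ) : ℝ) = (M : ℝ) - 1 - rad R - rad R := by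
    rw [Nat.cast_sub (by omega), Nat.cast_sub (by omega), Nat.cast_sub (by omega)]
    simp
  rw [h4]
  have hM0 : (0 : ℝ) < (M : ℝ) + 3 := by positivity
  have h5 : 4 * (1 - ((M : ℝ) - 1 - rad R - rad R) / (M + 3)) = 8 * ((rad R : ℝ) + 2) / (M + 3) := by
    field_simp
    ring
  rw [h5]
  have hdp : (0 : ℝ) < (d : ℝ) ^ R.card := by
    have : (0 : ℝ) < d := by exact_mod_cast (by omega : 0 < d)
    positivity
  rw [div_le_div_iff₀ hM0 (by positivity)]
  rw [div_le_iff₀ hε] at hM3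
  have h6 : (d : ℝ) ^ (2 * R.card) = ((d : ℝ) ^ R.card) ^ 2 := by
    rw [← pow_mul]; congr 1; ring
  rw [h6] at hM3
  nlinarith

lemma traceNorm_le' {d : ℕ} (R : Finset (ℤ × ℤ)) (hd : 2 ≤ d) (X : Matrix (R → Fin d) (R → Fin d) ℂ)
    (ε : ℝ) (hε : 0 < ε) (h : ∀ a b, ‖X a b‖ ≤ ε / ((d : ℝ) ^ R.card) ^ 2) : traceNorm X ≤ ε := by
  have hdp : (0 : ℝ) < (d : ℝ) ^ R.card := by
    have : (0 : ℝ) < d := by exact_mod_cast (by omega : 0 < d)
    positivity
  refine (traceNorm_le X _ (by positivity) h).trans ?_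
  simp only [Fintype.card_pi, Fintype.card_fin, prod_const, card_univ, Fintype.card_coe]
  push_cast
  rw [mul_div_cancel₀]
  positivity
/-- Reduced states of translation invariant vectors are reproduced on all large tori. -/
theorem transfer (d : ℕ) (hd : 2 ≤ d) (R : Finset (ℤ × ℤ)) (ε : ℝ) (hε : 0 < ε) :
    ∃ L₀ : ℕ, ∀ (L L' : ℕ) [NeZero L] [NeZero L'], L₀ ≤ L → L₀ ≤ L' →
      ∀ ψ : (Site L → Fin d) → ℂ, normSq ψ = 1 → TransInv ψ →
      ∃ φ : (Site L' → Fin d) → ℂ, normSq φ = 1 ∧ TransInv φ ∧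
        ∀ a b, ‖redState R φ a b - redState R ψ a b‖ ≤ ε := by
  obtain ⟨L₀, hL₀⟩ := entry_approx d hd R ε hε
  refine ⟨L₀, fun L L' _ _ hL hL' ψ hψ hT => ?_⟩
  obtain ⟨A, hA⟩ := hL₀ L hL ψ hψ hT
  obtain ⟨h1, h2⟩ := hA L' hL'
  set N := normSq (contract A L') with hN
  have hs : 0 < Real.sqrt N := Real.sqrt_pos.mpr h1
  set c : ℂ := (((Real.sqrt N)⁻¹ : ℝ) : ℂ) with hc
  have hcn : ‖c‖ = (Real.sqrt N)⁻¹ := by
    rw [hc, Complex.norm_real, Real.norm_of_nonneg (by positivity)]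
  have hc0 : c ≠ 0 := by
    rw [← norm_ne_zero_iff, hcn]; positivity
  refine ⟨c • contract A L', ?_, ?_, ?_⟩
  · rw [normSq_smul, hcn, ← hN, inv_pow, Real.sq_sqrt h1.le]
    field_simp
  · apply transInv_smul
    intro u
    refine ⟨1, ?_⟩
    rw [one_smul]
    funext s
    exact contract_shift A u s
  · intro a b
    rw [redState_smul R c hc0]
    refine (h2 a b).trans ?_
    have hdp : (1 : ℝ) ≤ (d : ℝ) ^ R.card := by
      apply one_le_pow₀
      exact_mod_cast (by omega : 1 ≤ d)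
    rw [div_le_iff₀ (by positivity)]
    nlinarith [hε.le, sq_nonneg ((d : ℝ) ^ R.card), mul_le_mul hdp hdp zero_le_one
      (by linarith : (0 : ℝ) ≤ (d : ℝ) ^ R.card)]

/-- Local approximation by one tensor when the reduced states converge. -/
theorem approx_of_conv (d : ℕ) (hd : 2 ≤ d) (R : Finset (ℤ × ℤ)) (ε : ℝ) (hε : 0 < ε)
    (ψ : ∀ (L : ℕ) [NeZero L], (Site L → Fin d) → ℂ) (L₁ : ℕ)
    (hψ : ∀ (L : ℕ) [NeZero L], L₁ ≤ L → normSq (ψ L) = 1 ∧ TransInv (ψ L))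
    (hc : ∀ δ : ℝ, 0 < δ → ∃ L₂ : ℕ, ∀ (L L' : ℕ) [NeZero L] [NeZero L'], L₂ ≤ L → L₂ ≤ L' →
      ∀ a b, ‖redState R (ψ L) a b - redState R (ψ L') a b‖ ≤ δ) :
    ∃ A : Tensor d (bondDim d R ε), ∃ L₂ : ℕ, ∀ (L : ℕ) [NeZero L], L₂ ≤ L →
      contract A L ≠ 0 ∧ traceNorm (redState R (ψ L) - redState R (contract A L)) ≤ ε := by
  obtain ⟨L₀, hL₀⟩ := entry_approx d hd R ε hε
  have hdp : (0 : ℝ) < (d : ℝ) ^ R.card := by
    have : (0 : ℝ) < d := by exact_mod_cast (by omega : 0 < d)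
    positivity
  obtain ⟨L₂, hL₂⟩ := hc (ε / (2 * ((d : ℝ) ^ R.card) ^ 2)) (by positivity)
  set K := max L₀ (max L₁ L₂) + 1 with hK
  have : NeZero K := ⟨by omega⟩
  obtain ⟨h1, h2⟩ := hψ K (by omega)
  obtain ⟨A, hA⟩ := hL₀ K (by omega) (ψ K) h1 h2
  refine ⟨A, K, fun L _ hL => ?_⟩
  obtain ⟨h3, h4⟩ := hA L (by omega)
  refine ⟨?_, traceNorm_le' R hd _ ε hε fun a b => ?_⟩
  · intro h0
    rw [h0] at h3
    simp [normSq] at h3
  · have h5 := hL₂ L K (by omega) (by omega) a b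
    have h6 := h4 a b
    have h7 : redState R (ψ L) a b - redState R (contract A L) a b =
        (redState R (ψ L) a b - redState R (ψ K) a b) -
        (redState R (contract A L) a b - redState R (ψ K) a b) := by ring
    rw [Matrix.sub_apply, h7]
    refine (norm_sub_le _ _).trans ?_
    have h8 : ε / ((d : ℝ) ^ R.card) ^ 2 = ε / (2 * ((d : ℝ) ^ R.card) ^ 2) +
        ε / (2 * ((d : ℝ) ^ R.card) ^ 2) := by
      field_simp
      ring
    rw [h8]
    exact add_le_add h5 h6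

/-- bound for the pairing -/
lemma pair_le {n : Type*} [Fintype n] (k ρ ρ' : Matrix n n ℂ) (ε : ℝ)
    (h : ∀ a b, ‖ρ a b - ρ' a b‖ ≤ ε) :
    |(pair k ρ).re - (pair k ρ').re| ≤ (∑ a, ∑ b, ‖k a b‖) * ε := by
  have h1 : (pair k ρ).re - (pair k ρ').re = (∑ a, ∑ b, k a b * (ρ b a - ρ' b a)).re := by
    rw [← Complex.sub_re]
    congr 1
    unfold pair
    rw [← Finset.sum_sub_distrib]
    refine Finset.sum_congr rfl fun a _ => ?_
    rw [← Finset.sum_sub_distrib]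
    refine Finset.sum_congr rfl fun b _ => ?_
    ring
  rw [h1]
  refine (Complex.abs_re_le_norm _).trans ((norm_sum_le _ _).trans ?_)
  rw [Finset.sum_mul]
  refine Finset.sum_le_sum fun a _ => (norm_sum_le _ _).trans ?_
  rw [Finset.sum_mul]
  refine Finset.sum_le_sum fun b _ => ?_
  rw [norm_mul]
  exact mul_le_mul_of_nonneg_left (h b a) (norm_nonneg _)

/-- Ground states have the least energy per site. -/
lemma ground_pair {d L : ℕ} [NeZero L] (R : Finset (ℤ × ℤ)) {h : Matrix (R → Fin d) (R → Fin d) ℂ}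
    {ψ φ : (Site L → Fin d) → ℂ} (hg : IsGround (ham R h L) ψ) (hψ : normSq ψ = 1)
    (hψT : TransInv ψ) (hφ : normSq φ = 1) (hφT : TransInv φ) :
    (pair h (redState R ψ)).re ≤ (pair h (redState R φ)).re := by
  obtain ⟨E, h1, h2⟩ := hg
  have h3 := h2 φ
  rw [hφ, mul_one, qf_ham R h φ hφ hφT] at h3
  have h4 : qf (ham R h L) ψ = (E : ℂ) := by
    unfold qf
    rw [h1, ip_smul_right, ip_self, hψ]
    simp
  rw [qf_ham R h ψ hψ hψT] at h4
  have h5 : (((L : ℂ) ^ 2) * pair h (redState R ψ)).re ≤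
      (((L : ℂ) ^ 2) * pair h (redState R φ)).re := by
    rw [h4, Complex.ofReal_re]
    exact h3
  have h6 : ∀ z : ℂ, (((L : ℂ) ^ 2) * z).re = (L : ℝ) ^ 2 * z.re := by
    intro z
    have : ((L : ℂ) ^ 2) = (((L : ℝ) ^ 2 : ℝ) : ℂ) := by push_cast; rfl
    rw [this, Complex.re_ofReal_mul]
  rw [h6, h6] at h5
  have hL : (0 : ℝ) < (L : ℝ) ^ 2 := by
    have : (0 : ℝ) < L := by exact_mod_cast Nat.pos_of_ne_zero (NeZero.ne L)
    positivity
  exact le_of_mul_le_mul_left h5 hL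

/-- The energies per site converge. -/
theorem energy_close (d : ℕ) (hd : 2 ≤ d) (R : Finset (ℤ × ℤ)) (ε : ℝ) (hε : 0 < ε) :
    ∃ L₀ : ℕ, ∀ (L L' : ℕ) [NeZero L] [NeZero L'], L₀ ≤ L → L₀ ≤ L' →
      ∀ (h : Matrix (R → Fin d) (R → Fin d) ℂ) (ψ : (Site L → Fin d) → ℂ)
        (ψ' : (Site L' → Fin d) → ℂ), IsGround (ham R h L) ψ → normSq ψ = 1 → TransInv ψ →
        IsGround (ham R h L') ψ' → normSq ψ' = 1 → TransInv ψ' →
        |(pair h (redState R ψ)).re - (pair h (redState R ψ')).re| ≤ (∑ a, ∑ b, ‖h a b‖) * ε := by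
  obtain ⟨L₀, hL₀⟩ := transfer d hd R ε hε
  refine ⟨L₀, fun L L' _ _ hL hL' h ψ ψ' hg hψ hT hg' hψ' hT' => ?_⟩
  obtain ⟨φ, h1, h2, h3⟩ := hL₀ L L' hL hL' ψ hψ hT
  obtain ⟨φ', h1', h2', h3'⟩ := hL₀ L' L hL' hL ψ' hψ' hT'
  have e1 := ground_pair R hg' hψ' hT' h1 h2
  have e2 := ground_pair R hg hψ hT h1' h2'
  have e3 := abs_le.mp (pair_le h _ _ ε h3)
  have e4 := abs_le.mp (pair_le h _ _ ε h3')
  rw [abs_le]
  constructor <;> linarith [e3.1, e3.2, e4.1, e4.2]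

end Pool.Agent.Y665.PE
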