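import Mathlib
import Pool.Agent.Y665.PE.A1

set_option autoImplicit false
set_option linter.unusedSectionVars false

open scoped BigOperators Topology
open Finset Filter
open Pool.Agent.H4R2

/-!
# Double commutators of sums of local operators
-/

namespace Pool.Agent.Y665.PE

section norms

variable {n : Type*} [Fintype n]

/-- The norm of a vector. -/
noncomputable def nm (φ : n → ℂ) : ℝ := Real.sqrt (normSq φ)

lemma nm_eq (φ : n → ℂ) : nm φ = ‖(WithLp.toLp 2 φ : EuclideanSpace ℂ n)‖ := by
  rw [EuclideanSpace.norm_eq]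
  rfl

lemma nm_nonneg (φ : n → ℂ) : 0 ≤ nm φ := Real.sqrt_nonneg _

lemma nm_sq (φ : n → ℂ) : nm φ ^ 2 = normSq φ := Real.sq_sqrt (normSq_nonneg φ)

lemma nm_add (φ χ : n → ℂ) : nm (φ + χ) ≤ nm φ + nm χ := by
  rw [nm_eq, nm_eq, nm_eq]
  exact norm_add_le _ _

lemma nm_sub (φ χ : n → ℂ) : nm (φ - χ) ≤ nm φ + nm χ := by
  rw [nm_eq, nm_eq, nm_eq]
  exact norm_sub_le _ _

lemma nm_smul (c : ℂ) (φ : n → ℂ) : nm (c • φ) = ‖c‖ * nm φ := by
  unfold nm
  rw [normSq_smul, Real.sqrt_mul (by positivity), Real.sqrt_sq (norm_nonneg c)]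

lemma ip_le (φ χ : n → ℂ) : ‖ip φ χ‖ ≤ nm φ * nm χ := by
  have hip : ip φ χ = inner ℂ (WithLp.toLp 2 φ : EuclideanSpace ℂ n)
      (WithLp.toLp 2 χ) := by
    rw [PiLp.inner_apply]
    unfold ip
    refine Finset.sum_congr rfl fun s _ => ?_
    simp [mul_comm]
  rw [hip, nm_eq, nm_eq]
  exact norm_inner_le_norm _ _

/-- `M` is bounded by `c`. -/
def Bd (M : Matrix n n ℂ) (c : ℝ) : Prop := ∀ χ, nm (M.mulVec χ) ≤ c * nm χ

lemma Bd.mul {M N : Matrix n n ℂ} {c c' : ℝ} (hc : 0 ≤ c) (hM : Bd M c) (hN : Bd N c') :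
    Bd (M * N) (c * c') := by
  intro χ
  rw [← Matrix.mulVec_mulVec]
  refine (hM _).trans ?_
  rw [mul_assoc]
  exact mul_le_mul_of_nonneg_left (hN χ) hc

lemma Bd.sub {M N : Matrix n n ℂ} {c c' : ℝ} (hM : Bd M c) (hN : Bd N c') :
    Bd (M - N) (c + c') := by
  intro χ
  rw [Matrix.sub_mulVec]
  refine (nm_sub _ _).trans ?_
  rw [add_mul]
  exact add_le_add (hM χ) (hN χ)

lemma Bd.sum {ι : Type*} (S : Finset ι) (M : ι → Matrix n n ℂ) (c : ℝ)
    (hM : ∀ i ∈ S, Bd (M i) c) : Bd (∑ i ∈ S, M i) (S.card * c) := by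
  classical
  induction S using Finset.induction_on with
  | empty =>
    intro χ
    simp [nm, normSq]
  | insert a S ha ih =>
    intro χ
    rw [Finset.sum_insert ha, Matrix.add_mulVec, Finset.card_insert_of_notMem ha]
    refine (nm_add _ _).trans ?_
    have h1 := hM a (Finset.mem_insert_self a S) χ
    have h2 := ih (fun i hi => hM i (Finset.mem_insert_of_mem hi)) χ
    push_cast
    nlinarith

lemma Bd.qf_le {M : Matrix n n ℂ} {c : ℝ} (hM : Bd M c) (ψ : n → ℂ) (hψ : normSq ψ = 1) :
    ‖qf M ψ‖ ≤ c := by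
  have h1 : nm ψ = 1 := by unfold nm; rw [hψ, Real.sqrt_one]
  have h2 := hM ψ
  have h3 := ip_le ψ (M.mulVec ψ)
  rw [h1] at h2 h3
  unfold qf
  linarith

/-- Schur's test -/
lemma schur (T : Matrix n n ℂ) (c : ℝ) (hc : 0 ≤ c) (h1 : ∀ s, ∑ t, ‖T s t‖ ≤ c)
    (h2 : ∀ t, ∑ s, ‖T s t‖ ≤ c) : Bd T c := by
  intro χ
  apply Real.sqrt_le_iff.mpr
  refine ⟨mul_nonneg hc (nm_nonneg χ), ?_⟩
  rw [mul_pow, nm_sq]
  unfold normSq
  calc ∑ s, ‖(T.mulVec χ) s‖ ^ 2 ≤ ∑ s, c * ∑ t, ‖T s t‖ * ‖χ t‖ ^ 2 := by
        refine Finset.sum_le_sum fun s _ => ?_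
        have e1 : ‖(T.mulVec χ) s‖ ≤ ∑ t, ‖T s t‖ * ‖χ t‖ := by
          unfold Matrix.mulVec dotProduct
          refine (norm_sum_le _ _).trans (le_of_eq ?_)
          exact Finset.sum_congr rfl fun t _ => norm_mul _ _
        have e2 : (∑ t, ‖T s t‖ * ‖χ t‖) ^ 2 ≤ (∑ t, ‖T s t‖) * ∑ t, ‖T s t‖ * ‖χ t‖ ^ 2 := by
          have e3 := Finset.sum_mul_sq_le_sq_mul_sq Finset.univ (fun t => Real.sqrt ‖T s t‖)
            (fun t => Real.sqrt ‖T s t‖ * ‖χ t‖)
          have e4 : ∀ t, Real.sqrt ‖T s t‖ * (Real.sqrt ‖T s t‖ * ‖χ t‖) = ‖T s t‖ * ‖χ t‖ := by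
            intro t
            rw [← mul_assoc, Real.mul_self_sqrt (norm_nonneg _)]
          have e5 : ∀ t, Real.sqrt ‖T s t‖ ^ 2 = ‖T s t‖ := fun t => Real.sq_sqrt (norm_nonneg _)
          have e6 : ∀ t, (Real.sqrt ‖T s t‖ * ‖χ t‖) ^ 2 = ‖T s t‖ * ‖χ t‖ ^ 2 := by
            intro t
            rw [mul_pow, e5]
          simp only [e4, e5, e6] at e3
          exact e3
        have e0 : 0 ≤ ∑ t, ‖T s t‖ * ‖χ t‖ ^ 2 :=
          Finset.sum_nonneg fun t _ => mul_nonneg (norm_nonneg _) (sq_nonneg _)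
        calc ‖(T.mulVec χ) s‖ ^ 2 ≤ (∑ t, ‖T s t‖ * ‖χ t‖) ^ 2 :=
              pow_le_pow_left₀ (norm_nonneg _) e1 2
          _ ≤ _ := e2
          _ ≤ _ := mul_le_mul_of_nonneg_right (h1 s) e0
    _ = c * ∑ t, (∑ s, ‖T s t‖) * ‖χ t‖ ^ 2 := by
        rw [← Finset.mul_sum, Finset.sum_comm]
        congr 1
        refine Finset.sum_congr rfl fun t _ => ?_
        rw [Finset.sum_mul]
    _ ≤ c * ∑ t, c * ‖χ t‖ ^ 2 := by
        apply mul_le_mul_of_nonneg_left _ hc
        refine Finset.sum_le_sum fun t _ => ?_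
        exact mul_le_mul_of_nonneg_right (h2 t) (sq_nonneg _)
    _ = c ^ 2 * ∑ t, ‖χ t‖ ^ 2 := by
        rw [← Finset.mul_sum]; ring

end norms

section local_

variable {d L : ℕ} [NeZero L]

/-- the size of an interaction -/
noncomputable def size {n : Type*} [Fintype n] (h : Matrix n n ℂ) : ℝ := ∑ a, ∑ b, ‖h a b‖

lemma size_nonneg {n : Type*} [Fintype n] (h : Matrix n n ℂ) : 0 ≤ size h :=
  Finset.sum_nonneg fun _ _ => Finset.sum_nonneg fun _ _ => norm_nonneg _

lemma term_bd (B : Finset (ℤ × ℤ)) (h : Matrix (B → Fin d) (B → Fin d) ℂ) (u : Site L) :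
    Bd (term B h L u) (size h) := by
  classical
  set j : B → Site L := fun x : B => toTorus L x + u with hj
  have uniq : ∀ s t t' : Site L → Fin d, (∀ v, (∀ x : B, j x ≠ v) → s v = t v) →
      (∀ v, (∀ x : B, j x ≠ v) → s v = t' v) → (∀ x, t (j x) = t' (j x)) → t = t' := by
    intro s t t' h1 h2 h3
    funext v
    by_cases hv : ∃ x, j x = v
    · obtain ⟨x, rfl⟩ := hv; exact h3 x
    · push Not at hv
      rw [← h1 v hv, ← h2 v hv]
  have row : ∀ (s : Site L → Fin d) (g : (B → Fin d) → ℝ), (∀ b, 0 ≤ g b) →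
      ∑ t : Site L → Fin d, (if ∀ v, (∀ x : B, j x ≠ v) → s v = t v then
        g (fun x => t (j x)) else 0) ≤ ∑ b, g b := by
    intro s g hg
    have h1 : ∀ t : Site L → Fin d, (if ∀ v, (∀ x : B, j x ≠ v) → s v = t v then
        g (fun x => t (j x)) else 0) = ∑ b, (if (∀ v, (∀ x : B, j x ≠ v) → s v = t v) ∧
          (fun x => t (j x)) = b then g b else 0) := by
      intro t
      by_cases hc : ∀ v, (∀ x : B, j x ≠ v) → s v = t v
      · rw [if_pos hc, Finset.sum_eq_single (fun x => t (j x))]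
        · rw [if_pos ⟨hc, rfl⟩]
        · intro b _ hb
          rw [if_neg]
          rintro ⟨_, h2⟩
          exact hb h2.symm
        · intro hh; exact absurd (Finset.mem_univ _) hh
      · rw [if_neg hc]
        symm
        apply Finset.sum_eq_zero
        intro b _
        rw [if_neg]
        rintro ⟨h2, _⟩
        exact hc h2
    simp_rw [h1]
    rw [Finset.sum_comm]
    refine Finset.sum_le_sum fun b _ => ?_
    by_cases ht : ∃ t : Site L → Fin d, (∀ v, (∀ x : B, j x ≠ v) → s v = t v) ∧
          (fun x => t (j x)) = b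
    · obtain ⟨t, h2, h3⟩ := ht
      rw [Finset.sum_eq_single t]
      · rw [if_pos ⟨h2, h3⟩]
      · intro t' _ hne
        rw [if_neg]
        rintro ⟨h4, h5⟩
        apply hne
        apply uniq s t' t h4 h2
        intro x
        exact congrFun (h5.trans h3.symm) x
      · intro hh; exact absurd (Finset.mem_univ _) hh
    · push Not at ht
      rw [Finset.sum_eq_zero]
      · exact hg b
      · intro t _
        rw [if_neg]
        rintro ⟨h4, h5⟩
        exact ht t h4 h5
  apply schur _ _ (size_nonneg h)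
  · intro s
    have h1 : ∑ t, ‖term B h L u s t‖ = ∑ t : Site L → Fin d,
        (if ∀ v, (∀ x : B, j x ≠ v) → s v = t v then
          ‖h (fun x => s (j x)) (fun x => t (j x))‖ else 0) := by
      refine Finset.sum_congr rfl fun t _ => ?_
      unfold term
      split_ifs <;> simp [hj]
    rw [h1]
    refine (row s (fun b => ‖h (fun x => s (j x)) b‖) (fun b => norm_nonneg _)).trans ?_
    unfold size
    exact Finset.single_le_sum (f := fun a => ∑ b, ‖h a b‖)
      (fun a _ => Finset.sum_nonneg fun b _ => norm_nonneg _) (Finset.mem_univ _)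
  · intro t
    have h1 : ∑ s, ‖term B h L u s t‖ = ∑ s : Site L → Fin d,
        (if ∀ v, (∀ x : B, j x ≠ v) → t v = s v then
          ‖h (fun x => s (j x)) (fun x => t (j x))‖ else 0) := by
      refine Finset.sum_congr rfl fun s _ => ?_
      unfold term
      by_cases hc : ∀ v, (∀ x : B, toTorus L x + u ≠ v) → s v = t v
      · rw [if_pos hc, if_pos (fun v hv => (hc v hv).symm)]
      · rw [if_neg hc, if_neg (fun h => hc (fun v hv => (h v hv).symm)), norm_zero]
    rw [h1]
    refine (row t (fun a => ‖h a (fun x => t (j x))‖) (fun b => norm_nonneg _)).trans ?_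
    unfold size
    rw [Finset.sum_comm]
    exact Finset.single_le_sum (f := fun b => ∑ a, ‖h a b‖)
      (fun a _ => Finset.sum_nonneg fun b _ => norm_nonneg _) (Finset.mem_univ _)

/-- the translates by `u` and `u'` are disjoint -/
def Dj (R : Finset (ℤ × ℤ)) (u u' : Site L) : Prop :=
  ∀ x y : R, toTorus L x + u ≠ toTorus L y + u'

lemma Dj.symm {R : Finset (ℤ × ℤ)} {u u' : Site L} (h : Dj R u u') : Dj R u' u :=
  fun x y e => h y x e.symm

open Classical in
lemma term_mul (R : Finset (ℤ × ℤ)) (h k : Matrix (R → Fin d) (R → Fin d) ℂ) (u u' : Site L)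
    (hd : Dj R u u') (s t : Site L → Fin d) :
    (term R h L u * term R k L u') s t =
      if (∀ v, (∀ x : R, toTorus L x + u ≠ v) → (∀ y : R, toTorus L y + u' ≠ v) → s v = t v)
      then h (fun x => s (toTorus L x + u)) (fun x => t (toTorus L x + u)) *
        k (fun x => s (toTorus L x + u')) (fun x => t (toTorus L x + u')) else 0 := by
  rw [Matrix.mul_apply]
  let r₀ : Site L → Fin d := fun v => if ∃ x : R, toTorus L x + u = v then t v else s v
  have hr1 : ∀ x : R, r₀ (toTorus L x + u) = t (toTorus L x + u) := fun x =>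
    if_pos ⟨x, rfl⟩
  have hr2 : ∀ v, (∀ x : R, toTorus L x + u ≠ v) → r₀ v = s v := by
    intro v hv
    apply if_neg
    rintro ⟨x, hx⟩
    exact hv x hx
  have hr3 : ∀ x : R, r₀ (toTorus L x + u') = s (toTorus L x + u') := fun x =>
    hr2 _ (fun y => hd y x)
  rw [Finset.sum_eq_single r₀]
  · have h1 : term R h L u s r₀ = h (fun x => s (toTorus L x + u))
        (fun x => t (toTorus L x + u)) := by
      unfold term
      rw [if_pos (fun v hv => (hr2 v hv).symm)]
      congr 1
      funext x
      exact hr1 x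
    have h2 : term R k L u' r₀ t = if (∀ v, (∀ x : R, toTorus L x + u ≠ v) →
        (∀ y : R, toTorus L y + u' ≠ v) → s v = t v) then
        k (fun x => s (toTorus L x + u')) (fun x => t (toTorus L x + u')) else 0 := by
      unfold term
      have h3 : (∀ v, (∀ x : R, toTorus L x + u' ≠ v) → r₀ v = t v) ↔
          (∀ v, (∀ x : R, toTorus L x + u ≠ v) → (∀ y : R, toTorus L y + u' ≠ v) → s v = t v) := by
        constructor
        · intro h v hv hv'
          rw [← hr2 v hv]
          exact h v hv'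
        · intro h v hv'
          by_cases hv : ∃ x : R, toTorus L x + u = v
          · exact if_pos hv
          · push Not at hv
            rw [hr2 v hv]
            exact h v hv hv'
      by_cases hc : ∀ v, (∀ x : R, toTorus L x + u' ≠ v) → r₀ v = t v
      · rw [if_pos hc, if_pos (h3.mp hc)]
        congr 1
        funext x
        exact hr3 x
      · rw [if_neg hc, if_neg (fun h => hc (h3.mpr h))]
    rw [h1, h2]
    split_ifs
    · rfl
    · rw [mul_zero]
  · intro r _ hne
    unfold term
    by_cases h1 : ∀ v, (∀ x : R, toTorus L x + u ≠ v) → s v = r v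
    · by_cases h2 : ∀ v, (∀ x : R, toTorus L x + u' ≠ v) → r v = t v
      · exfalso
        apply hne
        funext v
        by_cases hv : ∃ x : R, toTorus L x + u = v
        · have h3 : r₀ v = t v := if_pos hv
          rw [h3]
          obtain ⟨x, rfl⟩ := hv
          exact h2 _ (fun y e => hd x y e.symm)
        · push Not at hv
          rw [hr2 v hv, h1 v hv]
      · rw [if_neg h2, mul_zero]
    · rw [if_neg h1, zero_mul]
  · intro hh; exact absurd (Finset.mem_univ _) hh

lemma term_commute (R : Finset (ℤ × ℤ)) (h k : Matrix (R → Fin d) (R → Fin d) ℂ) (u u' : Site L)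
    (hd : Dj R u u') : Commute (term R h L u) (term R k L u') := by
  classical
  ext s t
  rw [term_mul R h k u u' hd, term_mul R k h u' u hd.symm]
  by_cases hc : ∀ v, (∀ x : R, toTorus L x + u ≠ v) → (∀ y : R, toTorus L y + u' ≠ v) → s v = t v
  · rw [if_pos hc, if_pos (fun v h1 h2 => hc v h2 h1), mul_comm]
  · rw [if_neg hc, if_neg (fun h => hc (fun v h1 h2 => h v h2 h1))]

/-- commutators -/
def cm {A : Type*} [Ring A] (x y : A) : A := x * y - y * x

lemma cm_eq_zero {A : Type*} [Ring A] {x y : A} (h : Commute x y) : cm x y = 0 := by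
  unfold cm
  rw [h.eq, sub_self]

lemma cm_sum_left {A ι : Type*} [Ring A] (S : Finset ι) (x : ι → A) (y : A) :
    cm (∑ i ∈ S, x i) y = ∑ i ∈ S, cm (x i) y := by
  unfold cm
  rw [Finset.sum_mul, Finset.mul_sum, ← Finset.sum_sub_distrib]

lemma cm_sum_right {A ι : Type*} [Ring A] (S : Finset ι) (x : ι → A) (y : A) :
    cm y (∑ i ∈ S, x i) = ∑ i ∈ S, cm y (x i) := by
  unfold cm
  rw [Finset.sum_mul, Finset.mul_sum, ← Finset.sum_sub_distrib]

lemma Bd.cm {n : Type*} [Fintype n] [DecidableEq n] {M N : Matrix n n ℂ} {c c' : ℝ} (hc : 0 ≤ c)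
    (hc' : 0 ≤ c') (hM : Bd M c) (hN : Bd N c') : Bd (PE.cm M N) (2 * (c * c')) := by
  have h := (Bd.mul hc hM hN).sub (Bd.mul hc' hN hM)
  have e : c * c' + c' * c = 2 * (c * c') := by ring
  rw [e] at h
  exact h

/-- the bound for the double commutator -/
theorem double_comm (R : Finset (ℤ × ℤ)) (k O : Matrix (R → Fin d) (R → Fin d) ℂ)
    (ψ : (Site L → Fin d) → ℂ) (hψ : normSq ψ = 1) :
    ‖qf (cm (ham R O L) (cm (ham R k L) (ham R O L))) ψ‖ ≤
      (L : ℝ) ^ 2 * (8 * (R.card : ℝ) ^ 4 * size k * size O ^ 2) := by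
  classical
  have h1 : cm (ham R O L) (cm (ham R k L) (ham R O L)) =
      ∑ u : Site L, ∑ p : Site L × Site L,
        cm (term R O L p.2) (cm (term R k L u) (term R O L p.1)) := by
    unfold ham
    rw [cm_sum_left (Finset.univ : Finset (Site L)) (fun u => term R k L u), cm_sum_right]
    refine Finset.sum_congr rfl fun u _ => ?_
    rw [cm_sum_right, cm_sum_right]
    have e : ∑ p : Site L × Site L, cm (term R O L p.2) (cm (term R k L u) (term R O L p.1)) =
        ∑ a : Site L, ∑ b : Site L, cm (term R O L b) (cm (term R k L u) (term R O L a)) :=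
      Fintype.sum_prod_type _
    rw [e]
    refine Finset.sum_congr rfl fun u' _ => ?_
    rw [cm_sum_left]
  rw [h1, qf_sum]
  refine (norm_sum_le _ _).trans ?_
  have h2 : ∀ u : Site L, ‖qf (∑ p : Site L × Site L,
      cm (term R O L p.2) (cm (term R k L u) (term R O L p.1))) ψ‖ ≤
      8 * (R.card : ℝ) ^ 4 * size k * size O ^ 2 := by
    intro u
    rw [qf_sum]
    refine (norm_sum_le _ _).trans ?_
    let f : (R × R) × (R × R) × Bool → Site L × Site L := fun q =>
      (toTorus L q.1.1 + u - toTorus L q.1.2,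
        toTorus L q.2.1.1 + (if q.2.2 then u else toTorus L q.1.1 + u - toTorus L q.1.2)
          - toTorus L q.2.1.2)
    let S : Finset (Site L × Site L) := Finset.univ.image f
    have hS : (S.card : ℝ) ≤ 2 * (R.card : ℝ) ^ 4 := by
      have h3 : S.card ≤ Fintype.card ((R × R) × (R × R) × Bool) :=
        Finset.card_image_le.trans (le_of_eq (Finset.card_univ))
      simp only [Fintype.card_prod, Fintype.card_bool, Fintype.card_coe] at h3
      have h4 : (S.card : ℝ) ≤ ((R.card * R.card * (R.card * R.card * 2) : ℕ) : ℝ) := by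
        exact_mod_cast h3
      refine h4.trans (le_of_eq ?_)
      push_cast
      ring
    have hz : ∀ p : Site L × Site L, p ∉ S →
        cm (term R O L p.2) (cm (term R k L u) (term R O L p.1)) = 0 := by
      intro p hp
      by_cases h3 : Dj R u p.1
      · rw [cm_eq_zero (term_commute R k O u p.1 h3)]
        unfold cm
        simp
      · unfold Dj at h3
        push Not at h3
        obtain ⟨x, y, hxy⟩ := h3
        have e1 : p.1 = toTorus L x + u - toTorus L y := by rw [hxy]; simp
        have h4 : Dj R p.2 u := by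
          intro z w hzw
          apply hp
          rw [Finset.mem_image]
          refine ⟨((x, y), (w, z), true), Finset.mem_univ _, ?_⟩
          apply Prod.ext
          · exact e1.symm
          · simp only [f, if_true]
            rw [← hzw]; simp
        have h5 : Dj R p.2 p.1 := by
          intro z w hzw
          apply hp
          rw [Finset.mem_image]
          refine ⟨((x, y), (w, z), false), Finset.mem_univ _, ?_⟩
          apply Prod.ext
          · exact e1.symm
          · simp only [f, if_false, Bool.false_eq_true]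
            rw [← e1, ← hzw]; simp
        apply cm_eq_zero
        unfold cm
        have c1 := term_commute R O k p.2 u h4
        have c2 := term_commute R O O p.2 p.1 h5
        exact (c1.mul_right c2).sub_right (c2.mul_right c1)
    have hb : ∀ p : Site L × Site L,
        ‖qf (cm (term R O L p.2) (cm (term R k L u) (term R O L p.1))) ψ‖ ≤
          4 * (size k * size O ^ 2) := by
      intro p
      have b1 := (term_bd R O p.2).cm (size_nonneg O) (by have := size_nonneg k; have := size_nonneg O; positivity)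
        ((term_bd R k u).cm (size_nonneg k) (size_nonneg O) (term_bd R O p.1))
      refine (Bd.qf_le b1 ψ hψ).trans (le_of_eq ?_)
      ring
    have hsum : ∑ p : Site L × Site L,
        ‖qf (cm (term R O L p.2) (cm (term R k L u) (term R O L p.1))) ψ‖ =
        ∑ p ∈ S, ‖qf (cm (term R O L p.2) (cm (term R k L u) (term R O L p.1))) ψ‖ := by
      symm
      apply Finset.sum_subset (Finset.subset_univ S)
      intro p _ hp
      rw [hz p hp]
      simp [qf, ip]
    rw [hsum]
    refine (Finset.sum_le_sum fun p _ => hb p).trans ?_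
    rw [Finset.sum_const, nsmul_eq_mul]
    have h0 : 0 ≤ size k * size O ^ 2 := mul_nonneg (size_nonneg k) (sq_nonneg _)
    nlinarith
  refine (Finset.sum_le_sum fun u _ => h2 u).trans (le_of_eq ?_)
  rw [Finset.sum_const, Finset.card_univ, Fintype.card_prod, ZMod.card, nsmul_eq_mul]
  push_cast
  ring

end local_

end Pool.Agent.Y665.PE
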