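import Mathlib
import Pool.Agent.Y665.PE.B1
import Pool.Agent.Y665.PE.A2

set_option autoImplicit false
set_option linter.unusedSectionVars false

open scoped BigOperators Topology
open Finset Filter
open Pool.Agent.H4R2

/-!
# A stable gap makes the ground state energy per site differentiable
-/

namespace Pool.Agent.Y665.PE

section one

/-- A continuous function with local support lines lies above its support line at `0`. -/
lemma support_global (G s : ℝ → ℝ) (T : ℝ) (hT : 0 < T) (hG : ContinuousOn G (Set.Icc 0 T))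
    (hs : ∀ x ∈ Set.Icc (0 : ℝ) T, ∃ η : ℝ, 0 < η ∧ ∀ y ∈ Set.Icc (0 : ℝ) T, |y - x| < η →
      G x + s x * (y - x) ≤ G y) : G 0 + s 0 * T ≤ G T := by
  by_contra hcon
  push Not at hcon
  set δ : ℝ := (G 0 + s 0 * T - G T) / T with hδ
  have hδ0 : 0 < δ := by
    rw [hδ]; apply div_pos _ hT; linarith
  have hδT : δ * T = G 0 + s 0 * T - G T := by
    rw [hδ]; field_simp
  let F : ℝ → ℝ := fun x => G x - G 0 - s 0 * x + δ * x
  have hF0 : F 0 = 0 := by simp [F]
  have hFT : F T = 0 := by simp only [F]; rw [hδT]; ring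
  have hFc : ContinuousOn F (Set.Icc 0 T) := by
    apply ContinuousOn.add
    · apply ContinuousOn.sub
      · exact hG.sub continuousOn_const
      · exact (continuous_const.mul continuous_id).continuousOn
    · exact (continuous_const.mul continuous_id).continuousOn
  obtain ⟨xm, hxm, hmax⟩ := isCompact_Icc.exists_isMaxOn (Set.nonempty_Icc.mpr hT.le) hFc
  have hmax' : ∀ y ∈ Set.Icc (0 : ℝ) T, F y ≤ F xm := fun y hy => hmax hy
  have hM : 0 < F xm := by
    obtain ⟨η, hη, h1⟩ := hs 0 ⟨le_rfl, hT.le⟩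
    set y := min (η / 2) T with hy
    have hy0 : 0 < y := lt_min (by positivity) hT
    have hyT : y ≤ T := min_le_right _ _
    have hyη : |y - 0| < η := by
      rw [sub_zero, abs_of_pos hy0]
      exact (min_le_left _ _).trans_lt (by linarith)
    have h2 := h1 y ⟨hy0.le, hyT⟩ hyη
    have h3 : 0 < F y := by
      simp only [F]
      have : 0 < δ * y := mul_pos hδ0 hy0
      nlinarith
    exact h3.trans_le (hmax' y ⟨hy0.le, hyT⟩)
  let A : Set ℝ := Set.Icc 0 T ∩ F ⁻¹' {F xm}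
  have hAc : IsClosed A := hFc.preimage_isClosed_of_isClosed isClosed_Icc isClosed_singleton
  have hAn : A.Nonempty := ⟨xm, hxm, rfl⟩
  have hAb : BddBelow A := ⟨0, fun y hy => hy.1.1⟩
  have hz : sInf A ∈ A := hAc.csInf_mem hAn hAb
  set z := sInf A with hzdef
  have hFz : F z = F xm := hz.2
  have hz0 : 0 < z := by
    rcases hz.1.1.eq_or_lt with h | h
    · rw [← h, hF0] at hFz
      linarith
    · exact h
  have hzT : z < T := by
    rcases hz.1.2.eq_or_lt with h | h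
    · rw [h, hFT] at hFz
      linarith
    · exact h
  obtain ⟨η, hη, h1⟩ := hs z hz.1
  set τ := min (η / 2) (min (z / 2) ((T - z) / 2)) with hτ
  have hτ0 : 0 < τ := lt_min (by positivity) (lt_min (by positivity) (by linarith))
  have hτ1 : τ ≤ η / 2 := min_le_left _ _
  have hτ2 : τ ≤ z / 2 := (min_le_right _ _).trans (min_le_left _ _)
  have hτ3 : τ ≤ (T - z) / 2 := (min_le_right _ _).trans (min_le_right _ _)
  have h2 := h1 (z + τ) ⟨by linarith, by linarith⟩ (by
    rw [add_sub_cancel_left, abs_of_pos hτ0]; linarith)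
  have h3 := h1 (z - τ) ⟨by linarith, by linarith⟩ (by
    rw [sub_sub_cancel_left, abs_neg, abs_of_pos hτ0]; linarith)
  have h4 := hmax' (z + τ) ⟨by linarith, by linarith⟩
  have h5 := hmax' (z - τ) ⟨by linarith, by linarith⟩
  have h6 : F (z - τ) = F xm := by
    apply le_antisymm h5
    rw [← hFz] at h4 ⊢
    simp only [F] at h4 ⊢
    nlinarith
  have h7 : z - τ ∈ A := ⟨⟨by linarith, by linarith⟩, h6⟩
  have h8 := csInf_le hAb h7
  linarith

end one

section pert

variable {n : Type*} [Fintype n] [DecidableEq n]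

lemma herm_add_smul {H V : Matrix n n ℂ} (hH : H.IsHermitian) (hV : V.IsHermitian) (t : ℝ) :
    (H + (t : ℂ) • V).IsHermitian := by
  apply hH.add
  unfold Matrix.IsHermitian
  rw [Matrix.conjTranspose_smul, hV.eq]
  congr 1
  exact Complex.conj_ofReal t

lemma qf_im {H : Matrix n n ℂ} (hH : H.IsHermitian) (φ : n → ℂ) : qf H φ = ((qf H φ).re : ℂ) := by
  have h1 : (starRingEnd ℂ) (qf H φ) = qf H φ := by
    unfold qf
    rw [ip_conj, ip_mulVec hH]
  exact (Complex.conj_eq_iff_re.mp h1).symm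

/-- the double commutator in an eigenvector -/
lemma fsum {H V : Matrix n n ℂ} (hH : H.IsHermitian) (hV : V.IsHermitian) {E : ℝ} {ψ : n → ℂ}
    (hE : H.mulVec ψ = (E : ℂ) • ψ) :
    2 * ((qf H (V.mulVec ψ)).re - E * normSq (V.mulVec ψ)) = (qf (cm V (cm H V)) ψ).re := by
  have h1 : qf (cm V (cm H V)) ψ = 2 * (qf H (V.mulVec ψ) - E * (normSq (V.mulVec ψ) : ℝ)) := by
    unfold cm qf
    rw [← ip_self]
    simp only [mul_sub, sub_mul, Matrix.sub_mulVec, ip_sub_right, ← Matrix.mulVec_mulVec]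
    rw [hE]
    simp only [Matrix.mulVec_smul, ip_smul_right]
    have e1 : ip ψ (V.mulVec (V.mulVec ψ)) = ip (V.mulVec ψ) (V.mulVec ψ) := (ip_mulVec hV _ _).symm
    have e2 : ip ψ (V.mulVec (H.mulVec (V.mulVec ψ))) =
        ip (V.mulVec ψ) (H.mulVec (V.mulVec ψ)) := (ip_mulVec hV _ _).symm
    have e3 : ip ψ (H.mulVec (V.mulVec (V.mulVec ψ))) = (E : ℂ) * ip (V.mulVec ψ) (V.mulVec ψ) := by
      rw [← ip_mulVec hH, hE, ip_smul_left, Complex.conj_ofReal, e1]
    rw [e1, e2, e3]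
    ring
  rw [h1, Complex.mul_re]
  simp

/-- second order perturbation theory, as a lower bound -/
lemma local_lower {H V : Matrix n n ℂ} (hH : H.IsHermitian) (hV : V.IsHermitian) {E Δ c : ℝ}
    (hΔ : 0 < Δ) {ψ : n → ℂ} (hψ : normSq ψ = 1)
    (hE : H.mulVec ψ = (E : ℂ) • ψ)
    (hgap : ∀ φ : n → ℂ, ip ψ φ = 0 → (E + Δ) * normSq φ ≤ (qf H φ).re) (hc : Bd V c)
    (t : ℝ) (ht : 4 * |t| * c ≤ Δ) (φ : n → ℂ) (hφ : normSq φ = 1) :
    E + t * (qf V ψ).re - 2 * t ^ 2 * ((qf H (V.mulVec ψ)).re - E * normSq (V.mulVec ψ)) / Δ ^ 2 ≤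
      (qf (H + (t : ℂ) • V) φ).re := by
  set m := (qf V ψ).re with hm
  have hmV : qf V ψ = (m : ℂ) := qf_im hV ψ
  have hmc : |m| ≤ c := (Complex.abs_re_le_norm _).trans (hc.qf_le ψ hψ)
  have hc0 : 0 ≤ c := (abs_nonneg m).trans hmc
  set w : n → ℂ := V.mulVec ψ - (m : ℂ) • ψ with hw
  have hVψ : V.mulVec ψ = w + (m : ℂ) • ψ := by rw [hw]; simp
  have hψψ : ip ψ ψ = 1 := by rw [ip_self, hψ]; simp
  have hwψ : ip ψ w = 0 := by
    rw [hw, ip_sub_right, ip_smul_right, hψψ, mul_one]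
    have : ip ψ (V.mulVec ψ) = qf V ψ := rfl
    rw [this, hmV, sub_self]
  have hψw : ip w ψ = 0 := by rw [← ip_conj, hwψ, map_zero]
  -- the excitation energy of `w`
  set F := (qf H (V.mulVec ψ)).re - E * normSq (V.mulVec ψ) with hF
  have hFw : F = (qf H w).re - E * normSq w := by
    have e1 : qf H (V.mulVec ψ) = qf H w + ((m ^ 2 * E : ℝ) : ℂ) := by
      unfold qf
      rw [hVψ, Matrix.mulVec_add, Matrix.mulVec_smul, hE]
      simp only [ip_add_left, ip_add_right, ip_smul_left, ip_smul_right, hψw, hψψ]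
      rw [← ip_mulVec hH ψ w, hE, ip_smul_left, hwψ]
      simp only [Complex.conj_ofReal]
      push_cast
      ring
    have e2 : ((normSq (V.mulVec ψ) : ℝ) : ℂ) = ((normSq w + m ^ 2 : ℝ) : ℂ) := by
      rw [← ip_self, hVψ]
      simp only [ip_add_left, ip_add_right, ip_smul_left, ip_smul_right, hψw, hψψ, hwψ]
      rw [ip_self]
      simp only [Complex.conj_ofReal]
      push_cast
      ring
    have e2' : normSq (V.mulVec ψ) = normSq w + m ^ 2 := by exact_mod_cast e2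
    rw [hF, e1, e2', Complex.add_re, Complex.ofReal_re]
    ring
  have hwF : Δ * normSq w ≤ F := by
    have := hgap w hwψ
    rw [hFw]
    linarith
  -- decompose `φ`
  set a := ip ψ φ with ha
  set χ : n → ℂ := φ - a • ψ with hχ
  have hφe : φ = χ + a • ψ := by rw [hχ]; simp
  have hψχ : ip ψ χ = 0 := by
    rw [hχ, ip_sub_right, ip_smul_right, hψψ, mul_one, ← ha, sub_self]
  have hχψ : ip χ ψ = 0 := by rw [← ip_conj, hψχ, map_zero]
  have ha2 : (starRingEnd ℂ) a * a = ((‖a‖ ^ 2 : ℝ) : ℂ) := by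
    rw [mul_comm, Complex.mul_conj, Complex.normSq_eq_norm_sq]
  have hnorm : ‖a‖ ^ 2 + normSq χ = 1 := by
    have e1 : ((normSq φ : ℝ) : ℂ) = ((‖a‖ ^ 2 + normSq χ : ℝ) : ℂ) := by
      rw [← ip_self, hφe]
      simp only [ip_add_left, ip_add_right, ip_smul_left, ip_smul_right, hψχ, hψψ, hχψ]
      rw [ip_self]
      push_cast at ha2 ⊢
      rw [← ha2]
      ring
    rw [hφ] at e1
    have e2 : (1 : ℝ) = ‖a‖ ^ 2 + normSq χ := by exact_mod_cast e1
    exact e2.symm
  have hH1 : (qf H φ).re = ‖a‖ ^ 2 * E + (qf H χ).re := by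
    have e1 : qf H φ = ((‖a‖ ^ 2 * E : ℝ) : ℂ) + qf H χ := by
      unfold qf
      rw [hφe, Matrix.mulVec_add, Matrix.mulVec_smul, hE]
      simp only [ip_add_left, ip_add_right, ip_smul_left, ip_smul_right, hχψ, hψψ]
      rw [← ip_mulVec hH ψ χ, hE, ip_smul_left, hψχ]
      push_cast at ha2 ⊢
      rw [← ha2]
      ring
    rw [e1, Complex.add_re, Complex.ofReal_re]
  have hV1 : (qf V φ).re = ‖a‖ ^ 2 * m + 2 * ((starRingEnd ℂ) a * ip w χ).re + (qf V χ).re := by
    have e0 : ip ψ (V.mulVec χ) = ip w χ := by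
      rw [← ip_mulVec hV ψ χ, hVψ, ip_add_left, ip_smul_left, hψχ, mul_zero, add_zero]
    have e0' : ip χ (V.mulVec ψ) = (starRingEnd ℂ) (ip w χ) := by
      rw [← e0, ip_conj, ip_mulVec hV]
    have e1 : qf V φ = ((‖a‖ ^ 2 * m : ℝ) : ℂ) + ((starRingEnd ℂ) a * ip w χ +
        (starRingEnd ℂ) ((starRingEnd ℂ) a * ip w χ)) + qf V χ := by
      have e2 : ip ψ (V.mulVec ψ) = (m : ℂ) := hmV
      unfold qf
      rw [hφe, Matrix.mulVec_add, Matrix.mulVec_smul]
      simp only [ip_add_left, ip_add_right, ip_smul_left, ip_smul_right, e0, e0', e2, map_mul,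
        Complex.conj_conj]
      push_cast at ha2 ⊢
      rw [← ha2]
      ring
    rw [e1, Complex.add_re, Complex.add_re, Complex.ofReal_re, Complex.add_conj]
    simp
  have hgapχ := hgap χ hψχ
  have hVχ : |(qf V χ).re| ≤ c * normSq χ := by
    refine (Complex.abs_re_le_norm _).trans ?_
    have e1 := ip_le χ (V.mulVec χ)
    have e2 := hc χ
    have e3 := nm_nonneg χ
    unfold qf
    rw [← nm_sq]
    nlinarith
  have hcross : |((starRingEnd ℂ) a * ip w χ).re| ≤ nm w * nm χ := by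
    refine (Complex.abs_re_le_norm _).trans ?_
    rw [norm_mul, RCLike.norm_conj]
    have e1 := ip_le w χ
    have e2 : ‖a‖ ≤ 1 := by
      have := normSq_nonneg χ
      nlinarith [norm_nonneg a]
    have e3 : 0 ≤ nm w * nm χ := mul_nonneg (nm_nonneg w) (nm_nonneg χ)
    nlinarith [norm_nonneg (ip w χ), norm_nonneg a]
  have hre : (qf (H + (t : ℂ) • V) φ).re = (qf H φ).re + t * (qf V φ).re := by
    rw [qf_add, qf_smul, Complex.add_re, Complex.re_ofReal_mul]
  rw [hre, hH1, hV1]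
  set z := nm χ with hz
  have hz2 : z ^ 2 = normSq χ := nm_sq χ
  have hw2 : nm w ^ 2 = normSq w := nm_sq w
  have hz0 : 0 ≤ z := nm_nonneg χ
  have hw0 : 0 ≤ nm w := nm_nonneg w
  rw [← hz2] at hgapχ hVχ hnorm
  rw [← hw2] at hwF
  set X := ((starRingEnd ℂ) a * ip w χ).re with hX
  set Y := (qf V χ).re with hY
  have ha' : ‖a‖ ^ 2 = 1 - z ^ 2 := by linarith
  rw [ha']
  have b1 : -(|t| * (nm w * z)) ≤ t * X := by
    have := abs_mul t X
    have h2 : |t * X| ≤ |t| * (nm w * z) := by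
      rw [this]; exact mul_le_mul_of_nonneg_left hcross (abs_nonneg t)
    exact (abs_le.mp h2).1
  have b2 : -(|t| * (c * z ^ 2)) ≤ t * Y := by
    have := abs_mul t Y
    have h2 : |t * Y| ≤ |t| * (c * z ^ 2) := by
      rw [this]; exact mul_le_mul_of_nonneg_left hVχ (abs_nonneg t)
    exact (abs_le.mp h2).1
  have b3 : -(|t| * (c * z ^ 2)) ≤ -(t * m * z ^ 2) := by
    have h2 : |t * m| ≤ |t| * c := by
      rw [abs_mul]; exact mul_le_mul_of_nonneg_left hmc (abs_nonneg t)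
    have h3 := (abs_le.mp h2).2
    nlinarith [sq_nonneg z]
  have b4 : 2 * |t| * c * z ^ 2 ≤ Δ / 2 * z ^ 2 := by nlinarith [sq_nonneg z]
  have b5 : 0 ≤ Δ / 2 * z ^ 2 - 2 * |t| * (nm w * z) + 2 * t ^ 2 * nm w ^ 2 / Δ := by
    have h2 : Δ / 2 * z ^ 2 - 2 * |t| * (nm w * z) + 2 * t ^ 2 * nm w ^ 2 / Δ =
        (Δ * z - 2 * |t| * nm w) ^ 2 / (2 * Δ) := by
      rw [← sq_abs t]
      field_simp
      ring
    rw [h2]
    positivity
  have b6 : 2 * t ^ 2 * nm w ^ 2 / Δ ≤ 2 * t ^ 2 * F / Δ ^ 2 := by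
    rw [div_le_div_iff₀ hΔ (by positivity)]
    have : nm w ^ 2 * Δ ≤ F := by linarith
    nlinarith [mul_le_mul_of_nonneg_left this (by positivity : 0 ≤ 2 * t ^ 2 * Δ)]
  nlinarith

/-- global lower bound for the ground state energy when the gap does not close -/
theorem global_lower {H V : Matrix n n ℂ} (hH : H.IsHermitian) (hV : V.IsHermitian)
    {Δ c Fb T : ℝ} (hΔ : 0 < Δ) (hT : 0 < T) (hc : Bd V c) (hc0 : 0 ≤ c)
    (ψ : ℝ → n → ℂ) (E : ℝ → ℝ) (hψ : ∀ x ∈ Set.Icc (0 : ℝ) T, normSq (ψ x) = 1)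
    (hE : ∀ x ∈ Set.Icc (0 : ℝ) T, (H + (x : ℂ) • V).mulVec (ψ x) = (E x : ℂ) • ψ x)
    (hmin : ∀ x ∈ Set.Icc (0 : ℝ) T, ∀ φ : n → ℂ,
      E x * normSq φ ≤ (qf (H + (x : ℂ) • V) φ).re)
    (hgap : ∀ x ∈ Set.Icc (0 : ℝ) T, ∀ φ : n → ℂ, ip (ψ x) φ = 0 →
      (E x + Δ) * normSq φ ≤ (qf (H + (x : ℂ) • V) φ).re)
    (hF : ∀ x ∈ Set.Icc (0 : ℝ) T, (qf (H + (x : ℂ) • V) (V.mulVec (ψ x))).re -
      E x * normSq (V.mulVec (ψ x)) ≤ Fb) :
    E T ≤ E 0 + T * (qf V (ψ 0)).re ∧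
      E 0 + T * (qf V (ψ 0)).re - 2 * Fb / Δ ^ 2 * T ^ 2 ≤ E T := by
  have hval : ∀ x ∈ Set.Icc (0 : ℝ) T, (qf (H + (x : ℂ) • V) (ψ x)).re = E x := by
    intro x hx
    unfold qf
    rw [hE x hx, ip_smul_right, ip_self, hψ x hx]
    simp
  have hup : ∀ x ∈ Set.Icc (0 : ℝ) T, ∀ y ∈ Set.Icc (0 : ℝ) T,
      E y ≤ E x + (y - x) * (qf V (ψ x)).re := by
    intro x hx y hy
    have h1 := hmin y hy (ψ x)
    rw [hψ x hx, mul_one] at h1
    have h2 : (qf (H + (y : ℂ) • V) (ψ x)).re = (qf (H + (x : ℂ) • V) (ψ x)).re +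
        (y - x) * (qf V (ψ x)).re := by
      rw [qf_add, qf_add, qf_smul, qf_smul, Complex.add_re, Complex.add_re,
        Complex.re_ofReal_mul, Complex.re_ofReal_mul]
      ring
    rw [h2, hval x hx] at h1
    exact h1
  have hmc : ∀ x ∈ Set.Icc (0 : ℝ) T, |(qf V (ψ x)).re| ≤ c := fun x hx =>
    (Complex.abs_re_le_norm _).trans (hc.qf_le (ψ x) (hψ x hx))
  have h0 : (0 : ℝ) ∈ Set.Icc (0 : ℝ) T := ⟨le_rfl, hT.le⟩
  have hTm : T ∈ Set.Icc (0 : ℝ) T := ⟨hT.le, le_rfl⟩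
  refine ⟨by simpa using hup 0 h0 T hTm, ?_⟩
  set K := 2 * Fb / Δ ^ 2 with hK
  have hEc : ContinuousOn E (Set.Icc 0 T) := by
    have hlip : LipschitzOnWith (Real.toNNReal c) E (Set.Icc 0 T) := by
      apply LipschitzOnWith.of_le_add_mul
      intro x hx y hy
      rw [Real.coe_toNNReal _ hc0]
      have h1 := hup y hy x hx
      have h2 : (x - y) * (qf V (ψ y)).re ≤ c * dist x y := by
        have h3 := hmc y hy
        have h4 : |(x - y) * (qf V (ψ y)).re| ≤ |x - y| * c := by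
          rw [abs_mul]; exact mul_le_mul_of_nonneg_left h3 (abs_nonneg _)
        rw [Real.dist_eq]
        linarith [(abs_le.mp h4).2, mul_comm (|x - y|) c]
      linarith
    exact hlip.continuousOn
  have key := support_global (fun x => E x + K * x ^ 2)
    (fun x => (qf V (ψ x)).re + 2 * K * x) T hT
    (hEc.add (continuous_const.mul (continuous_pow 2)).continuousOn) (by
      intro x hx
      refine ⟨Δ / (4 * c + 1), by positivity, ?_⟩
      intro y hy hxy
      have ht : 4 * |y - x| * c ≤ Δ := by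
        rw [lt_div_iff₀ (by positivity)] at hxy
        nlinarith [abs_nonneg (y - x)]
      have h1 := local_lower (herm_add_smul hH hV x) hV hΔ (hψ x hx) (hE x hx) (hgap x hx) hc
        (y - x) ht (ψ y) (hψ y hy)
      have h2 : H + (x : ℂ) • V + ((y - x : ℝ) : ℂ) • V = H + (y : ℂ) • V := by
        rw [add_assoc, ← add_smul]
        congr 2
        push_cast
        ring
      rw [h2, hval y hy] at h1
      have h3 : 2 * (y - x) ^ 2 * ((qf (H + (x : ℂ) • V) (V.mulVec (ψ x))).re -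
          E x * normSq (V.mulVec (ψ x))) / Δ ^ 2 ≤ K * (y - x) ^ 2 := by
        have h4 : K * (y - x) ^ 2 = 2 * (y - x) ^ 2 * Fb / Δ ^ 2 := by
          rw [hK]; ring
        rw [h4]
        apply div_le_div_of_nonneg_right _ (by positivity)
        exact mul_le_mul_of_nonneg_left (hF x hx) (by positivity)
      nlinarith)
  nlinarith

end pert

end Pool.Agent.Y665.PE
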