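import Mathlib
import Pool.Agent.Y665.PE.B2

set_option autoImplicit false
set_option linter.unusedSectionVars false

open scoped BigOperators Topology
open Finset Filter
open Pool.Agent.H4R2

/-!
# A stable gap makes the reduced states converge
-/

namespace Pool.Agent.Y665.PE

section stable

variable {d : ℕ}

lemma transInv_of_ground {L : ℕ} [NeZero L] (B : Finset (ℤ × ℤ))
    (h : Matrix (B → Fin d) (B → Fin d) ℂ) (Δ : ℝ) (ψ : (Site L → Fin d) → ℂ)
    (hψ : IsGappedGround (ham B h L) Δ ψ) : TransInv ψ := by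
  intro u
  obtain ⟨E, h1, h2, _⟩ := hψ
  exact h2 _ (ham_eigen_shift B h u ψ E h1)

lemma size_add_le {n : Type*} [Fintype n] (k O : Matrix n n ℂ) (t δ : ℝ) (ht0 : 0 ≤ t)
    (ht : t ≤ δ) : size (k + (t : ℂ) • O) ≤ size k + δ * size O := by
  unfold size
  rw [Finset.mul_sum, ← Finset.sum_add_distrib]
  refine Finset.sum_le_sum fun a _ => ?_
  rw [Finset.mul_sum, ← Finset.sum_add_distrib]
  refine Finset.sum_le_sum fun b _ => ?_
  rw [Matrix.add_apply, Matrix.smul_apply, smul_eq_mul]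
  refine (norm_add_le _ _).trans ?_
  rw [norm_mul, Complex.norm_real, Real.norm_of_nonneg ht0]
  have := mul_le_mul_of_nonneg_right ht (norm_nonneg (O a b))
  linarith

lemma ham_bd {L : ℕ} [NeZero L] (R : Finset (ℤ × ℤ)) (O : Matrix (R → Fin d) (R → Fin d) ℂ) :
    Bd (ham R O L) ((L : ℝ) ^ 2 * size O) := by
  have h := Bd.sum (Finset.univ : Finset (Site L)) (fun u => term R O L u) (size O)
    (fun u _ => term_bd R O u)
  rw [Finset.card_univ, Fintype.card_prod, ZMod.card] at h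
  have e : ((L * L : ℕ) : ℝ) * size O = (L : ℝ) ^ 2 * size O := by push_cast; ring
  rw [e] at h
  exact h

/-- the energies at one system size -/
lemma one_size {L : ℕ} [NeZero L] (R : Finset (ℤ × ℤ)) {k O : Matrix (R → Fin d) (R → Fin d) ℂ}
    (hk : k.IsHermitian) (hO : O.IsHermitian) {D δ T : ℝ} (hD : 0 < D) (hT : 0 < T) (hTδ : T ≤ δ)
    (ψ : (Site L → Fin d) → ℂ) (hψ : normSq ψ = 1) (hg : IsGappedGround (ham R k L) D ψ)
    (hst : ∀ t : ℝ, 0 < t → t ≤ δ → ∃ φ : (Site L → Fin d) → ℂ, normSq φ = 1 ∧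
      IsGappedGround (ham R k L + (t : ℂ) • ham R O L) D φ) :
    ∃ φ : (Site L → Fin d) → ℂ, normSq φ = 1 ∧ TransInv φ ∧
      IsGround (ham R (k + (T : ℂ) • O) L) φ ∧
      (pair (k + (T : ℂ) • O) (redState R φ)).re ≤
        (pair k (redState R ψ)).re + T * (pair O (redState R ψ)).re ∧
      (pair k (redState R ψ)).re + T * (pair O (redState R ψ)).re -
        8 * (R.card : ℝ) ^ 4 * (size k + δ * size O) * size O ^ 2 / D ^ 2 * T ^ 2 ≤
        (pair (k + (T : ℂ) • O) (redState R φ)).re := by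
  have hHx : ∀ x : ℝ, ham R k L + (x : ℂ) • ham R O L = ham R (k + (x : ℂ) • O) L := fun x =>
    (ham_add R k O (x : ℂ)).symm
  have hHk := ham_herm (L := L) R hk
  have hHO := ham_herm (L := L) R hO
  have hex : ∀ x : ℝ, ∃ (φ : (Site L → Fin d) → ℂ) (E : ℝ), x ∈ Set.Icc (0 : ℝ) T →
      (x = 0 → φ = ψ) ∧ normSq φ = 1 ∧ TransInv φ ∧
      (ham R k L + (x : ℂ) • ham R O L).mulVec φ = (E : ℂ) • φ ∧
      (∀ χ : (Site L → Fin d) → ℂ, E * normSq χ ≤
        (qf (ham R k L + (x : ℂ) • ham R O L) χ).re) ∧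
      (∀ χ : (Site L → Fin d) → ℂ, ip φ χ = 0 → (E + D) * normSq χ ≤
        (qf (ham R k L + (x : ℂ) • ham R O L) χ).re) := by
    intro x
    by_cases hx : x ∈ Set.Icc (0 : ℝ) T
    · rcases hx.1.eq_or_lt with h0 | h0
      · subst h0
        obtain ⟨E, h1, h2, h3⟩ := gapped_bound hHk hD.le hg
        refine ⟨ψ, E, fun _ => ⟨fun _ => rfl, hψ, transInv_of_ground R k D ψ hg, ?_, ?_, ?_⟩⟩
        · simpa using h1
        · simpa using h2
        · simpa using h3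
      · obtain ⟨φ, h1, h2⟩ := hst x h0 (hx.2.trans hTδ)
        obtain ⟨E, h3, h4, h5⟩ := gapped_bound (herm_add_smul hHk hHO x) hD.le h2
        rw [hHx x] at h2
        exact ⟨φ, E, fun _ => ⟨fun h => absurd h h0.ne', h1, transInv_of_ground R _ D φ h2, h3, h4,
          h5⟩⟩
    · exact ⟨ψ, 0, fun h => absurd h hx⟩
  choose Ψ E hΨ using hex
  have h0 : (0 : ℝ) ∈ Set.Icc (0 : ℝ) T := ⟨le_rfl, hT.le⟩
  have hTm : T ∈ Set.Icc (0 : ℝ) T := ⟨hT.le, le_rfl⟩
  have hL : (0 : ℝ) < (L : ℝ) ^ 2 := by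
    have : (0 : ℝ) < L := by exact_mod_cast Nat.pos_of_ne_zero (NeZero.ne L)
    positivity
  set s₁ := size k + δ * size O with hs₁
  have hsO := size_nonneg O
  set Fb : ℝ := (L : ℝ) ^ 2 * (4 * (R.card : ℝ) ^ 4 * s₁ * size O ^ 2) with hFb
  obtain ⟨hup, hlow⟩ := global_lower (Fb := Fb) hHk hHO hD hT (ham_bd R O)
    (mul_nonneg hL.le hsO) Ψ E (fun x hx => (hΨ x hx).2.1)
    (fun x hx => (hΨ x hx).2.2.2.1) (fun x hx => (hΨ x hx).2.2.2.2.1)
    (fun x hx => (hΨ x hx).2.2.2.2.2) (by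
      intro x hx
      have h1 := fsum (herm_add_smul hHk hHO x) hHO (hΨ x hx).2.2.2.1
      have h2 : (qf (cm (ham R O L) (cm (ham R k L + (x : ℂ) • ham R O L) (ham R O L)))
          (Ψ x)).re ≤ (L : ℝ) ^ 2 * (8 * (R.card : ℝ) ^ 4 * size (k + (x : ℂ) • O) *
            size O ^ 2) := by
        rw [hHx x]
        exact (le_abs_self _).trans ((Complex.abs_re_le_norm _).trans
          (double_comm R (k + (x : ℂ) • O) O (Ψ x) (hΨ x hx).2.1))
      have h3 : size (k + (x : ℂ) • O) ≤ s₁ := size_add_le k O x δ hx.1 (hx.2.trans hTδ)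
      have h4 : (L : ℝ) ^ 2 * (8 * (R.card : ℝ) ^ 4 * size (k + (x : ℂ) • O) * size O ^ 2) ≤
          2 * Fb := by
        rw [hFb]
        have h5 : 0 ≤ (L : ℝ) ^ 2 * (8 * (R.card : ℝ) ^ 4) * size O ^ 2 := by positivity
        have h6 := mul_le_mul_of_nonneg_left h3 h5
        nlinarith
      linarith)
  have hΨ0 : Ψ 0 = ψ := (hΨ 0 h0).1 rfl
  have hpair : ∀ (z : ℂ), (((L : ℂ) ^ 2) * z).re = (L : ℝ) ^ 2 * z.re := by
    intro z
    have : ((L : ℂ) ^ 2) = (((L : ℝ) ^ 2 : ℝ) : ℂ) := by push_cast; rfl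
    rw [this, Complex.re_ofReal_mul]
  have hEx : ∀ x ∈ Set.Icc (0 : ℝ) T,
      E x = (L : ℝ) ^ 2 * (pair (k + (x : ℂ) • O) (redState R (Ψ x))).re := by
    intro x hx
    obtain ⟨_, h1, h2, h3, _, _⟩ := hΨ x hx
    have h4 : qf (ham R (k + (x : ℂ) • O) L) (Ψ x) = (E x : ℂ) := by
      rw [← hHx x]
      unfold qf
      rw [h3, ip_smul_right, ip_self, h1]
      simp
    rw [qf_ham R _ (Ψ x) h1 h2] at h4
    rw [← hpair, h4, Complex.ofReal_re]
  have hE0 : E 0 = (L : ℝ) ^ 2 * (pair k (redState R ψ)).re := by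
    rw [hEx 0 h0, hΨ0]
    simp
  have hm0 : (qf (ham R O L) (Ψ 0)).re = (L : ℝ) ^ 2 * (pair O (redState R ψ)).re := by
    rw [hΨ0, qf_ham R O ψ hψ (transInv_of_ground R k D ψ hg), hpair]
  obtain ⟨_, hT1, hT2, hT3, hT4, _⟩ := hΨ T hTm
  refine ⟨Ψ T, hT1, hT2, ?_, ?_, ?_⟩
  · rw [← hHx T]
    exact ⟨E T, hT3, hT4⟩
  · rw [hEx T hTm, hE0, hm0] at hup
    apply le_of_mul_le_mul_left _ hL
    linarith
  · rw [hEx T hTm, hE0, hm0] at hlow
    apply le_of_mul_le_mul_left _ hL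
    refine le_trans (le_of_eq ?_) hlow
    rw [hFb]
    ring

/-- **Convergence of local expectations for a stable gap.** -/
theorem conv_of_stable (hd : 2 ≤ d) (R : Finset (ℤ × ℤ))
    {k O : Matrix (R → Fin d) (R → Fin d) ℂ} (hk : k.IsHermitian) (hO : O.IsHermitian)
    (ψ : ∀ (L : ℕ) [NeZero L], (Site L → Fin d) → ℂ) (D δ : ℝ) (hD : 0 < D) (hδ : 0 < δ) (L₁ : ℕ)
    (hψ : ∀ (L : ℕ) [NeZero L], L₁ ≤ L → normSq (ψ L) = 1 ∧
      IsGappedGround (ham R k L) D (ψ L) ∧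
      ∀ t : ℝ, 0 < t → t ≤ δ → ∃ φ : (Site L → Fin d) → ℂ, normSq φ = 1 ∧
        IsGappedGround (ham R k L + (t : ℂ) • ham R O L) D φ) :
    ∀ η : ℝ, 0 < η → ∃ L₃ : ℕ, ∀ (L L' : ℕ) [NeZero L] [NeZero L'], L₃ ≤ L → L₃ ≤ L' →
      |(pair O (redState R (ψ L))).re - (pair O (redState R (ψ L'))).re| ≤ η := by
  intro η hη
  set s₁ := size k + δ * size O with hs₁
  have hs0 : 0 ≤ s₁ := add_nonneg (size_nonneg k) (mul_nonneg hδ.le (size_nonneg O))
  set K := 8 * (R.card : ℝ) ^ 4 * s₁ * size O ^ 2 / D ^ 2 with hK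
  have hK0 : 0 ≤ K := by rw [hK]; positivity
  set T := min δ (η / (2 * (K + 1))) with hT
  have hT0 : 0 < T := lt_min hδ (by positivity)
  have hTδ : T ≤ δ := min_le_left _ _
  have hKT : K * T ≤ η / 2 := by
    have h1 : T ≤ η / (2 * (K + 1)) := min_le_right _ _
    have h2 : K * (η / (2 * (K + 1))) ≤ η / 2 := by
      rw [mul_div_assoc', div_le_div_iff₀ (by positivity) two_pos]
      nlinarith
    exact (mul_le_mul_of_nonneg_left h1 hK0).trans h2
  set ε := η * T / (4 * (s₁ + 1)) with hε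
  have hε0 : 0 < ε := by rw [hε]; positivity
  have hsε : s₁ * ε ≤ η * T / 4 := by
    rw [hε, mul_div_assoc', div_le_div_iff₀ (by positivity) (by norm_num)]
    have : 0 ≤ η * T := by positivity
    nlinarith
  obtain ⟨L₀, hL₀⟩ := energy_close d hd R ε hε0
  have hδs : 0 ≤ δ * size O := mul_nonneg hδ.le (size_nonneg O)
  refine ⟨max L₀ L₁, fun L L' _ _ hL hL' => ?_⟩
  have main : ∀ (L : ℕ) [NeZero L], max L₀ L₁ ≤ L → ∃ φ : (Site L → Fin d) → ℂ, _ :=
    fun L _ hL => one_size R hk hO hD hT0 hTδ (ψ L) (hψ L ((le_max_right _ _).trans hL)).1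
      (hψ L ((le_max_right _ _).trans hL)).2.1 (hψ L ((le_max_right _ _).trans hL)).2.2
  obtain ⟨φ, h1, h2, h3, h4, h5⟩ := main L hL
  obtain ⟨φ', h1', h2', h3', h4', h5'⟩ := main L' hL'
  have g0 := isGround_of_gapped (ham_herm (L := L) R hk) hD.le (hψ L ((le_max_right _ _).trans hL)).2.1
  have g0' := isGround_of_gapped (ham_herm (L := L') R hk) hD.le
    (hψ L' ((le_max_right _ _).trans hL')).2.1
  have t0 := transInv_of_ground R k D (ψ L) (hψ L ((le_max_right _ _).trans hL)).2.1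
  have t0' := transInv_of_ground R k D (ψ L') (hψ L' ((le_max_right _ _).trans hL')).2.1
  have c1 := hL₀ L L' ((le_max_left _ _).trans hL) ((le_max_left _ _).trans hL') _ φ φ' h3 h1 h2
    h3' h1' h2'
  have c0 := hL₀ L L' ((le_max_left _ _).trans hL) ((le_max_left _ _).trans hL') _ (ψ L) (ψ L') g0
    (hψ L ((le_max_right _ _).trans hL)).1 t0 g0' (hψ L' ((le_max_right _ _).trans hL')).1 t0'
  have z1 : (∑ a, ∑ b, ‖(k + (T : ℂ) • O) a b‖) * ε ≤ η * T / 4 := by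
    refine le_trans ?_ hsε
    exact mul_le_mul_of_nonneg_right (size_add_le k O T δ hT0.le hTδ) hε0.le
  have z0 : (∑ a, ∑ b, ‖k a b‖) * ε ≤ η * T / 4 := by
    refine le_trans ?_ hsε
    apply mul_le_mul_of_nonneg_right _ hε0.le
    have : size k ≤ s₁ := by rw [hs₁]; linarith
    exact this
  have a1 := abs_le.mp (c1.trans z1)
  have a0 := abs_le.mp (c0.trans z0)
  rw [← hs₁, ← hK] at h5 h5'
  have hKT2 : K * T ^ 2 ≤ η / 2 * T := by nlinarith
  rw [abs_le]
  constructor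
  · have : -(η * T) ≤ ((pair O (redState R (ψ L))).re - (pair O (redState R (ψ L'))).re) * T := by
      nlinarith [a1.1, a1.2, a0.1, a0.2]
    nlinarith
  · have : ((pair O (redState R (ψ L))).re - (pair O (redState R (ψ L'))).re) * T ≤ η * T := by
      nlinarith [a1.1, a1.2, a0.1, a0.2]
    exact le_of_mul_le_mul_right this hT0

end stable

end Pool.Agent.Y665.PE
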