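import Mathlib
import Pool.Agent.Y665.PE.A2

set_option autoImplicit false
set_option linter.unusedSectionVars false

open scoped BigOperators Topology
open Finset Filter MeasureTheory
open Pool.Agent.H4R2

/-!
# The ground state energy per site as a function of the interaction
-/

namespace Pool.Agent.Y665.PE

section hermitian

variable {n : Type*} [Fintype n]

/-- The Hermitian matrix with real coordinates `x`. -/
noncomputable def herm (x : n → n → ℝ) : Matrix n n ℂ :=
  fun a b => ((x a b + x b a : ℝ) : ℂ) + ((x a b - x b a : ℝ) : ℂ) * Complex.I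

lemma herm_isHermitian (x : n → n → ℝ) : (herm x).IsHermitian := by
  ext a b
  rw [Matrix.conjTranspose_apply]
  unfold herm
  apply Complex.ext
  · simp [add_comm]
  · simp

lemma exists_herm {h : Matrix n n ℂ} (hh : h.IsHermitian) : ∃ x, herm x = h := by
  refine ⟨fun a b => ((h a b).re + (h a b).im) / 2, ?_⟩
  have h1 : ∀ a b, (h b a).re = (h a b).re ∧ (h b a).im = -(h a b).im := by
    intro a b
    have := hh.apply b a
    rw [← this]
    simp
  ext a b
  unfold herm
  obtain ⟨h2, h3⟩ := h1 a b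
  apply Complex.ext
  · simp [h2, h3]; ring
  · simp [h2, h3]; ring

lemma pair_herm_add (x y : n → n → ℝ) (ρ : Matrix n n ℂ) :
    pair (herm (x + y)) ρ = pair (herm x) ρ + pair (herm y) ρ := by
  unfold pair
  rw [← Finset.sum_add_distrib]
  refine Finset.sum_congr rfl fun a _ => ?_
  rw [← Finset.sum_add_distrib]
  refine Finset.sum_congr rfl fun b _ => ?_
  unfold herm
  simp only [Pi.add_apply]
  push_cast
  ring

lemma pair_herm_smul (c : ℝ) (x : n → n → ℝ) (ρ : Matrix n n ℂ) :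
    pair (herm (c • x)) ρ = (c : ℂ) * pair (herm x) ρ := by
  unfold pair
  rw [Finset.mul_sum]
  refine Finset.sum_congr rfl fun a _ => ?_
  rw [Finset.mul_sum]
  refine Finset.sum_congr rfl fun b _ => ?_
  unfold herm
  simp only [Pi.smul_apply, smul_eq_mul]
  push_cast
  ring

/-- the energy of `ρ` as a linear function of the interaction -/
noncomputable def lin (ρ : Matrix n n ℂ) : (n → n → ℝ) →ₗ[ℝ] ℝ where
  toFun x := (pair (herm x) ρ).re
  map_add' x y := by rw [pair_herm_add, Complex.add_re]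
  map_smul' c x := by
    rw [pair_herm_smul, Complex.re_ofReal_mul]; rfl

lemma lin_apply (ρ : Matrix n n ℂ) (x : n → n → ℝ) : lin ρ x = (pair (herm x) ρ).re := rfl

lemma norm_herm_le (x : n → n → ℝ) (a b : n) : ‖herm x a b‖ ≤ 4 * ‖x‖ := by
  have h1 : ∀ a b, |x a b| ≤ ‖x‖ := fun a b =>
    (norm_le_pi_norm (x a) b).trans (norm_le_pi_norm x a)
  unfold herm
  refine (norm_add_le _ _).trans ?_
  rw [norm_mul, Complex.norm_I, mul_one, Complex.norm_real, Complex.norm_real]
  have h2 := norm_add_le (x a b) (x b a)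
  have h3 := norm_sub_le (x a b) (x b a)
  have h4 := h1 a b
  have h5 := h1 b a
  rw [← Real.norm_eq_abs] at h4 h5
  linarith

lemma abs_lin_le (ρ : Matrix n n ℂ) (hρ : ∀ a b, ‖ρ a b‖ ≤ 2) (x : n → n → ℝ) :
    |lin ρ x| ≤ (Fintype.card n : ℝ) ^ 2 * 8 * ‖x‖ := by
  rw [lin_apply]
  refine (Complex.abs_re_le_norm _).trans ?_
  unfold pair
  refine (norm_sum_le _ _).trans ?_
  calc ∑ a, ‖∑ b, herm x a b * ρ b a‖ ≤ ∑ _a : n, ∑ _b : n, (4 * ‖x‖ * 2) := by
        refine Finset.sum_le_sum fun a _ => (norm_sum_le _ _).trans ?_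
        refine Finset.sum_le_sum fun b _ => ?_
        rw [norm_mul]
        exact mul_le_mul (norm_herm_le x a b) (hρ b a) (norm_nonneg _) (by positivity)
    _ = (Fintype.card n : ℝ) ^ 2 * 8 * ‖x‖ := by
        simp only [Finset.sum_const, Finset.card_univ, nsmul_eq_mul]
        ring

/-- the least energy over a set of states -/
noncomputable def low (K : Set (Matrix n n ℂ)) (x : n → n → ℝ) : ℝ :=
  sInf ((fun ρ => lin ρ x) '' K)

lemma low_le {K : Set (Matrix n n ℂ)} (hK : ∀ ρ ∈ K, ∀ a b, ‖ρ a b‖ ≤ 2) (x : n → n → ℝ)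
    {ρ : Matrix n n ℂ} (hρ : ρ ∈ K) : low K x ≤ lin ρ x := by
  unfold low
  apply csInf_le
  · refine ⟨-((Fintype.card n : ℝ) ^ 2 * 8 * ‖x‖), ?_⟩
    rintro _ ⟨σ, hσ, rfl⟩
    exact (abs_le.mp (abs_lin_le σ (hK σ hσ) x)).1
  · exact ⟨ρ, hρ, rfl⟩

lemma low_lipschitz {K : Set (Matrix n n ℂ)} (hK : ∀ ρ ∈ K, ∀ a b, ‖ρ a b‖ ≤ 2)
    (hne : K.Nonempty) :
    LipschitzWith (Real.toNNReal ((Fintype.card n : ℝ) ^ 2 * 8)) (low K) := by
  apply LipschitzWith.of_le_add_mul
  intro x y
  rw [Real.coe_toNNReal _ (by positivity)]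
  rw [← sub_le_iff_le_add]
  unfold low
  apply le_csInf (hne.image _)
  rintro _ ⟨ρ, hρ, rfl⟩
  rw [sub_le_iff_le_add]
  refine (low_le hK x hρ).trans ?_
  have h1 : lin ρ x = lin ρ y + lin ρ (x - y) := by
    rw [map_sub]; ring
  rw [h1, dist_eq_norm]
  have := (abs_le.mp (abs_lin_le ρ (hK ρ hρ) (x - y))).2
  linarith

/-- at a point of differentiability the state of lowest energy is unique -/
lemma unique_min {K : Set (Matrix n n ℂ)} (hK : ∀ ρ ∈ K, ∀ a b, ‖ρ a b‖ ≤ 2)
    (hH : ∀ ρ ∈ K, ρ.IsHermitian) {x : n → n → ℝ} (hd : DifferentiableAt ℝ (low K) x)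
    {ρ σ : Matrix n n ℂ} (hρ : ρ ∈ K) (hσ : σ ∈ K) (h1 : ∀ τ ∈ K, lin ρ x ≤ lin τ x)
    (h2 : ∀ τ ∈ K, lin σ x ≤ lin τ x) : ρ = σ := by
  have key : ∀ ρ ∈ K, (∀ τ ∈ K, lin ρ x ≤ lin τ x) → ∀ y, lin ρ y = fderiv ℝ (low K) x y := by
    intro ρ hρ h1 y
    have hne : K.Nonempty := ⟨ρ, hρ⟩
    have h3 : low K x = lin ρ x := by
      apply le_antisymm (low_le hK x hρ)
      unfold low
      apply le_csInf (hne.image _)
      rintro _ ⟨τ, hτ, rfl⟩
      exact h1 τ hτ
    have h4 : IsLocalMin (fun z => lin ρ z - low K z) x := by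
      apply Filter.Eventually.of_forall
      intro z
      have := low_le hK z hρ
      simp only
      rw [h3]
      linarith
    have h5 : HasFDerivAt (fun z => lin ρ z - low K z)
        (LinearMap.toContinuousLinearMap (lin ρ) - fderiv ℝ (low K) x) x := by
      apply HasFDerivAt.sub
      · exact (LinearMap.toContinuousLinearMap (lin ρ)).hasFDerivAt
      · exact hd.hasFDerivAt
    have h6 := h4.hasFDerivAt_eq_zero h5
    have h7 := DFunLike.congr_fun h6 y
    simp only [sub_apply, zero_apply] at h7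
    have h8 : (LinearMap.toContinuousLinearMap (lin ρ)) y = lin ρ y := rfl
    rw [h8] at h7
    linarith
  have hsub : (ρ - σ).IsHermitian := (hH ρ hρ).sub (hH σ hσ)
  obtain ⟨y, hy⟩ := exists_herm hsub
  have h3 : lin ρ y - lin σ y = 0 := by
    rw [key ρ hρ h1 y, key σ hσ h2 y, sub_self]
  have h4 : lin ρ y - lin σ y = ∑ a, ∑ b, ‖(ρ - σ) a b‖ ^ 2 := by
    rw [lin_apply, lin_apply, ← Complex.sub_re, hy]
    have h5 : pair (ρ - σ) ρ - pair (ρ - σ) σ = ((∑ a, ∑ b, ‖(ρ - σ) a b‖ ^ 2 : ℝ) : ℂ) := by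
      unfold pair
      push_cast
      rw [← Finset.sum_sub_distrib]
      refine Finset.sum_congr rfl fun a _ => ?_
      rw [← Finset.sum_sub_distrib]
      refine Finset.sum_congr rfl fun b _ => ?_
      have h6 : (ρ - σ) b a = (starRingEnd ℂ) ((ρ - σ) a b) := (hsub.apply b a).symm
      have h7 : (ρ - σ) a b * ρ b a - (ρ - σ) a b * σ b a = (ρ - σ) a b * (ρ - σ) b a := by
        rw [Matrix.sub_apply ρ σ b a]; ring
      rw [h7, h6, Complex.mul_conj, Complex.normSq_eq_norm_sq]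
      push_cast
      rfl
    rw [h5, Complex.ofReal_re]
  rw [h3] at h4
  have h5 : ∀ a ∈ Finset.univ, ∑ b, ‖(ρ - σ) a b‖ ^ 2 = 0 :=
    (Finset.sum_eq_zero_iff_of_nonneg (fun a _ => Finset.sum_nonneg fun b _ => sq_nonneg _)).mp
      h4.symm
  ext a b
  have h6 := (Finset.sum_eq_zero_iff_of_nonneg (fun b _ => sq_nonneg _)).mp
    (h5 a (Finset.mem_univ _)) b (Finset.mem_univ _)
  have h7 : (ρ - σ) a b = 0 := by
    rw [← norm_eq_zero]
    exact pow_eq_zero_iff (two_ne_zero) |>.mp h6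
  rw [Matrix.sub_apply] at h7
  exact sub_eq_zero.mp h7

end hermitian

section limits

variable {d : ℕ}

/-- The states on `R` which are limits of reduced states of translation invariant vectors. -/
def limStates (d : ℕ) (R : Finset (ℤ × ℤ)) : Set (Matrix (R → Fin d) (R → Fin d) ℂ) :=
  {ρ | ∀ ε : ℝ, 0 < ε → ∃ L₀ : ℕ, ∀ (L : ℕ) [NeZero L], L₀ ≤ L →
    ∃ φ : (Site L → Fin d) → ℂ, normSq φ = 1 ∧ TransInv φ ∧
      ∀ a b, ‖redState R φ a b - ρ a b‖ ≤ ε}

lemma redState_bound {L : ℕ} [NeZero L] (R : Finset (ℤ × ℤ)) (φ : (Site L → Fin d) → ℂ)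
    (hφ : normSq φ = 1) (a b : R → Fin d) : ‖redState R φ a b‖ ≤ 1 := by
  unfold redState
  rw [hφ]
  simp only [Complex.ofReal_one, inv_one, one_smul]
  exact (rdm_bound _ φ a b).trans hφ.le

lemma redState_herm {L : ℕ} [NeZero L] (R : Finset (ℤ × ℤ)) (φ : (Site L → Fin d) → ℂ) :
    (redState R φ).IsHermitian := by
  classical
  ext a b
  rw [Matrix.conjTranspose_apply]
  unfold redState
  simp only [Matrix.smul_apply, smul_eq_mul]
  rw [star_mul', rdm_apply, rdm_apply]
  have h1 : star (((normSq φ : ℝ) : ℂ)⁻¹) = ((normSq φ : ℝ) : ℂ)⁻¹ := by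
    rw [← Complex.ofReal_inv]; exact Complex.conj_ofReal _
  rw [h1]
  congr 1
  calc star (∑ s : Site L → Fin d, ∑ t : Site L → Fin d,
        if Ker (fun x : R => toTorus L x) b a s t then φ s * (starRingEnd ℂ) (φ t) else 0)
      = ∑ s : Site L → Fin d, ∑ t : Site L → Fin d,
        star (if Ker (fun x : R => toTorus L x) b a s t then φ s * (starRingEnd ℂ) (φ t) else 0) := by
        simp only [star_sum]
    _ = ∑ t : Site L → Fin d, ∑ s : Site L → Fin d,
        star (if Ker (fun x : R => toTorus L x) b a s t then φ s * (starRingEnd ℂ) (φ t) else 0) :=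
        Finset.sum_comm
    _ = _ := by
        refine Finset.sum_congr rfl fun s _ => Finset.sum_congr rfl fun t _ => ?_
        have h2 : Ker (fun x : R => toTorus L x) b a t s ↔
            Ker (fun x : R => toTorus L x) a b s t := by
          unfold Ker
          constructor
          · rintro ⟨h1, h2, h3⟩
            exact ⟨h2, h1, fun v hv => (h3 v hv).symm⟩
          · rintro ⟨h1, h2, h3⟩
            exact ⟨h2, h1, fun v hv => (h3 v hv).symm⟩
        by_cases hK : Ker (fun x : R => toTorus L x) a b s t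
        · rw [if_pos hK, if_pos (h2.mpr hK)]
          simp [mul_comm]
        · rw [if_neg hK, if_neg (fun h => hK (h2.mp h)), star_zero]

lemma limStates_bound (R : Finset (ℤ × ℤ)) (ρ : Matrix (R → Fin d) (R → Fin d) ℂ)
    (hρ : ρ ∈ limStates d R) (a b : R → Fin d) : ‖ρ a b‖ ≤ 2 := by
  obtain ⟨L₀, hL₀⟩ := hρ 1 one_pos
  have : NeZero (L₀ + 1) := ⟨by omega⟩
  obtain ⟨φ, h1, _, h2⟩ := hL₀ (L₀ + 1) (by omega)
  have h3 := h2 a b
  have h4 := redState_bound R φ h1 a b
  have h5 : ρ a b = redState R φ a b - (redState R φ a b - ρ a b) := by ring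
  rw [h5]
  refine (norm_sub_le _ _).trans ?_
  linarith

lemma limStates_herm (R : Finset (ℤ × ℤ)) (ρ : Matrix (R → Fin d) (R → Fin d) ℂ)
    (hρ : ρ ∈ limStates d R) : ρ.IsHermitian := by
  ext a b
  rw [Matrix.conjTranspose_apply]
  apply eq_of_forall_dist_le
  intro ε hε
  obtain ⟨L₀, hL₀⟩ := hρ (ε / 2) (by positivity)
  have : NeZero (L₀ + 1) := ⟨by omega⟩
  obtain ⟨φ, h1, _, h2⟩ := hL₀ (L₀ + 1) (by omega)
  have h3 := h2 a b
  have h4 := h2 b a
  have h5 : star (redState R φ b a) = redState R φ a b := (redState_herm R φ).apply a b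
  have h6 : ‖star (redState R φ b a) - star (ρ b a)‖ ≤ ε / 2 := by
    rw [← star_sub, norm_star]; exact h4
  rw [h5] at h6
  rw [dist_eq_norm]
  have h7 : star (ρ b a) - ρ a b = (redState R φ a b - ρ a b) -
      (redState R φ a b - star (ρ b a)) := by ring
  rw [h7]
  refine (norm_sub_le _ _).trans ?_
  linarith

lemma limStates_nonempty (hd : 2 ≤ d) (R : Finset (ℤ × ℤ)) : (limStates d R).Nonempty := by
  classical
  let z : Fin d := ⟨0, by omega⟩
  refine ⟨fun a b => if a = (fun _ => z) ∧ b = (fun _ => z) then 1 else 0, ?_⟩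
  intro ε hε
  refine ⟨0, fun L _ _ => ⟨fun s => if s = (fun _ => z) then 1 else 0, ?_, ?_, ?_⟩⟩
  · unfold normSq
    rw [Finset.sum_eq_single (fun _ => z)]
    · simp
    · intro s _ hs
      simp [hs]
    · intro h; exact absurd (Finset.mem_univ _) h
  · intro u
    refine ⟨1, ?_⟩
    rw [one_smul]
    funext s
    have : ((fun v => s (v + u)) = (fun _ => z)) ↔ (s = fun _ => z) := by
      constructor
      · intro h
        funext v
        have := congrFun h (v - u)
        simpa using this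
      · intro h
        rw [h]
    simp only [this]
  · intro a b
    have hN : normSq (fun s : Site L → Fin d => if s = (fun _ => z) then (1 : ℂ) else 0) = 1 := by
      unfold normSq
      rw [Finset.sum_eq_single (fun _ => z)]
      · simp
      · intro s _ hs
        simp [hs]
      · intro h; exact absurd (Finset.mem_univ _) h
    have h1 : redState R (fun s : Site L → Fin d => if s = (fun _ => z) then (1 : ℂ) else 0) a b =
        if a = (fun _ => z) ∧ b = (fun _ => z) then 1 else 0 := by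
      unfold redState
      rw [hN, Matrix.smul_apply, rdm_apply]
      simp only [Complex.ofReal_one, inv_one, one_smul]
      rw [Finset.sum_eq_single (fun _ => z), Finset.sum_eq_single (fun _ => z)]
      · have h2 : Ker (fun x : R => toTorus L x) a b (fun _ => z) (fun _ => z) ↔
            (a = (fun _ => z) ∧ b = (fun _ => z)) := by
          unfold Ker
          constructor
          · rintro ⟨h1, h2, _⟩
            exact ⟨funext fun x => (h1 x).symm, funext fun x => (h2 x).symm⟩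
          · rintro ⟨h1, h2⟩
            exact ⟨fun x => by rw [h1], fun x => by rw [h2], fun _ _ => rfl⟩
        simp [h2]
      · intro t _ ht
        simp [ht]
      · intro h; exact absurd (Finset.mem_univ _) h
      · intro s _ hs
        apply Finset.sum_eq_zero
        intro t _
        simp [hs]
      · intro h; exact absurd (Finset.mem_univ _) h
    rw [h1]
    simp [hε.le]

/-- cluster points of the reduced states of ground states -/
lemma cluster_mem (hd : 2 ≤ d) (R : Finset (ℤ × ℤ)) {h : Matrix (R → Fin d) (R → Fin d) ℂ}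
    (ψ : ∀ (L : ℕ) [NeZero L], (Site L → Fin d) → ℂ) (L₁ : ℕ)
    (hψ : ∀ (L : ℕ) [NeZero L], L₁ ≤ L → normSq (ψ L) = 1 ∧ TransInv (ψ L) ∧
      IsGround (ham R h L) (ψ L))
    {ρ : Matrix (R → Fin d) (R → Fin d) ℂ}
    (hρ : ∀ ε : ℝ, 0 < ε → ∀ N : ℕ, ∃ (L : ℕ) (_ : NeZero L), N ≤ L ∧
      ∀ a b, ‖redState R (ψ L) a b - ρ a b‖ ≤ ε) :
    ρ ∈ limStates d R ∧ ∀ σ ∈ limStates d R, (pair h ρ).re ≤ (pair h σ).re := by
  constructor
  · intro ε hε
    obtain ⟨L₀, hL₀⟩ := transfer d hd R (ε / 2) (by positivity)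
    obtain ⟨L, _, hL, h1⟩ := hρ (ε / 2) (by positivity) (max L₀ L₁)
    obtain ⟨h2, h3, _⟩ := hψ L ((le_max_right _ _).trans hL)
    refine ⟨L₀, fun L' _ hL' => ?_⟩
    obtain ⟨φ, h4, h5, h6⟩ := hL₀ L L' ((le_max_left _ _).trans hL) hL' (ψ L) h2 h3
    refine ⟨φ, h4, h5, fun a b => ?_⟩
    have h7 : redState R φ a b - ρ a b = (redState R φ a b - redState R (ψ L) a b) +
        (redState R (ψ L) a b - ρ a b) := by ring
    rw [h7]
    refine (norm_add_le _ _).trans ?_
    linarith [h6 a b, h1 a b]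
  · intro σ hσ
    set C := ∑ a, ∑ b, ‖h a b‖ with hC
    have hC0 : 0 ≤ C := Finset.sum_nonneg fun a _ => Finset.sum_nonneg fun b _ => norm_nonneg _
    apply le_of_forall_pos_le_add
    intro ε hε
    have hε' : 0 < ε / (2 * (C + 1)) := by positivity
    obtain ⟨L₀, hL₀⟩ := hσ _ hε'
    obtain ⟨L, _, hL, h1⟩ := hρ _ hε' (max L₀ L₁)
    obtain ⟨h2, h3, h4⟩ := hψ L ((le_max_right _ _).trans hL)
    obtain ⟨φ, h5, h6, h7⟩ := hL₀ L ((le_max_left _ _).trans hL)
    have e1 := abs_le.mp (pair_le h _ _ _ h1)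
    have e2 := abs_le.mp (pair_le h _ _ _ h7)
    have e3 := ground_pair R h4 h2 h3 h5 h6
    have e4 : C * (ε / (2 * (C + 1))) ≤ ε / 2 := by
      rw [mul_div_assoc', div_le_div_iff₀ (by positivity) two_pos]
      nlinarith
    linarith [e1.1, e1.2, e2.1, e2.2]

/-- **Convergence of the reduced states at points of differentiability.** -/
theorem conv_of_diff (hd : 2 ≤ d) (R : Finset (ℤ × ℤ)) {x : (R → Fin d) → (R → Fin d) → ℝ}
    (hx : DifferentiableAt ℝ (low (limStates d R)) x)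
    (ψ : ∀ (L : ℕ) [NeZero L], (Site L → Fin d) → ℂ) (L₁ : ℕ)
    (hψ : ∀ (L : ℕ) [NeZero L], L₁ ≤ L → normSq (ψ L) = 1 ∧ TransInv (ψ L) ∧
      IsGround (ham R (herm x) L) (ψ L)) :
    ∀ δ : ℝ, 0 < δ → ∃ L₂ : ℕ, ∀ (L L' : ℕ) [NeZero L] [NeZero L'], L₂ ≤ L → L₂ ≤ L' →
      ∀ a b, ‖redState R (ψ L) a b - redState R (ψ L') a b‖ ≤ δ := by
  classical
  let F : ℕ → (R → Fin d) → (R → Fin d) → ℂ := fun n => redState R (ψ (n + 1))
  let S : Set ((R → Fin d) → (R → Fin d) → ℂ) :=
    Set.pi Set.univ fun _ => Set.pi Set.univ fun _ => Metric.closedBall 0 1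
  have hS : IsCompact S := isCompact_univ_pi fun _ => isCompact_univ_pi fun _ =>
    isCompact_closedBall 0 1
  have hF : ∀ᶠ n in atTop, F n ∈ S := by
    filter_upwards [eventually_ge_atTop L₁] with n hn
    intro a _ b _
    rw [Metric.mem_closedBall, dist_zero_right]
    exact redState_bound R _ (hψ (n + 1) (by omega)).1 a b
  have hcl : ∀ ρ : (R → Fin d) → (R → Fin d) → ℂ, MapClusterPt ρ atTop F →
      ∀ ε : ℝ, 0 < ε → ∀ N : ℕ, ∃ (L : ℕ) (_ : NeZero L), N ≤ L ∧
        ∀ a b, ‖redState R (ψ L) a b - ρ a b‖ ≤ ε := by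
    intro ρ hρ ε hε N
    have h1 : ∃ᶠ n in atTop, F n ∈ Metric.closedBall ρ ε := by
      rw [mapClusterPt_iff_frequently] at hρ
      exact hρ _ (Metric.closedBall_mem_nhds ρ hε)
    obtain ⟨n, hn, h2⟩ := (h1.and_eventually (eventually_ge_atTop N)).exists
    refine ⟨n + 1, inferInstance, by omega, fun a b => ?_⟩
    have h3 : dist (F n) ρ ≤ ε := hn
    rw [dist_eq_norm] at h3
    exact ((norm_le_pi_norm ((F n - ρ) a) b).trans (norm_le_pi_norm (F n - ρ) a)).trans h3
  obtain ⟨ρ, _, hρ⟩ := hS.exists_mapClusterPt_of_frequently hF.frequently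
  have huniq : ∀ σ, MapClusterPt σ atTop F → σ = ρ := by
    intro σ hσ
    obtain ⟨h1, h2⟩ := cluster_mem hd R ψ L₁ hψ (hcl ρ hρ)
    obtain ⟨h3, h4⟩ := cluster_mem hd R ψ L₁ hψ (hcl σ hσ)
    exact unique_min (limStates_bound R) (limStates_herm R) hx h3 h1 h4 h2
  have hlim : Tendsto F atTop (𝓝 ρ) :=
    hS.tendsto_nhds_of_unique_mapClusterPt hF (fun σ _ h => huniq σ h)
  intro δ hδ
  obtain ⟨N, hN⟩ := Metric.tendsto_atTop.mp hlim (δ / 2) (by positivity)
  have key : ∀ (L : ℕ) [NeZero L], N + 1 ≤ L → ∀ a b, ‖redState R (ψ L) a b - ρ a b‖ ≤ δ / 2 := by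
    intro L _ hL a b
    obtain ⟨n, rfl⟩ : ∃ n, L = n + 1 := ⟨L - 1, by omega⟩
    have h3 := (hN n (by omega)).le
    rw [dist_eq_norm] at h3
    exact ((norm_le_pi_norm ((F n - ρ) a) b).trans (norm_le_pi_norm (F n - ρ) a)).trans h3
  refine ⟨N + 1, fun L L' _ _ hL hL' a b => ?_⟩
  have h1 := key L hL a b
  have h2 := key L' hL' a b
  have h3 : redState R (ψ L) a b - redState R (ψ L') a b =
      (redState R (ψ L) a b - ρ a b) - (redState R (ψ L') a b - ρ a b) := by ring
  rw [h3]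
  refine (norm_sub_le _ _).trans ?_
  linarith

theorem ae_diff (hd : 2 ≤ d) (R : Finset (ℤ × ℤ)) :
    ∀ᵐ x : (R → Fin d) → (R → Fin d) → ℝ, DifferentiableAt ℝ (low (limStates d R)) x :=
  (low_lipschitz (limStates_bound R) (limStates_nonempty hd R)).ae_differentiableAt

end limits

end Pool.Agent.Y665.PE
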