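import Mathlib
import Pool.Agent.Y665.PE.B1
import Pool.Agent.Y665.PE.A3

set_option autoImplicit false
set_option linter.unusedSectionVars false

open scoped BigOperators Topology
open Finset Filter
open Pool.Agent.H4R2

/-!
# Enlarging the region
-/

namespace Pool.Agent.Y665.PE

section ext

variable {d : ℕ}

open Classical in
/-- The interaction `h` on `B`, as an interaction on the larger region `R`. -/
noncomputable def enl {B R : Finset (ℤ × ℤ)} (hBR : B ⊆ R)
    (h : Matrix (B → Fin d) (B → Fin d) ℂ) : Matrix (R → Fin d) (R → Fin d) ℂ := fun a b =>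
  if ∀ x : R, (x : ℤ × ℤ) ∉ B → a x = b x then
    h (fun y => a ⟨y, hBR y.2⟩) (fun y => b ⟨y, hBR y.2⟩) else 0

lemma enl_herm {B R : Finset (ℤ × ℤ)} (hBR : B ⊆ R) {h : Matrix (B → Fin d) (B → Fin d) ℂ}
    (hh : h.IsHermitian) : (enl hBR h).IsHermitian := by
  classical
  ext a b
  rw [Matrix.conjTranspose_apply]
  unfold enl
  by_cases hc : ∀ x : R, (x : ℤ × ℤ) ∉ B → a x = b x
  · rw [if_pos hc, if_pos (fun x hx => (hc x hx).symm)]
    exact hh.apply _ _
  · rw [if_neg hc, if_neg (fun h => hc (fun x hx => (h x hx).symm)), star_zero]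

lemma toTorus_inj (R : Finset (ℤ × ℤ)) (L : ℕ) (hL : 2 * rad R + 1 ≤ L) (x y : ℤ × ℤ)
    (hx : x ∈ R) (hy : y ∈ R) (h : toTorus L x = toTorus L y) : x = y := by
  have hr : ∀ z ∈ R, |z.1| ≤ (rad R : ℕ) ∧ |z.2| ≤ (rad R : ℕ) := by
    intro z hz
    have h1 : max z.1.natAbs z.2.natAbs ≤ rad R :=
      Finset.le_sup (f := fun x : ℤ × ℤ => max x.1.natAbs x.2.natAbs) hz
    constructor
    · rw [Int.abs_eq_natAbs]; exact_mod_cast (le_max_left _ _).trans h1
    · rw [Int.abs_eq_natAbs]; exact_mod_cast (le_max_right _ _).trans h1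
  have key : ∀ a b : ℤ, |a| ≤ (rad R : ℕ) → |b| ≤ (rad R : ℕ) → (a : ZMod L) = (b : ZMod L) →
      a = b := by
    intro a b ha hb hab
    rw [ZMod.intCast_eq_intCast_iff_dvd_sub] at hab
    have h1 : |b - a| < (L : ℤ) := by
      rw [abs_le] at ha hb
      rw [abs_lt]
      constructor <;> omega
    have h2 := Int.eq_zero_of_abs_lt_dvd hab h1
    omega
  obtain ⟨h1, h2⟩ := hr x hx
  obtain ⟨h3, h4⟩ := hr y hy
  apply Prod.ext
  · exact key _ _ h1 h3 (congrArg Prod.fst h)
  · exact key _ _ h2 h4 (congrArg Prod.snd h)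

lemma term_enl {B R : Finset (ℤ × ℤ)} (hBR : B ⊆ R) (h : Matrix (B → Fin d) (B → Fin d) ℂ)
    {L : ℕ} [NeZero L] (hL : 2 * rad R + 1 ≤ L) (u : Site L) :
    term R (enl hBR h) L u = term B h L u := by
  classical
  ext s t
  unfold term enl
  have hiff : ((∀ v, (∀ x : R, toTorus L x + u ≠ v) → s v = t v) ∧
      (∀ x : R, (x : ℤ × ℤ) ∉ B → s (toTorus L x + u) = t (toTorus L x + u))) ↔
      (∀ v, (∀ x : B, toTorus L x + u ≠ v) → s v = t v) := by
    constructor
    · rintro ⟨h1, h2⟩ v hv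
      by_cases hv2 : ∃ x : R, toTorus L x + u = v
      · obtain ⟨x, rfl⟩ := hv2
        apply h2
        intro hx
        exact hv ⟨x, hx⟩ rfl
      · push Not at hv2
        exact h1 v hv2
    · intro h1
      refine ⟨fun v hv => h1 v fun x => hv ⟨x, hBR x.2⟩, fun x hx => h1 _ fun y hy => ?_⟩
      have h2 := toTorus_inj R L hL y x (hBR y.2) x.2 (add_right_cancel hy)
      apply hx
      rw [← h2]
      exact y.2
  by_cases h1 : ∀ v, (∀ x : R, toTorus L x + u ≠ v) → s v = t v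
  · rw [if_pos h1]
    by_cases h2 : ∀ x : R, (x : ℤ × ℤ) ∉ B → s (toTorus L x + u) = t (toTorus L x + u)
    · rw [if_pos h2, if_pos (hiff.mp ⟨h1, h2⟩)]
    · rw [if_neg h2, if_neg (fun h => h2 (hiff.mpr h).2)]
  · rw [if_neg h1, if_neg (fun h => h1 (hiff.mpr h).1)]

lemma ham_enl {B R : Finset (ℤ × ℤ)} (hBR : B ⊆ R) (h : Matrix (B → Fin d) (B → Fin d) ℂ)
    {L : ℕ} [NeZero L] (hL : 2 * rad R + 1 ≤ L) : ham R (enl hBR h) L = ham B h L := by
  unfold ham
  exact Finset.sum_congr rfl fun u _ => term_enl hBR h hL u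

lemma pair_enl {B R : Finset (ℤ × ℤ)} (hBR : B ⊆ R) (h : Matrix (B → Fin d) (B → Fin d) ℂ)
    {L : ℕ} [NeZero L] (hL : 2 * rad R + 1 ≤ L) (φ : (Site L → Fin d) → ℂ) (hφ : normSq φ = 1)
    (hT : TransInv φ) : pair (enl hBR h) (redState R φ) = pair h (redState B φ) := by
  have h1 := qf_ham R (enl hBR h) φ hφ hT
  have h2 := qf_ham B h φ hφ hT
  rw [ham_enl hBR h hL, h2] at h1
  have hL0 : ((L : ℂ) ^ 2) ≠ 0 := pow_ne_zero 2 (by exact_mod_cast NeZero.ne L)
  exact (mul_left_cancel₀ hL0 h1).symm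

/-- matrix units -/
lemma pair_single {n : Type*} [Fintype n] [DecidableEq n] (a b : n) (c : ℂ) (ρ : Matrix n n ℂ) :
    pair (Matrix.single a b c) ρ = c * ρ b a := by
  unfold pair
  rw [Finset.sum_eq_single a, Finset.sum_eq_single b]
  · rw [Matrix.single_apply_same]
  · intro b' _ hb
    rw [Matrix.single_apply_of_ne _ _ _ _ _ (by rintro ⟨_, h⟩; exact hb h.symm), zero_mul]
  · intro hh; exact absurd (Finset.mem_univ _) hh
  · intro a' _ ha
    apply Finset.sum_eq_zero
    intro b' _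
    rw [Matrix.single_apply_of_ne _ _ _ _ _ (by rintro ⟨h, _⟩; exact ha h.symm), zero_mul]
  · intro hh; exact absurd (Finset.mem_univ _) hh

lemma pair_add {n : Type*} [Fintype n] (h k ρ : Matrix n n ℂ) :
    pair (h + k) ρ = pair h ρ + pair k ρ := by
  unfold pair
  rw [← Finset.sum_add_distrib]
  refine Finset.sum_congr rfl fun a _ => ?_
  rw [← Finset.sum_add_distrib]
  refine Finset.sum_congr rfl fun b _ => ?_
  rw [Matrix.add_apply, add_mul]

lemma pair_norm_le {n : Type*} [Fintype n] (k ρ ρ' : Matrix n n ℂ) (ε : ℝ)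
    (h : ∀ a b, ‖ρ a b - ρ' a b‖ ≤ ε) : ‖pair k ρ - pair k ρ'‖ ≤ size k * ε := by
  have h1 : pair k ρ - pair k ρ' = ∑ a, ∑ b, k a b * (ρ b a - ρ' b a) := by
    unfold pair
    rw [← Finset.sum_sub_distrib]
    refine Finset.sum_congr rfl fun a _ => ?_
    rw [← Finset.sum_sub_distrib]
    refine Finset.sum_congr rfl fun b _ => ?_
    ring
  rw [h1]
  refine (norm_sum_le _ _).trans ?_
  unfold size
  rw [Finset.sum_mul]
  refine Finset.sum_le_sum fun a _ => (norm_sum_le _ _).trans ?_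
  rw [Finset.sum_mul]
  refine Finset.sum_le_sum fun b _ => ?_
  rw [norm_mul]
  exact mul_le_mul_of_nonneg_left (h b a) (norm_nonneg _)

/-- Cauchy families of reduced states -/
def Cauch (R : Finset (ℤ × ℤ)) (ψ : ∀ (L : ℕ) [NeZero L], (Site L → Fin d) → ℂ) : Prop :=
  ∀ δ : ℝ, 0 < δ → ∃ L₂ : ℕ, ∀ (L L' : ℕ) [NeZero L] [NeZero L'], L₂ ≤ L → L₂ ≤ L' →
    ∀ a b, ‖redState R (ψ L) a b - redState R (ψ L') a b‖ ≤ δ

lemma cauch_mono {B R : Finset (ℤ × ℤ)} (hBR : B ⊆ R)
    (ψ : ∀ (L : ℕ) [NeZero L], (Site L → Fin d) → ℂ) (L₁ : ℕ)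
    (hψ : ∀ (L : ℕ) [NeZero L], L₁ ≤ L → normSq (ψ L) = 1 ∧ TransInv (ψ L))
    (h : Cauch R ψ) : Cauch B ψ := by
  classical
  intro δ hδ
  set C : ℝ := ∑ a : B → Fin d, ∑ b : B → Fin d, size (enl hBR (Matrix.single a b (1 : ℂ))) with hC
  have hC0 : 0 ≤ C := Finset.sum_nonneg fun _ _ => Finset.sum_nonneg fun _ _ => size_nonneg _
  obtain ⟨L₂, hL₂⟩ := h (δ / (C + 1)) (by positivity)
  refine ⟨max L₂ (max L₁ (2 * rad R + 1)), fun L L' _ _ hL hL' a b => ?_⟩
  have e : ∀ (L : ℕ) [NeZero L], max L₂ (max L₁ (2 * rad R + 1)) ≤ L →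
      redState B (ψ L) a b = pair (enl hBR (Matrix.single b a (1 : ℂ))) (redState R (ψ L)) := by
    intro L _ hL
    have h1 : L₁ ≤ L := by omega
    have h2 : 2 * rad R + 1 ≤ L := by omega
    rw [pair_enl hBR _ h2 (ψ L) (hψ L h1).1 (hψ L h1).2, pair_single, one_mul]
  rw [e L hL, e L' hL']
  refine (pair_norm_le _ _ _ _ (hL₂ L L' (by omega) (by omega))).trans ?_
  have h3 : size (enl hBR (Matrix.single b a (1 : ℂ))) ≤ C := by
    rw [hC]
    refine le_trans ?_ (Finset.single_le_sum (f := fun b : B → Fin d => ∑ a : B → Fin d,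
      size (enl hBR (Matrix.single b a (1 : ℂ))))
      (fun _ _ => Finset.sum_nonneg fun _ _ => size_nonneg _) (Finset.mem_univ b))
    exact Finset.single_le_sum (f := fun a : B → Fin d => size (enl hBR (Matrix.single b a (1 : ℂ))))
      (fun _ _ => size_nonneg _) (Finset.mem_univ a)
  rw [mul_div_assoc', div_le_iff₀ (by positivity)]
  nlinarith

/-- expectations of Hermitian operators determine the entries -/
lemma cauch_of_pair {R : Finset (ℤ × ℤ)}
    (ψ : ∀ (L : ℕ) [NeZero L], (Site L → Fin d) → ℂ)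
    (h : ∀ O : Matrix (R → Fin d) (R → Fin d) ℂ, O.IsHermitian → ∀ η : ℝ, 0 < η → ∃ L₃ : ℕ,
      ∀ (L L' : ℕ) [NeZero L] [NeZero L'], L₃ ≤ L → L₃ ≤ L' →
      |(pair O (redState R (ψ L))).re - (pair O (redState R (ψ L'))).re| ≤ η) : Cauch R ψ := by
  classical
  intro δ hδ
  have key : ∀ p : (R → Fin d) × (R → Fin d), ∃ L₂ : ℕ, ∀ (L L' : ℕ) [NeZero L] [NeZero L'],
      L₂ ≤ L → L₂ ≤ L' → ‖redState R (ψ L) p.1 p.2 - redState R (ψ L') p.1 p.2‖ ≤ δ := by
    rintro ⟨a, b⟩
    have hO1 : (Matrix.single a b (1 : ℂ) + Matrix.single b a (1 : ℂ)).IsHermitian := by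
      unfold Matrix.IsHermitian
      rw [Matrix.conjTranspose_add, Matrix.conjTranspose_single, Matrix.conjTranspose_single]
      simp [add_comm]
    have hO2 : (Matrix.single a b Complex.I + Matrix.single b a (-Complex.I)).IsHermitian := by
      unfold Matrix.IsHermitian
      rw [Matrix.conjTranspose_add, Matrix.conjTranspose_single, Matrix.conjTranspose_single]
      simp [add_comm]
    obtain ⟨L₃, h3⟩ := h _ hO1 δ hδ
    obtain ⟨L₄, h4⟩ := h _ hO2 δ hδ
    refine ⟨max L₃ L₄, fun L L' _ _ hL hL' => ?_⟩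
    have e3 := h3 L L' (by omega) (by omega)
    have e4 := h4 L L' (by omega) (by omega)
    have hba : ∀ (L : ℕ) [NeZero L], redState R (ψ L) b a = star (redState R (ψ L) a b) := by
      intro L _
      exact ((redState_herm R (ψ L)).apply b a).symm
    have f1 : ∀ (L : ℕ) [NeZero L], (pair (Matrix.single a b (1 : ℂ) + Matrix.single b a (1 : ℂ))
        (redState R (ψ L))).re = 2 * (redState R (ψ L) a b).re := by
      intro L _
      rw [pair_add, pair_single, pair_single, hba L]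
      simp
      ring
    have f2 : ∀ (L : ℕ) [NeZero L], (pair (Matrix.single a b Complex.I +
        Matrix.single b a (-Complex.I)) (redState R (ψ L))).re =
          2 * (redState R (ψ L) a b).im := by
      intro L _
      rw [pair_add, pair_single, pair_single, hba L]
      simp
      ring
    rw [f1 L, f1 L'] at e3
    rw [f2 L, f2 L'] at e4
    have g3 : |(redState R (ψ L) a b - redState R (ψ L') a b).re| ≤ δ / 2 := by
      rw [Complex.sub_re]
      rw [abs_le] at e3 ⊢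
      constructor <;> linarith [e3.1, e3.2]
    have g4 : |(redState R (ψ L) a b - redState R (ψ L') a b).im| ≤ δ / 2 := by
      rw [Complex.sub_im]
      rw [abs_le] at e4 ⊢
      constructor <;> linarith [e4.1, e4.2]
    refine (Complex.norm_le_abs_re_add_abs_im _).trans ?_
    linarith
  choose N hN using key
  refine ⟨∑ p, N p, fun L L' _ _ hL hL' a b => ?_⟩
  have h1 : N (a, b) ≤ ∑ p, N p := Finset.single_le_sum (f := N) (fun _ _ => Nat.zero_le _)
    (Finset.mem_univ (a, b))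
  exact hN (a, b) L L' (by omega) (by omega)

end ext

end Pool.Agent.Y665.PE
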