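import Mathlib
import Pool.Agent.Y665.PE.C1

set_option autoImplicit false
set_option linter.unusedSectionVars false

open scoped BigOperators Topology
open Finset Filter
open Pool.Agent.H4R2

/-!
# The thermodynamic limit of ground states at points of differentiability
-/

namespace Pool.Agent.Y665.PE

section lims

variable {d : ℕ}

lemma cluster_lim (hd : 2 ≤ d) (R : Finset (ℤ × ℤ))
    (ψ : ∀ (L : ℕ) [NeZero L], (Site L → Fin d) → ℂ) (L₁ : ℕ)
    (hψ : ∀ (L : ℕ) [NeZero L], L₁ ≤ L → normSq (ψ L) = 1 ∧ TransInv (ψ L))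
    {ρ : Matrix (R → Fin d) (R → Fin d) ℂ}
    (hρ : ∀ ε : ℝ, 0 < ε → ∀ N : ℕ, ∃ (L : ℕ) (_ : NeZero L), N ≤ L ∧
      ∀ a b, ‖redState R (ψ L) a b - ρ a b‖ ≤ ε) : ρ ∈ limStates d R := by
  intro ε hε
  obtain ⟨L₀, hL₀⟩ := transfer d hd R (ε / 2) (by positivity)
  obtain ⟨L, _, hL, h1⟩ := hρ (ε / 2) (by positivity) (max L₀ L₁)
  obtain ⟨h2, h3⟩ := hψ L ((le_max_right _ _).trans hL)
  refine ⟨L₀, fun L' _ hL' => ?_⟩
  obtain ⟨φ, h4, h5, h6⟩ := hL₀ L L' ((le_max_left _ _).trans hL) hL' (ψ L) h2 h3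
  refine ⟨φ, h4, h5, fun a b => ?_⟩
  have h7 : redState R φ a b - ρ a b = (redState R φ a b - redState R (ψ L) a b) +
      (redState R (ψ L) a b - ρ a b) := by ring
  rw [h7]
  refine (norm_add_le _ _).trans ?_
  linarith [h6 a b, h1 a b]

lemma exists_cluster (R : Finset (ℤ × ℤ))
    (ψ : ∀ (L : ℕ) [NeZero L], (Site L → Fin d) → ℂ) (L₁ : ℕ)
    (hψ : ∀ (L : ℕ) [NeZero L], L₁ ≤ L → normSq (ψ L) = 1) :
    ∃ ρ : Matrix (R → Fin d) (R → Fin d) ℂ, ∀ ε : ℝ, 0 < ε → ∀ N : ℕ,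
      ∃ (L : ℕ) (_ : NeZero L), N ≤ L ∧ ∀ a b, ‖redState R (ψ L) a b - ρ a b‖ ≤ ε := by
  classical
  let F : ℕ → (R → Fin d) → (R → Fin d) → ℂ := fun n => redState R (ψ (n + 1))
  let S : Set ((R → Fin d) → (R → Fin d) → ℂ) :=
    Set.pi Set.univ fun _ => Set.pi Set.univ fun _ => Metric.closedBall 0 1
  have hS : IsCompact S := isCompact_univ_pi fun _ => isCompact_univ_pi fun _ =>
    isCompact_closedBall 0 1
  have hF : ∀ᶠ n in atTop, F n ∈ S := by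
    filter_upwards [eventually_ge_atTop L₁] with n hn
    intro a _ b _
    rw [Metric.mem_closedBall, dist_zero_right]
    exact redState_bound R _ (hψ (n + 1) (by omega)) a b
  obtain ⟨ρ, _, hρ⟩ := hS.exists_mapClusterPt_of_frequently hF.frequently
  refine ⟨ρ, fun ε hε N => ?_⟩
  have h1 : ∃ᶠ n in atTop, F n ∈ Metric.closedBall ρ ε := by
    rw [mapClusterPt_iff_frequently] at hρ
    exact hρ _ (Metric.closedBall_mem_nhds ρ hε)
  obtain ⟨n, hn, h2⟩ := (h1.and_eventually (eventually_ge_atTop N)).exists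
  refine ⟨n + 1, inferInstance, by omega, fun a b => ?_⟩
  have h3 : dist (F n) ρ ≤ ε := hn
  rw [dist_eq_norm] at h3
  exact ((norm_le_pi_norm ((F n - ρ) a) b).trans (norm_le_pi_norm (F n - ρ) a)).trans h3

/-- A family of translation invariant vectors of lowest energy, for all large system sizes. -/
def GroundFamily (B : Finset (ℤ × ℤ)) (h : Matrix (B → Fin d) (B → Fin d) ℂ)
    (ψ : ∀ (L : ℕ) [NeZero L], (Site L → Fin d) → ℂ) : Prop :=
  ∃ L₁ : ℕ, ∀ (L : ℕ) [NeZero L], L₁ ≤ L →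
    normSq (ψ L) = 1 ∧ TransInv (ψ L) ∧ IsGround (ham B h L) (ψ L)

/-- The energies per site of ground states converge to the least energy of the limit states. -/
theorem energy_tendsto (hd : 2 ≤ d) (R : Finset (ℤ × ℤ)) (x : (R → Fin d) → (R → Fin d) → ℝ)
    (ψ : ∀ (L : ℕ) [NeZero L], (Site L → Fin d) → ℂ) (hψ : GroundFamily R (herm x) ψ) :
    ∀ ε : ℝ, 0 < ε → ∃ L₂ : ℕ, ∀ (L : ℕ) [NeZero L], L₂ ≤ L →
      |(pair (herm x) (redState R (ψ L))).re - low (limStates d R) x| ≤ ε := by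
  classical
  intro ε hε
  obtain ⟨L₁, hL₁⟩ := hψ
  set C := size (herm x) with hC
  have hC0 : 0 ≤ C := size_nonneg _
  set ε' := ε / (2 * (C + 1)) with hε'
  have hε'0 : 0 < ε' := by positivity
  have hCε : C * ε' ≤ ε / 2 := by
    rw [hε', mul_div_assoc', div_le_div_iff₀ (by positivity) two_pos]
    nlinarith
  obtain ⟨L₀, hL₀⟩ := transfer d hd R ε' hε'0
  -- a nearly optimal limit state
  have hne : ((fun ρ => lin ρ x) '' (limStates d R)).Nonempty := (limStates_nonempty hd R).image _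
  obtain ⟨_, ⟨ρ, hρ, rfl⟩, hρ2⟩ := exists_lt_of_csInf_lt hne
    (show sInf ((fun ρ => lin ρ x) '' (limStates d R)) < low (limStates d R) x + ε / 2 by
      unfold low; linarith)
  obtain ⟨L₃, hL₃⟩ := hρ ε' hε'0
  refine ⟨max L₁ (max L₀ L₃), fun L _ hL => ?_⟩
  obtain ⟨h1, h2, h3⟩ := hL₁ L (by omega)
  rw [abs_le]
  constructor
  · -- lower bound
    have hex : ∀ (L' : ℕ), ∃ φ : (Site L' → Fin d) → ℂ, (∀ [NeZero L'], L₀ ≤ L' →
        normSq φ = 1 ∧ TransInv φ ∧ ∀ a b, ‖redState R φ a b - redState R (ψ L) a b‖ ≤ ε') := by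
      intro L'
      by_cases h0 : L' = 0
      · exact ⟨0, fun hne => absurd h0 (NeZero.ne L')⟩
      · have : NeZero L' := ⟨h0⟩
        by_cases h4 : L₀ ≤ L'
        · obtain ⟨φ, h5, h6, h7⟩ := hL₀ L L' (by omega) h4 (ψ L) h1 h2
          exact ⟨φ, fun _ => ⟨h5, h6, h7⟩⟩
        · exact ⟨0, fun h => absurd h h4⟩
    choose φ hφ using hex
    obtain ⟨σ, hσ⟩ := exists_cluster R (fun (L' : ℕ) [NeZero L'] => φ L') L₀
      (fun L' _ h4 => (hφ L' h4).1)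
    have hσ2 : σ ∈ limStates d R := cluster_lim hd R (fun (L' : ℕ) [NeZero L'] => φ L') L₀
      (fun L' _ h4 => ⟨(hφ L' h4).1, (hφ L' h4).2.1⟩) hσ
    have hσ3 : ∀ a b, ‖σ a b - redState R (ψ L) a b‖ ≤ ε' := by
      intro a b
      apply le_of_forall_pos_le_add
      intro η hη
      obtain ⟨L', _, h4, h5⟩ := hσ η hη L₀
      have h6 := (hφ L' h4).2.2 a b
      have h7 : σ a b - redState R (ψ L) a b = (redState R (φ L') a b - redState R (ψ L) a b) -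
          (redState R (φ L') a b - σ a b) := by ring
      rw [h7]
      exact (norm_sub_le _ _).trans (add_le_add h6 (h5 a b))
    have h4 := low_le (limStates_bound R) x hσ2
    have h5 := abs_le.mp (pair_le (herm x) _ _ ε' hσ3)
    rw [lin_apply] at h4
    have h6 : (∑ a, ∑ b, ‖herm x a b‖) * ε' ≤ ε / 2 := hCε
    linarith [h5.1, h5.2]
  · obtain ⟨φ, h4, h5, h6⟩ := hL₃ L (by omega)
    have h7 := ground_pair R h3 h1 h2 h4 h5
    have h8 := abs_le.mp (pair_le (herm x) _ _ ε' h6)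
    have h9 : (∑ a, ∑ b, ‖herm x a b‖) * ε' ≤ ε / 2 := hCε
    simp only [lin_apply] at hρ2
    linarith [h8.1, h8.2]

/-- **The thermodynamic limit at a point of differentiability.** -/
theorem exists_limit (hd : 2 ≤ d) (R : Finset (ℤ × ℤ)) {x : (R → Fin d) → (R → Fin d) → ℝ}
    (hx : DifferentiableAt ℝ (low (limStates d R)) x) :
    ∃ ρ ∈ limStates d R, ∀ ψ : ∀ (L : ℕ) [NeZero L], (Site L → Fin d) → ℂ,
      GroundFamily R (herm x) ψ → ∀ δ : ℝ, 0 < δ → ∃ L₂ : ℕ, ∀ (L : ℕ) [NeZero L], L₂ ≤ L →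
        ∀ a b, ‖redState R (ψ L) a b - ρ a b‖ ≤ δ := by
  by_cases hex : ∃ ψ₀ : ∀ (L : ℕ) [NeZero L], (Site L → Fin d) → ℂ, GroundFamily R (herm x) ψ₀
  · obtain ⟨ψ₀, L₀, hψ₀⟩ := hex
    obtain ⟨ρ, hρ⟩ := exists_cluster R ψ₀ L₀ (fun L _ h => (hψ₀ L h).1)
    obtain ⟨h1, h2⟩ := cluster_mem hd R ψ₀ L₀ hψ₀ hρ
    refine ⟨ρ, h1, ?_⟩
    rintro ψ ⟨L₁, hψ⟩ δ hδ
    obtain ⟨σ, hσ⟩ := exists_cluster R ψ L₁ (fun L _ h => (hψ L h).1)
    obtain ⟨h3, h4⟩ := cluster_mem hd R ψ L₁ hψ hσ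
    have h5 : σ = ρ := unique_min (limStates_bound R) (limStates_herm R) hx h3 h1 h4 h2
    rw [h5] at hσ
    obtain ⟨L₂, hL₂⟩ := conv_of_diff hd R hx ψ L₁ hψ (δ / 2) (by positivity)
    refine ⟨L₂, fun L _ hL a b => ?_⟩
    obtain ⟨L', _, h6, h7⟩ := hσ (δ / 2) (by positivity) L₂
    have h8 := hL₂ L L' hL h6 a b
    have h9 : redState R (ψ L) a b - ρ a b = (redState R (ψ L) a b - redState R (ψ L') a b) +
        (redState R (ψ L') a b - ρ a b) := by ring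
    rw [h9]
    refine (norm_add_le _ _).trans ?_
    linarith [h7 a b]
  · obtain ⟨ρ, hρ⟩ := limStates_nonempty hd R
    exact ⟨ρ, hρ, fun ψ hψ => absurd ⟨ψ, hψ⟩ hex⟩

/-- restriction of states to a smaller region -/
noncomputable def restr {B R : Finset (ℤ × ℤ)} (hBR : B ⊆ R)
    (ρ : Matrix (R → Fin d) (R → Fin d) ℂ) : Matrix (B → Fin d) (B → Fin d) ℂ :=
  fun a b => pair (enl hBR (Matrix.single b a (1 : ℂ))) ρ

/-- a bound for the restriction -/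
noncomputable def rc {B R : Finset (ℤ × ℤ)} (d : ℕ) (hBR : B ⊆ R) : ℝ :=
  ∑ a : B → Fin d, ∑ b : B → Fin d, size (enl hBR (Matrix.single a b (1 : ℂ)))

lemma rc_nonneg {B R : Finset (ℤ × ℤ)} (hBR : B ⊆ R) : 0 ≤ rc d hBR :=
  Finset.sum_nonneg fun _ _ => Finset.sum_nonneg fun _ _ => size_nonneg _

lemma size_le_rc {B R : Finset (ℤ × ℤ)} (hBR : B ⊆ R) (a b : B → Fin d) :
    size (enl hBR (Matrix.single a b (1 : ℂ))) ≤ rc d hBR := by
  unfold rc
  refine le_trans ?_ (Finset.single_le_sum (f := fun a : B → Fin d => ∑ b : B → Fin d,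
    size (enl hBR (Matrix.single a b (1 : ℂ))))
    (fun _ _ => Finset.sum_nonneg fun _ _ => size_nonneg _) (Finset.mem_univ a))
  exact Finset.single_le_sum (f := fun b : B → Fin d => size (enl hBR (Matrix.single a b (1 : ℂ))))
    (fun _ _ => size_nonneg _) (Finset.mem_univ b)

lemma redState_restr {B R : Finset (ℤ × ℤ)} (hBR : B ⊆ R) {L : ℕ} [NeZero L]
    (hL : 2 * rad R + 1 ≤ L) (φ : (Site L → Fin d) → ℂ) (hφ : normSq φ = 1) (hT : TransInv φ) :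
    redState B φ = restr hBR (redState R φ) := by
  ext a b
  unfold restr
  rw [pair_enl hBR _ hL φ hφ hT, pair_single, one_mul]

lemma restr_close {B R : Finset (ℤ × ℤ)} (hBR : B ⊆ R) (ρ σ : Matrix (R → Fin d) (R → Fin d) ℂ)
    (δ : ℝ) (hδ : 0 ≤ δ) (h : ∀ a b, ‖ρ a b - σ a b‖ ≤ δ) (a b : B → Fin d) :
    ‖restr hBR ρ a b - restr hBR σ a b‖ ≤ rc d hBR * δ :=
  (pair_norm_le _ _ _ _ h).trans (mul_le_mul_of_nonneg_right (size_le_rc hBR b a) hδ)

lemma restr_mem {B R : Finset (ℤ × ℤ)} (hBR : B ⊆ R) {ρ : Matrix (R → Fin d) (R → Fin d) ℂ}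
    (hρ : ρ ∈ limStates d R) : restr hBR ρ ∈ limStates d B := by
  intro ε hε
  have h0 := rc_nonneg (d := d) hBR
  obtain ⟨L₀, hL₀⟩ := hρ (ε / (rc d hBR + 1)) (by positivity)
  refine ⟨max L₀ (2 * rad R + 1), fun L _ hL => ?_⟩
  obtain ⟨φ, h1, h2, h3⟩ := hL₀ L (by omega)
  refine ⟨φ, h1, h2, fun a b => ?_⟩
  rw [redState_restr hBR (by omega) φ h1 h2]
  refine (restr_close hBR _ _ _ (by positivity) h3 a b).trans ?_
  rw [mul_div_assoc', div_le_iff₀ (by positivity)]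
  nlinarith

/-- limit states are reproduced by one tensor -/
theorem approx_of_lim (hd : 2 ≤ d) (R : Finset (ℤ × ℤ)) (ε : ℝ) (hε : 0 < ε)
    {ρ : Matrix (R → Fin d) (R → Fin d) ℂ} (hρ : ρ ∈ limStates d R) :
    ∃ A : Tensor d (bondDim d R ε), ∃ L₂ : ℕ, ∀ (L : ℕ) [NeZero L], L₂ ≤ L →
      contract A L ≠ 0 ∧ ∀ σ : Matrix (R → Fin d) (R → Fin d) ℂ,
        (∀ a b, ‖σ a b - ρ a b‖ ≤ ε / (4 * ((d : ℝ) ^ R.card) ^ 2)) →
        traceNorm (σ - redState R (contract A L)) ≤ ε := by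
  obtain ⟨L₀, hL₀⟩ := entry_approx d hd R ε hε
  have hdp : (0 : ℝ) < (d : ℝ) ^ R.card := by
    have : (0 : ℝ) < d := by exact_mod_cast (by omega : 0 < d)
    positivity
  obtain ⟨L₃, hL₃⟩ := hρ (ε / (4 * ((d : ℝ) ^ R.card) ^ 2)) (by positivity)
  set K := max L₀ L₃ + 1 with hK
  have : NeZero K := ⟨by omega⟩
  obtain ⟨φ, h1, h2, h3⟩ := hL₃ K (by omega)
  obtain ⟨A, hA⟩ := hL₀ K (by omega) φ h1 h2
  refine ⟨A, L₀, fun L _ hL => ?_⟩
  obtain ⟨h4, h5⟩ := hA L hL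
  refine ⟨?_, fun σ hσ => traceNorm_le' R hd _ ε hε fun a b => ?_⟩
  · intro h0
    rw [h0] at h4
    simp [normSq] at h4
  · have h6 := hσ a b
    have h7 := h5 a b
    have h8 := h3 a b
    have h9 : σ a b - redState R (contract A L) a b =
        (σ a b - ρ a b) - (redState R φ a b - ρ a b) -
        (redState R (contract A L) a b - redState R φ a b) := by ring
    rw [Matrix.sub_apply, h9]
    refine (norm_sub_le _ _).trans ?_
    refine (add_le_add (norm_sub_le _ _) le_rfl).trans ?_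
    have h10 : ε / ((d : ℝ) ^ R.card) ^ 2 = ε / (4 * ((d : ℝ) ^ R.card) ^ 2) +
        ε / (4 * ((d : ℝ) ^ R.card) ^ 2) + ε / (2 * ((d : ℝ) ^ R.card) ^ 2) := by
      field_simp
      ring
    rw [h10]
    exact add_le_add (add_le_add h6 h8) h7

/-- **Local approximation at points of differentiability.** -/
theorem diff_case (hd : 2 ≤ d) {R₀ R : Finset (ℤ × ℤ)} (hR : R₀ ⊆ R)
    {x : (R → Fin d) → (R → Fin d) → ℝ}
    (hx : DifferentiableAt ℝ (low (limStates d R)) x) (ε : ℝ) (hε : 0 < ε) :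
    ∃ A : Tensor d (bondDim d R₀ ε), (∃ L₂ : ℕ, ∀ (L : ℕ) [NeZero L], L₂ ≤ L →
      contract A L ≠ 0) ∧ ∀ ψ : ∀ (L : ℕ) [NeZero L], (Site L → Fin d) → ℂ,
        GroundFamily R (herm x) ψ → ∃ L₂ : ℕ, ∀ (L : ℕ) [NeZero L], L₂ ≤ L →
          traceNorm (redState R₀ (ψ L) - redState R₀ (contract A L)) ≤ ε := by
  obtain ⟨ρ, hρ, hlim⟩ := exists_limit hd R hx
  obtain ⟨A, L₂, hA⟩ := approx_of_lim hd R₀ ε hε (restr_mem hR hρ)
  refine ⟨A, ⟨L₂, fun L _ hL => (hA L hL).1⟩, ?_⟩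
  intro ψ hψ
  have hdp : (0 : ℝ) < (d : ℝ) ^ R₀.card := by
    have : (0 : ℝ) < d := by exact_mod_cast (by omega : 0 < d)
    positivity
  have h0 := rc_nonneg (d := d) hR
  obtain ⟨L₃, hL₃⟩ := hlim ψ hψ (ε / (4 * ((d : ℝ) ^ R₀.card) ^ 2) / (rc d hR + 1)) (by positivity)
  obtain ⟨L₁, hL₁⟩ := hψ
  refine ⟨max (max L₁ L₂) (max L₃ (2 * rad R + 1)), fun L _ hL => ?_⟩
  obtain ⟨h1, h2, _⟩ := hL₁ L (by omega)
  apply (hA L (by omega)).2
  intro a b
  rw [redState_restr hR (by omega) (ψ L) h1 h2]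
  refine (restr_close hR _ _ _ (by positivity) (hL₃ L (by omega)) a b).trans ?_
  rw [mul_div_assoc', div_le_iff₀ (by positivity)]
  have : 0 ≤ ε / (4 * ((d : ℝ) ^ R₀.card) ^ 2) := by positivity
  nlinarith

end lims

end Pool.Agent.Y665.PE
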