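import Mathlib
import Pool.Agent.Y665.PE.B3
import Pool.Agent.Y665.PE.C2

set_option autoImplicit false
set_option linter.unusedSectionVars false

open scoped BigOperators Topology
open Finset Filter
open Pool.Agent.H4R2

/-!
# Hamiltonians with a stable gap
-/

namespace Pool.Agent.Y665.PE

section stable

variable {d : ℕ}

/-- The gap of `h` is stable under perturbations supported on the region `R`: for every Hermitian
`O` on `R`, the Hamiltonians with the perturbation `t O`, `0 < t ≤ δ`, have for all large `L` a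
unique ground state with a gap which is bounded below independently of `L` and `t`. -/
def StableGap (B : Finset (ℤ × ℤ)) (h : Matrix (B → Fin d) (B → Fin d) ℂ)
    (R : Finset (ℤ × ℤ)) : Prop :=
  ∀ O : Matrix (R → Fin d) (R → Fin d) ℂ, O.IsHermitian → ∃ δ : ℝ, 0 < δ ∧ ∃ Δ : ℝ, 0 < Δ ∧
    ∃ L₁ : ℕ, ∀ (L : ℕ) [NeZero L], L₁ ≤ L → ∀ t : ℝ, 0 < t → t ≤ δ →
      ∃ φ : (Site L → Fin d) → ℂ, normSq φ = 1 ∧
        IsGappedGround (ham B h L + (t : ℂ) • ham R O L) Δ φ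

lemma gapped_mono {n : Type*} [Fintype n] {H : Matrix n n ℂ} {Δ Δ' : ℝ} (h : Δ' ≤ Δ) {ψ : n → ℂ}
    (hg : IsGappedGround H Δ ψ) : IsGappedGround H Δ' ψ := by
  obtain ⟨E, h1, h2, h3⟩ := hg
  refine ⟨E, h1, h2, fun E' φ hφ h4 => ?_⟩
  rcases h3 E' φ hφ h4 with h5 | h5
  · exact Or.inl h5
  · exact Or.inr (by linarith)

theorem stable_case (hd : 2 ≤ d) (B : Finset (ℤ × ℤ)) {h : Matrix (B → Fin d) (B → Fin d) ℂ}
    (hh : h.IsHermitian) (ψ : ∀ (L : ℕ) [NeZero L], (Site L → Fin d) → ℂ)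
    (hgap : GappedFamily B h ψ) (R : Finset (ℤ × ℤ)) (hst : StableGap B h R) : Cauch R ψ := by
  apply cauch_of_pair
  intro O hO
  obtain ⟨Δ₀, hΔ₀, L₁, hL₁⟩ := hgap
  obtain ⟨δ, hδ, Δ, hΔ, L₂, hL₂⟩ := hst O hO
  set R' := B ∪ R with hR'
  have hB : B ⊆ R' := Finset.subset_union_left
  have hR : R ⊆ R' := Finset.subset_union_right
  have hD : 0 < min Δ₀ Δ := lt_min hΔ₀ hΔ
  intro η hη
  obtain ⟨L₃, hL₃⟩ := conv_of_stable hd R' (enl_herm hB hh) (enl_herm hR hO) ψ (min Δ₀ Δ) δ hD hδ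
    (max (max L₁ L₂) (2 * rad R' + 1)) (by
      intro L _ hL
      have e1 : 2 * rad R' + 1 ≤ L := (le_max_right _ _).trans hL
      have e2 : L₁ ≤ L := (le_max_left _ _).trans ((le_max_left _ _).trans hL)
      have e3 : L₂ ≤ L := (le_max_right _ _).trans ((le_max_left _ _).trans hL)
      obtain ⟨f1, f2⟩ := hL₁ L e2
      refine ⟨f1, ?_, ?_⟩
      · rw [ham_enl hB h e1]
        exact gapped_mono (min_le_left _ _) f2
      · intro t ht0 ht
        obtain ⟨φ, g1, g2⟩ := hL₂ L e3 t ht0 ht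
        refine ⟨φ, g1, ?_⟩
        rw [ham_enl hB h e1, ham_enl hR O e1]
        exact gapped_mono (min_le_right _ _) g2) η hη
  refine ⟨max L₃ (max L₁ (2 * rad R' + 1)), fun L L' _ _ hL hL' => ?_⟩
  have e : ∀ (L : ℕ) [NeZero L], max L₃ (max L₁ (2 * rad R' + 1)) ≤ L →
      pair O (redState R (ψ L)) = pair (enl hR O) (redState R' (ψ L)) := by
    intro L _ hL
    have e1 : 2 * rad R' + 1 ≤ L := (le_max_right _ _).trans ((le_max_right _ _).trans hL)
    have e2 : L₁ ≤ L := (le_max_left _ _).trans ((le_max_right _ _).trans hL)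
    obtain ⟨f1, f2⟩ := hL₁ L e2
    exact (pair_enl hR O e1 (ψ L) f1 (transInv_of_ground B h Δ₀ (ψ L) f2)).symm
  rw [e L hL, e L' hL']
  exact hL₃ L L' ((le_max_left _ _).trans hL) ((le_max_left _ _).trans hL')

/-- **Local approximation for a stable gap.** -/
theorem stable_approx (hd : 2 ≤ d) (B : Finset (ℤ × ℤ)) {h : Matrix (B → Fin d) (B → Fin d) ℂ}
    (hh : h.IsHermitian) (ψ : ∀ (L : ℕ) [NeZero L], (Site L → Fin d) → ℂ)
    (hgap : GappedFamily B h ψ) (R : Finset (ℤ × ℤ)) (hst : StableGap B h R) (ε : ℝ)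
    (hε : 0 < ε) :
    ∃ A : Tensor d (bondDim d R ε), ∃ L₂ : ℕ, ∀ (L : ℕ) [NeZero L], L₂ ≤ L →
      contract A L ≠ 0 ∧ traceNorm (redState R (ψ L) - redState R (contract A L)) ≤ ε := by
  have hc := stable_case hd B hh ψ hgap R hst
  obtain ⟨Δ₀, hΔ₀, L₁, hL₁⟩ := hgap
  exact approx_of_conv d hd R ε hε ψ L₁ (fun L _ hL =>
    ⟨(hL₁ L hL).1, transInv_of_ground B h Δ₀ (ψ L) (hL₁ L hL).2⟩) hc

lemma groundFamily_of_gapped (B : Finset (ℤ × ℤ)) {h : Matrix (B → Fin d) (B → Fin d) ℂ}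
    (hh : h.IsHermitian) (ψ : ∀ (L : ℕ) [NeZero L], (Site L → Fin d) → ℂ)
    (hgap : GappedFamily B h ψ) : GroundFamily B h ψ := by
  obtain ⟨Δ₀, hΔ₀, L₁, hL₁⟩ := hgap
  exact ⟨L₁, fun L _ hL => ⟨(hL₁ L hL).1, transInv_of_ground B h Δ₀ (ψ L) (hL₁ L hL).2,
    isGround_of_gapped (ham_herm B hh) hΔ₀.le (hL₁ L hL).2⟩⟩

end stable

end Pool.Agent.Y665.PE
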