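import Mathlib
import Pool.Agent.Y665.PE.C2

set_option autoImplicit false
set_option linter.unusedSectionVars false

open scoped BigOperators Topology
open Finset Filter
open Pool.Agent.H4R2

/-!
# Uniform estimates near a point of differentiability
-/

namespace Pool.Agent.Y665.PE

section herm

variable {n : Type*} [Fintype n] [DecidableEq n]

lemma exists_herm' {h : Matrix n n ℂ} (hh : h.IsHermitian) :
    ∃ x, herm x = h ∧ ‖x‖ ≤ size h := by
  have hle : ∀ a b, ‖h a b‖ ≤ size h := by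
    intro a b
    unfold size
    refine le_trans ?_ (Finset.single_le_sum (f := fun a => ∑ b, ‖h a b‖)
      (fun _ _ => Finset.sum_nonneg fun _ _ => norm_nonneg _) (Finset.mem_univ a))
    exact Finset.single_le_sum (f := fun b => ‖h a b‖) (fun _ _ => norm_nonneg _)
      (Finset.mem_univ b)
  refine ⟨fun a b => ((h a b).re + (h a b).im) / 2, ?_, ?_⟩
  · have h1 : ∀ a b, (h b a).re = (h a b).re ∧ (h b a).im = -(h a b).im := by
      intro a b
      have := hh.apply b a
      rw [← this]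
      simp
    ext a b
    unfold herm
    obtain ⟨h2, h3⟩ := h1 a b
    apply Complex.ext
    · simp [h2, h3]; ring
    · simp [h2, h3]; ring
  · rw [pi_norm_le_iff_of_nonneg (size_nonneg h)]
    intro a
    rw [pi_norm_le_iff_of_nonneg (size_nonneg h)]
    intro b
    have h1 := Complex.abs_re_le_norm (h a b)
    have h2 := Complex.abs_im_le_norm (h a b)
    have h3 := hle a b
    rw [Real.norm_eq_abs, abs_le]
    rw [abs_le] at h1 h2
    constructor <;> linarith [h1.1, h1.2, h2.1, h2.2]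

lemma size_single (a b : n) (c : ℂ) : size (Matrix.single a b c) = ‖c‖ := by
  unfold size
  rw [Finset.sum_eq_single a, Finset.sum_eq_single b]
  · rw [Matrix.single_apply_same]
  · intro b' _ hb
    rw [Matrix.single_apply_of_ne _ _ _ _ _ (by rintro ⟨_, h⟩; exact hb h.symm), norm_zero]
  · intro hh; exact absurd (Finset.mem_univ _) hh
  · intro a' _ ha
    apply Finset.sum_eq_zero
    intro b' _
    rw [Matrix.single_apply_of_ne _ _ _ _ _ (by rintro ⟨h, _⟩; exact ha h.symm), norm_zero]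
  · intro hh; exact absurd (Finset.mem_univ _) hh

lemma size_add (h k : Matrix n n ℂ) : size (h + k) ≤ size h + size k := by
  unfold size
  rw [← Finset.sum_add_distrib]
  refine Finset.sum_le_sum fun a _ => ?_
  rw [← Finset.sum_add_distrib]
  refine Finset.sum_le_sum fun b _ => ?_
  exact norm_add_le _ _

/-- entries from expectations -/
lemma entries_of_lin {σ τ : Matrix n n ℂ} (hσ : σ.IsHermitian) (hτ : τ.IsHermitian) {η : ℝ}
    (hη : 0 ≤ η) (h : ∀ v : n → n → ℝ, |lin σ v - lin τ v| ≤ η * ‖v‖) (a b : n) :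
    ‖σ a b - τ a b‖ ≤ 2 * η := by
  have hO1 : (Matrix.single a b (1 : ℂ) + Matrix.single b a (1 : ℂ)).IsHermitian := by
    unfold Matrix.IsHermitian
    rw [Matrix.conjTranspose_add, Matrix.conjTranspose_single, Matrix.conjTranspose_single]
    simp [add_comm]
  have hO2 : (Matrix.single a b Complex.I + Matrix.single b a (-Complex.I)).IsHermitian := by
    unfold Matrix.IsHermitian
    rw [Matrix.conjTranspose_add, Matrix.conjTranspose_single, Matrix.conjTranspose_single]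
    simp [add_comm]
  obtain ⟨x1, h1, n1⟩ := exists_herm' hO1
  obtain ⟨x2, h2, n2⟩ := exists_herm' hO2
  have s1 : ‖x1‖ ≤ 2 := by
    refine n1.trans ((size_add _ _).trans ?_)
    rw [size_single, size_single]; norm_num
  have s2 : ‖x2‖ ≤ 2 := by
    refine n2.trans ((size_add _ _).trans ?_)
    rw [size_single, size_single]; norm_num
  have e1 := (h x1).trans (mul_le_mul_of_nonneg_left s1 hη)
  have e2 := (h x2).trans (mul_le_mul_of_nonneg_left s2 hη)
  have f1 : ∀ ρ : Matrix n n ℂ, ρ.IsHermitian → lin ρ x1 = 2 * (ρ a b).re := by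
    intro ρ hρ
    have hba : ρ b a = star (ρ a b) := (hρ.apply b a).symm
    rw [lin_apply, h1, pair_add, pair_single, pair_single, hba]
    simp
    ring
  have f2 : ∀ ρ : Matrix n n ℂ, ρ.IsHermitian → lin ρ x2 = 2 * (ρ a b).im := by
    intro ρ hρ
    have hba : ρ b a = star (ρ a b) := (hρ.apply b a).symm
    rw [lin_apply, h2, pair_add, pair_single, pair_single, hba]
    simp
    ring
  rw [f1 σ hσ, f1 τ hτ] at e1
  rw [f2 σ hσ, f2 τ hτ] at e2
  refine (Complex.norm_le_abs_re_add_abs_im _).trans ?_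
  rw [Complex.sub_re, Complex.sub_im]
  have g1 : |(σ a b).re - (τ a b).re| ≤ η := by
    rw [abs_le] at e1 ⊢
    constructor <;> linarith [e1.1, e1.2]
  have g2 : |(σ a b).im - (τ a b).im| ≤ η := by
    rw [abs_le] at e2 ⊢
    constructor <;> linarith [e2.1, e2.2]
  linarith

/-- the basic estimate near a point of differentiability -/
theorem main_est {K : Set (Matrix n n ℂ)} (hK : ∀ ρ ∈ K, ∀ a b, ‖ρ a b‖ ≤ 2)
    (hne : K.Nonempty) {x : n → n → ℝ} (hd : DifferentiableAt ℝ (low K) x) (η : ℝ) (hη : 0 < η) :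
    ∃ δ : ℝ, 0 < δ ∧ ∀ y : n → n → ℝ, ‖y - x‖ ≤ δ → ∀ σ : Matrix n n ℂ,
      (∀ a b, ‖σ a b‖ ≤ 2) → (∃ τ ∈ K, ∀ a b, ‖σ a b - τ a b‖ ≤ δ) → lin σ y ≤ low K y + δ →
      ∀ v : n → n → ℝ, |lin σ v - fderiv ℝ (low K) x v| ≤ η * ‖v‖ := by
  set D := fderiv ℝ (low K) x with hD
  set C : ℝ := (Fintype.card n : ℝ) ^ 2 * 8 with hC
  have hC0 : 0 ≤ C := by rw [hC]; positivity
  have ho := hd.hasFDerivAt.isLittleO
  have ho2 := ho.def (show (0 : ℝ) < η / 4 by positivity)
  obtain ⟨r₀, hr₀, hball⟩ := Metric.eventually_nhds_iff.mp ho2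
  set r := r₀ / 2 with hr
  have hr0 : 0 < r := by positivity
  set S : ℝ := C * (‖x‖ + r) + 1 + 2 * C with hS
  have hS0 : 0 < S := by rw [hS]; positivity
  set δ := η * r / (2 * S) with hδ
  have hδ0 : 0 < δ := by positivity
  have hSδ : S * δ = η * r / 2 := by rw [hδ]; field_simp
  refine ⟨δ, hδ0, ?_⟩
  intro y hy σ hσ2 ⟨τ, hτ, hστ⟩ hσy
  have hlip : low K y ≤ low K x + C * ‖y - x‖ := by
    have h1 := (low_lipschitz hK hne).dist_le_mul y x
    rw [Real.coe_toNNReal _ hC0, Real.dist_eq, dist_eq_norm] at h1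
    linarith [(abs_le.mp h1).2]
  have hsig : ∀ v : n → n → ℝ, |lin σ v| ≤ C * ‖v‖ := fun v => abs_lin_le σ hσ2 v
  have hclose : ∀ v : n → n → ℝ, lin τ v - C * δ * ‖v‖ ≤ lin σ v := by
    intro v
    have h1 := pair_norm_le (herm v) σ τ δ hστ
    have h2 : |lin σ v - lin τ v| ≤ size (herm v) * δ := by
      rw [lin_apply, lin_apply, ← Complex.sub_re]
      exact (Complex.abs_re_le_norm _).trans h1
    have h3 : size (herm v) ≤ C * ‖v‖ := by
      unfold size
      calc ∑ a, ∑ b, ‖herm v a b‖ ≤ ∑ _a : n, ∑ _b : n, (4 * ‖v‖) := by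
            refine Finset.sum_le_sum fun a _ => Finset.sum_le_sum fun b _ => norm_herm_le v a b
        _ = (Fintype.card n : ℝ) ^ 2 * 4 * ‖v‖ := by
            simp only [Finset.sum_const, Finset.card_univ, nsmul_eq_mul]
            ring
        _ ≤ C * ‖v‖ := by
            rw [hC]
            have : 0 ≤ (Fintype.card n : ℝ) ^ 2 * ‖v‖ := by positivity
            nlinarith
    have h4 := (abs_le.mp h2).1
    nlinarith [mul_le_mul_of_nonneg_right h3 hδ0.le]
  -- one sided estimate on the sphere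
  have key : ∀ v : n → n → ℝ, ‖v‖ = r → -(η * r) ≤ lin σ v - D v := by
    intro v hv
    have h1 : ‖low K (x + v) - low K x - D (x + v - x)‖ ≤ η / 4 * ‖x + v - x‖ := by
      apply hball
      rw [dist_eq_norm, add_sub_cancel_left, hv, hr]
      linarith
    rw [add_sub_cancel_left, hv, Real.norm_eq_abs] at h1
    have h2 := (abs_le.mp h1).1
    have h3 := low_le hK (x + v) hτ
    have h4 := hclose (x + v)
    have h5 : ‖x + v‖ ≤ ‖x‖ + r := (norm_add_le _ _).trans (by rw [hv])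
    have h6 : C * δ * ‖x + v‖ ≤ C * δ * (‖x‖ + r) :=
      mul_le_mul_of_nonneg_left h5 (mul_nonneg hC0 hδ0.le)
    have h7 : lin σ (x + v) = lin σ y + lin σ (x - y) + lin σ v := by
      rw [← map_add, ← map_add]
      congr 1
      abel
    have h8 := (abs_le.mp (hsig (x - y))).2
    rw [norm_sub_rev x y] at h8
    have h9 : C * ‖y - x‖ ≤ C * δ := mul_le_mul_of_nonneg_left hy hC0
    have h10 : S * δ = C * δ * (‖x‖ + r) + δ + 2 * (C * δ) := by rw [hS]; ring
    rw [hSδ] at h10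
    nlinarith
  intro v
  rcases (norm_nonneg v).eq_or_lt with h0 | h0
  · have hv : v = 0 := norm_eq_zero.mp h0.symm
    rw [hv]
    simp
  · set c := r / ‖v‖ with hc
    have hc0 : 0 < c := by positivity
    have hcv : ‖c • v‖ = r := by
      rw [norm_smul, Real.norm_of_nonneg hc0.le, hc]
      field_simp
    have h1 := key (c • v) hcv
    have h2 := key (-(c • v)) (by rw [norm_neg, hcv])
    have e1 : lin σ (c • v) = c * lin σ v := by rw [map_smul]; rfl
    have e2 : D (c • v) = c * D v := by rw [map_smul]; rfl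
    have e3 : lin σ (-(c • v)) = -(c * lin σ v) := by rw [map_neg, e1]
    have e4 : D (-(c • v)) = -(c * D v) := by rw [map_neg, e2]
    rw [e1, e2] at h1
    rw [e3, e4] at h2
    have e5 : η * r = c * (η * ‖v‖) := by rw [hc]; field_simp
    rw [e5] at h1 h2
    rw [abs_le]
    constructor
    · apply le_of_mul_le_mul_left _ hc0
      linarith
    · apply le_of_mul_le_mul_left _ hc0
      linarith

end herm

section torus

variable {d : ℕ}

/-- every translation invariant vector is close to a limit state, and every limit state is close to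
a translation invariant vector, uniformly -/
theorem unif (hd : 2 ≤ d) (R : Finset (ℤ × ℤ)) (ε : ℝ) (hε : 0 < ε) :
    ∃ L₀ : ℕ, ∀ (L : ℕ) [NeZero L], L₀ ≤ L →
      (∀ ρ ∈ limStates d R, ∃ φ : (Site L → Fin d) → ℂ, normSq φ = 1 ∧ TransInv φ ∧
        ∀ a b, ‖redState R φ a b - ρ a b‖ ≤ ε) ∧
      (∀ φ : (Site L → Fin d) → ℂ, normSq φ = 1 → TransInv φ → ∃ ρ ∈ limStates d R,
        ∀ a b, ‖redState R φ a b - ρ a b‖ ≤ ε) := by
  classical
  obtain ⟨L₀, hL₀⟩ := transfer d hd R (ε / 2) (by positivity)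
  refine ⟨L₀, fun L _ hL => ⟨?_, ?_⟩⟩
  · intro ρ hρ
    obtain ⟨L₁, hL₁⟩ := hρ (ε / 2) (by positivity)
    set K := max L₀ L₁ + 1 with hK
    have : NeZero K := ⟨by omega⟩
    obtain ⟨φ, h1, h2, h3⟩ := hL₁ K (by omega)
    obtain ⟨φ', h4, h5, h6⟩ := hL₀ K L (by omega) hL φ h1 h2
    refine ⟨φ', h4, h5, fun a b => ?_⟩
    have h7 : redState R φ' a b - ρ a b = (redState R φ' a b - redState R φ a b) +
        (redState R φ a b - ρ a b) := by ring
    rw [h7]
    refine (norm_add_le _ _).trans ?_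
    linarith [h6 a b, h3 a b]
  · intro φ₀ h1 h2
    have hex : ∀ (L' : ℕ), ∃ φ : (Site L' → Fin d) → ℂ, (∀ [NeZero L'], L₀ ≤ L' →
        normSq φ = 1 ∧ TransInv φ ∧ ∀ a b, ‖redState R φ a b - redState R φ₀ a b‖ ≤ ε / 2) := by
      intro L'
      by_cases h0 : L' = 0
      · exact ⟨0, fun hne => absurd h0 (NeZero.ne L')⟩
      · have : NeZero L' := ⟨h0⟩
        by_cases h4 : L₀ ≤ L'
        · obtain ⟨φ, h5, h6, h7⟩ := hL₀ L L' hL h4 φ₀ h1 h2
          exact ⟨φ, fun _ => ⟨h5, h6, h7⟩⟩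
        · exact ⟨0, fun h => absurd h h4⟩
    choose φ hφ using hex
    obtain ⟨σ, hσ⟩ := exists_cluster R (fun (L' : ℕ) [NeZero L'] => φ L') L₀
      (fun L' _ h4 => (hφ L' h4).1)
    have hσ2 : σ ∈ limStates d R := cluster_lim hd R (fun (L' : ℕ) [NeZero L'] => φ L') L₀
      (fun L' _ h4 => ⟨(hφ L' h4).1, (hφ L' h4).2.1⟩) hσ
    refine ⟨σ, hσ2, fun a b => ?_⟩
    obtain ⟨L', _, h4, h5⟩ := hσ (ε / 2) (by positivity) L₀
    have h6 := (hφ L' h4).2.2 a b
    have h7 : redState R φ₀ a b - σ a b = (redState R (φ L') a b - σ a b) -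
        (redState R (φ L') a b - redState R φ₀ a b) := by ring
    rw [h7]
    refine (norm_sub_le _ _).trans ?_
    linarith [h5 a b]

/-- Ground states have nearly the least energy of the limit states, uniformly. -/
lemma ground_low (hd : 2 ≤ d) (R : Finset (ℤ × ℤ)) (x : (R → Fin d) → (R → Fin d) → ℝ) (ε : ℝ)
    (hε : 0 < ε) : ∃ L₀ : ℕ, ∀ (L : ℕ) [NeZero L], L₀ ≤ L → ∀ y, ‖y - x‖ ≤ 1 →
      ∀ ψ : (Site L → Fin d) → ℂ, normSq ψ = 1 → TransInv ψ → IsGround (ham R (herm y) L) ψ →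
        lin (redState R ψ) y ≤ low (limStates d R) y + ε := by
  set C : ℝ := (Fintype.card (R → Fin d) : ℝ) ^ 2 * 4 * (‖x‖ + 1) with hC
  have hC0 : 0 ≤ C := by rw [hC]; positivity
  obtain ⟨L₀, hL₀⟩ := unif hd R (ε / (C + 1)) (by positivity)
  refine ⟨L₀, fun L _ hL y hy ψ h1 h2 h3 => ?_⟩
  rw [← sub_le_iff_le_add]
  unfold low
  apply le_csInf ((limStates_nonempty hd R).image _)
  rintro _ ⟨ρ, hρ, rfl⟩
  obtain ⟨φ, h4, h5, h6⟩ := (hL₀ L hL).1 ρ hρ
  have h7 := ground_pair R h3 h1 h2 h4 h5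
  have h8 := abs_le.mp (pair_le (herm y) _ _ _ h6)
  have h9 : (∑ a, ∑ b, ‖herm y a b‖) ≤ C := by
    have hy2 : ‖y‖ ≤ ‖x‖ + 1 := by
      have : y = x + (y - x) := by abel
      rw [this]
      exact (norm_add_le _ _).trans (by linarith)
    calc ∑ a, ∑ b, ‖herm y a b‖ ≤ ∑ _a : (R → Fin d), ∑ _b : (R → Fin d), (4 * (‖x‖ + 1)) := by
          refine Finset.sum_le_sum fun a _ => Finset.sum_le_sum fun b _ => ?_
          exact (norm_herm_le y a b).trans (by linarith)
      _ = C := by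
          rw [hC]
          simp only [Finset.sum_const, Finset.card_univ, nsmul_eq_mul]
          ring
  have h10 : (∑ a, ∑ b, ‖herm y a b‖) * (ε / (C + 1)) ≤ ε := by
    refine (mul_le_mul_of_nonneg_right h9 (by positivity)).trans ?_
    rw [mul_div_assoc', div_le_iff₀ (by positivity)]
    nlinarith
  simp only [lin_apply]
  linarith [h8.1, h8.2]

/-- **Uniform convergence near a point of differentiability.** -/
theorem unif_limit (hd : 2 ≤ d) (R : Finset (ℤ × ℤ)) {x : (R → Fin d) → (R → Fin d) → ℝ}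
    (hx : DifferentiableAt ℝ (low (limStates d R)) x) (η : ℝ) (hη : 0 < η) :
    ∃ ρ ∈ limStates d R, ∃ δ : ℝ, 0 < δ ∧ ∃ L₀ : ℕ, ∀ (L : ℕ) [NeZero L], L₀ ≤ L →
      ∀ y, ‖y - x‖ ≤ δ → ∀ ψ : (Site L → Fin d) → ℂ, normSq ψ = 1 → TransInv ψ →
        IsGround (ham R (herm y) L) ψ → ∀ a b, ‖redState R ψ a b - ρ a b‖ ≤ η := by
  have hKb := limStates_bound (d := d) R
  have hKn := limStates_nonempty hd R
  obtain ⟨δ, hδ, hest⟩ := main_est hKb hKn hx (η / 4) (by positivity)
  -- a reference state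
  obtain ⟨_, ⟨ρ, hρ, rfl⟩, hρ2⟩ := exists_lt_of_csInf_lt (hKn.image (fun ρ => lin ρ x))
    (show sInf ((fun ρ => lin ρ x) '' (limStates d R)) < low (limStates d R) x + δ by
      unfold low; linarith)
  have hρ3 := hest x (by simp [hδ.le]) ρ (hKb ρ hρ) ⟨ρ, hρ, fun a b => by simp [hδ.le]⟩ hρ2.le
  obtain ⟨L₁, hL₁⟩ := unif hd R δ hδ
  obtain ⟨L₂, hL₂⟩ := ground_low hd R x δ hδ
  refine ⟨ρ, hρ, min δ 1, lt_min hδ one_pos, max L₁ L₂, ?_⟩
  intro L _ hL y hy ψ h1 h2 h3 a b
  have h4 := hL₂ L ((le_max_right _ _).trans hL) y (hy.trans (min_le_right _ _)) ψ h1 h2 h3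
  have h5 := hest y (hy.trans (min_le_left _ _)) (redState R ψ)
    (fun a b => (redState_bound R ψ h1 a b).trans (by norm_num))
    ((hL₁ L ((le_max_left _ _).trans hL)).2 ψ h1 h2) h4
  have h6 : ∀ v, |lin (redState R ψ) v - lin ρ v| ≤ (η / 2) * ‖v‖ := by
    intro v
    have e1 := abs_le.mp (h5 v)
    have e2 := abs_le.mp (hρ3 v)
    rw [abs_le]
    constructor <;> linarith [e1.1, e1.2, e2.1, e2.2]
  have h7 := entries_of_lin (redState_herm R ψ) (limStates_herm R ρ hρ) (by positivity) h6 a b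
  linarith

/-- **Local approximation near points of differentiability, uniformly in the interaction.** -/
theorem diff_unif (hd : 2 ≤ d) {R₀ R : Finset (ℤ × ℤ)} (hR : R₀ ⊆ R)
    {x : (R → Fin d) → (R → Fin d) → ℝ}
    (hx : DifferentiableAt ℝ (low (limStates d R)) x) (ε : ℝ) (hε : 0 < ε) :
    ∃ A : Tensor d (bondDim d R₀ ε), ∃ δ : ℝ, 0 < δ ∧ ∃ L₀ : ℕ, ∀ (L : ℕ) [NeZero L], L₀ ≤ L →
      contract A L ≠ 0 ∧ ∀ y, ‖y - x‖ ≤ δ → ∀ ψ : (Site L → Fin d) → ℂ, normSq ψ = 1 →
        TransInv ψ → IsGround (ham R (herm y) L) ψ →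
          traceNorm (redState R₀ ψ - redState R₀ (contract A L)) ≤ ε := by
  have hdp : (0 : ℝ) < (d : ℝ) ^ R₀.card := by
    have : (0 : ℝ) < d := by exact_mod_cast (by omega : 0 < d)
    positivity
  have h0 := rc_nonneg (d := d) hR
  obtain ⟨ρ, hρ, δ, hδ, L₁, hL₁⟩ := unif_limit hd R hx
    (ε / (4 * ((d : ℝ) ^ R₀.card) ^ 2) / (rc d hR + 1)) (by positivity)
  obtain ⟨A, L₂, hA⟩ := approx_of_lim hd R₀ ε hε (restr_mem hR hρ)
  refine ⟨A, δ, hδ, max (max L₁ L₂) (2 * rad R + 1), fun L _ hL => ?_⟩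
  refine ⟨(hA L (by omega)).1, fun y hy ψ h1 h2 h3 => ?_⟩
  apply (hA L (by omega)).2
  intro a b
  rw [redState_restr hR (by omega) ψ h1 h2]
  refine (restr_close hR _ _ _ (by positivity) (hL₁ L (by omega) y hy ψ h1 h2 h3) a b).trans ?_
  rw [mul_div_assoc', div_le_iff₀ (by positivity)]
  have : 0 ≤ ε / (4 * ((d : ℝ) ^ R₀.card) ^ 2) := by positivity
  nlinarith

end torus

end Pool.Agent.Y665.PE
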