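import Mathlib
import Pool.Agent.Y665.PE.A1

set_option autoImplicit false
set_option linter.unusedSectionVars false

open scoped BigOperators Topology
open Finset Filter
open Pool.Agent.H4R2

/-!
# Least eigenvalues and translation invariant ground vectors
-/

namespace Pool.Agent.Y665.PE

section least

variable {n : Type*} [Fintype n]

/-- `E` is the least eigenvalue of `H`. -/
def IsLeast' (H : Matrix n n ℂ) (E : ℝ) : Prop :=
  (∃ ψ : n → ℂ, ψ ≠ 0 ∧ H.mulVec ψ = (E : ℂ) • ψ) ∧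
    ∀ (E' : ℝ) (φ : n → ℂ), φ ≠ 0 → H.mulVec φ = (E' : ℂ) • φ → E ≤ E'

variable [DecidableEq n]

lemma least_bound {H : Matrix n n ℂ} (hH : H.IsHermitian) {E : ℝ} (h : IsLeast' H E)
    (φ : n → ℂ) : E * normSq φ ≤ (qf H φ).re := by
  obtain ⟨e, lam, he, hn, hN, hQ⟩ := exists_coord hH
  have hne : ∀ i, e i ≠ 0 := by
    intro i h0
    have := hn i
    rw [h0] at this
    simp [normSq] at this
  rw [hQ, Complex.ofReal_re, hN, Finset.mul_sum]
  exact Finset.sum_le_sum fun i _ =>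
    mul_le_mul_of_nonneg_right (h.2 (lam i) (e i) (hne i) (he i)) (sq_nonneg _)

end least

section shift

variable {d L : ℕ} [NeZero L]

/-- the shift operators -/
def sh (d : ℕ) (u : Site L) : ((Site L → Fin d) → ℂ) →ₗ[ℂ] ((Site L → Fin d) → ℂ) where
  toFun φ := fun s => φ (fun v => s (v + u))
  map_add' _ _ := rfl
  map_smul' _ _ := rfl

lemma sh_apply (u : Site L) (φ : (Site L → Fin d) → ℂ) (s : Site L → Fin d) :
    sh d u φ s = φ (fun v => s (v + u)) := rfl

lemma sh_sh (u w : Site L) (φ : (Site L → Fin d) → ℂ) : sh d u (sh d w φ) = sh d (w + u) φ := by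
  funext s
  rw [sh_apply, sh_apply, sh_apply]
  congr 1
  funext v
  rw [add_assoc]

lemma sh_zero (φ : (Site L → Fin d) → ℂ) : sh d (0 : Site L) φ = φ := by
  funext s
  rw [sh_apply]
  simp

lemma sh_nsmul (u : Site L) (c : ℂ) (φ : (Site L → Fin d) → ℂ) (h : sh d u φ = c • φ) (k : ℕ) :
    sh d (k • u) φ = c ^ k • φ := by
  induction k with
  | zero => rw [zero_smul, sh_zero, pow_zero, one_smul]
  | succ k ih =>
    rw [add_smul, one_smul, ← sh_sh, map_eq_of_eq ih, pow_succ]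
    rw [LinearMap.map_smul, h, smul_smul, mul_comm]
  where
  map_eq_of_eq {u w : Site L} {φ χ : (Site L → Fin d) → ℂ} (h : sh d w φ = χ) :
      sh d u (sh d w φ) = sh d u χ := by rw [h]

/-- Every eigenspace of a translation invariant Hamiltonian contains a translation invariant
vector. -/
theorem exists_transInv (B : Finset (ℤ × ℤ)) (h : Matrix (B → Fin d) (B → Fin d) ℂ) (E : ℂ)
    (ψ : (Site L → Fin d) → ℂ) (hψ : ψ ≠ 0) (hE : (ham B h L).mulVec ψ = E • ψ) :
    ∃ φ : (Site L → Fin d) → ℂ, normSq φ = 1 ∧ TransInv φ ∧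
      (ham B h L).mulVec φ = E • φ := by
  classical
  let W : Submodule ℂ ((Site L → Fin d) → ℂ) :=
    { carrier := {φ | (ham B h L).mulVec φ = E • φ}
      add_mem' := by
        intro a b ha hb
        change (ham B h L).mulVec (a + b) = E • (a + b)
        have ha' : (ham B h L).mulVec a = E • a := ha
        have hb' : (ham B h L).mulVec b = E • b := hb
        rw [Matrix.mulVec_add, ha', hb', smul_add]
      zero_mem' := by
        change (ham B h L).mulVec 0 = E • 0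
        rw [Matrix.mulVec_zero, smul_zero]
      smul_mem' := by
        intro c a ha
        change (ham B h L).mulVec (c • a) = E • (c • a)
        have ha' : (ham B h L).mulVec a = E • a := ha
        rw [Matrix.mulVec_smul, ha', smul_comm] }
  have hWmem : ∀ φ, φ ∈ W ↔ (ham B h L).mulVec φ = E • φ := fun φ => Iff.rfl
  have hWsh : ∀ (u : Site L), ∀ φ ∈ W, sh d u φ ∈ W := by
    intro u φ hφ
    exact ham_eigen_shift B h u φ E hφ
  have step : ∀ (U : Submodule ℂ ((Site L → Fin d) → ℂ)) (u : Site L),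
      (∀ φ ∈ U, sh d u φ ∈ U) → (∃ φ ∈ U, φ ≠ 0) → ∃ c : ℂ, ∃ φ ∈ U, φ ≠ 0 ∧ sh d u φ = c • φ := by
    intro U u hU hne
    obtain ⟨φ₀, h1, h2⟩ := hne
    have : Nontrivial U := ⟨⟨φ₀, h1⟩, 0, fun h => h2 (congrArg Subtype.val h)⟩
    obtain ⟨c, hc⟩ := Module.End.exists_eigenvalue ((sh d u).restrict hU : Module.End ℂ U)
    obtain ⟨w, hw⟩ := hc.exists_hasEigenvector
    refine ⟨c, w, w.2, ?_, ?_⟩
    · intro h0
      exact hw.2 (Subtype.ext h0)
    · have := congrArg Subtype.val hw.apply_eq_smul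
      simpa using this
  obtain ⟨c1, φ1, h1, h2, h3⟩ := step W (1, 0) (hWsh _) ⟨ψ, hE, hψ⟩
  let W' : Submodule ℂ ((Site L → Fin d) → ℂ) :=
    { carrier := {φ | φ ∈ W ∧ sh d ((1, 0) : Site L) φ = c1 • φ}
      add_mem' := by
        rintro a b ⟨ha, ha'⟩ ⟨hb, hb'⟩
        exact ⟨W.add_mem ha hb, by rw [map_add, ha', hb', smul_add]⟩
      zero_mem' := ⟨W.zero_mem, by rw [map_zero, smul_zero]⟩
      smul_mem' := by
        rintro c a ⟨ha, ha'⟩
        exact ⟨W.smul_mem c ha, by rw [LinearMap.map_smul, ha', smul_comm]⟩ }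
  have hW'sh : ∀ φ ∈ W', sh d ((0, 1) : Site L) φ ∈ W' := by
    rintro φ ⟨ha, ha'⟩
    refine ⟨hWsh _ φ ha, ?_⟩
    rw [sh_sh, add_comm, ← sh_sh, ha', LinearMap.map_smul]
  obtain ⟨c2, φ, ⟨h4, h5⟩, h6, h7⟩ := step W' (0, 1) hW'sh ⟨φ1, ⟨h1, h3⟩, h2⟩
  have hT : TransInv φ := by
    intro u
    refine ⟨c2 ^ u.2.val * c1 ^ u.1.val, ?_⟩
    have e1 : u = u.1.val • ((1, 0) : Site L) + u.2.val • ((0, 1) : Site L) := by
      apply Prod.ext
      · simp
      · simp
    have e2 : sh d u φ = (c2 ^ u.2.val * c1 ^ u.1.val) • φ := by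
      rw [e1, add_comm, ← sh_sh, sh_nsmul _ _ _ h7, LinearMap.map_smul, sh_nsmul _ _ _ h5, smul_smul]
      congr 1
      simp
    exact e2
  have hN : 0 < normSq φ := by
    rcases (normSq_nonneg φ).eq_or_lt with h0 | h0
    · exfalso
      apply h6
      funext s
      have h8 : ∀ s ∈ Finset.univ, ‖φ s‖ ^ 2 = 0 :=
        (Finset.sum_eq_zero_iff_of_nonneg (fun s _ => sq_nonneg _)).mp h0.symm
      have h9 := h8 s (Finset.mem_univ s)
      exact norm_eq_zero.mp (pow_eq_zero_iff two_ne_zero |>.mp h9)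
    · exact h0
  set c : ℂ := (((Real.sqrt (normSq φ))⁻¹ : ℝ) : ℂ) with hc
  have hcn : ‖c‖ = (Real.sqrt (normSq φ))⁻¹ := by
    rw [hc, Complex.norm_real, Real.norm_of_nonneg (by positivity)]
  refine ⟨c • φ, ?_, transInv_smul hT c, ?_⟩
  · rw [normSq_smul, hcn, inv_pow, Real.sq_sqrt hN.le]
    field_simp
  · have h8 : (ham B h L).mulVec φ = E • φ := h4
    rw [Matrix.mulVec_smul, h8, smul_comm]

end shift

end Pool.Agent.Y665.PE
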