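import Mathlib
import Pool.Agent.Y665.PE.D1
import Pool.Agent.Y665.PE.E1
import Pool.Agent.Y665.PE.C3

set_option autoImplicit false
set_option linter.unusedSectionVars false

open scoped BigOperators Topology
open Finset Filter MeasureTheory
open Pool.Agent.H4R2

/-!
# The main theorem on generic interactions
-/

namespace Pool.Agent.Y665.PE

/-- `ψ` is a normalised translation invariant vector of least energy of `H`. -/
def TIGround {d L : ℕ} [NeZero L] (H : Matrix (Site L → Fin d) (Site L → Fin d) ℂ)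
    (ψ : (Site L → Fin d) → ℂ) : Prop :=
  normSq ψ = 1 ∧ TransInv ψ ∧ ∃ E : ℝ, IsLeast' H E ∧ H.mulVec ψ = (E : ℂ) • ψ

variable {d : ℕ}

lemma TIGround.isGround {L : ℕ} [NeZero L] {B : Finset (ℤ × ℤ)}
    {h : Matrix (B → Fin d) (B → Fin d) ℂ} (hh : h.IsHermitian) {ψ : (Site L → Fin d) → ℂ}
    (hg : TIGround (ham B h L) ψ) : IsGround (ham B h L) ψ := by
  obtain ⟨_, _, E, h1, h2⟩ := hg
  exact ⟨E, h2, least_bound (ham_herm B hh) h1⟩

lemma tiGround_of_gapped {L : ℕ} [NeZero L] {B : Finset (ℤ × ℤ)}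
    {h : Matrix (B → Fin d) (B → Fin d) ℂ} {Δ : ℝ} (hΔ : 0 ≤ Δ)
    {ψ : (Site L → Fin d) → ℂ} (hψ : normSq ψ = 1) (hg : IsGappedGround (ham B h L) Δ ψ) :
    TIGround (ham B h L) ψ := by
  refine ⟨hψ, transInv_of_ground B h Δ ψ hg, ?_⟩
  obtain ⟨E, h1, h2, h3⟩ := hg
  refine ⟨E, ⟨⟨ψ, ?_, h1⟩, fun E' φ hφ h4 => ?_⟩, h1⟩
  · intro h0
    rw [h0] at hψ
    simp [normSq] at hψ
  · rcases h3 E' φ hφ h4 with h5 | h5
    · exact h5.ge
    · linarith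

/-- the energies per site converge, uniformly in the ground vector -/
theorem energy_unif (hd : 2 ≤ d) (R : Finset (ℤ × ℤ)) (x : (R → Fin d) → (R → Fin d) → ℝ) (ε : ℝ)
    (hε : 0 < ε) : ∃ L₀ : ℕ, ∀ (L : ℕ) [NeZero L], L₀ ≤ L → ∀ E : ℝ,
      IsLeast' (ham R (herm x) L) E → |E / (L : ℝ) ^ 2 - low (limStates d R) x| ≤ ε := by
  set C : ℝ := size (herm x) with hC
  have hC0 : 0 ≤ C := size_nonneg _
  obtain ⟨L₁, hL₁⟩ := ground_low hd R x ε hε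
  obtain ⟨L₂, hL₂⟩ := unif hd R (ε / (C + 1)) (by positivity)
  refine ⟨max L₁ L₂, fun L _ hL E hE => ?_⟩
  obtain ⟨⟨ψ₀, h1, h2⟩, h3⟩ := hE
  obtain ⟨φ, h4, h5, h6⟩ := exists_transInv R (herm x) (E : ℂ) ψ₀ h1 h2
  have hG : IsGround (ham R (herm x) L) φ :=
    ⟨E, h6, least_bound (ham_herm R (herm_isHermitian x)) ⟨⟨ψ₀, h1, h2⟩, h3⟩⟩
  have hL0 : (0 : ℝ) < (L : ℝ) ^ 2 := by
    have : (0 : ℝ) < L := by exact_mod_cast Nat.pos_of_ne_zero (NeZero.ne L)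
    positivity
  have hval : E / (L : ℝ) ^ 2 = lin (redState R φ) x := by
    have h7 : qf (ham R (herm x) L) φ = (E : ℂ) := by
      unfold qf
      rw [h6, ip_smul_right, ip_self, h4]
      simp
    rw [qf_ham R (herm x) φ h4 h5] at h7
    have h8 : (((L : ℂ) ^ 2) * pair (herm x) (redState R φ)).re =
        (L : ℝ) ^ 2 * (pair (herm x) (redState R φ)).re := by
      have : ((L : ℂ) ^ 2) = (((L : ℝ) ^ 2 : ℝ) : ℂ) := by push_cast; rfl
      rw [this, Complex.re_ofReal_mul]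
    rw [h7, Complex.ofReal_re] at h8
    rw [lin_apply, h8, mul_div_cancel_left₀ _ hL0.ne']
  rw [hval, abs_le]
  constructor
  · obtain ⟨ρ, hρ, h7⟩ := (hL₂ L ((le_max_right _ _).trans hL)).2 φ h4 h5
    have h8 := low_le (limStates_bound R) x hρ
    have h9 := abs_le.mp (pair_le (herm x) _ _ _ h7)
    have h10 : (∑ a, ∑ b, ‖herm x a b‖) * (ε / (C + 1)) ≤ ε := by
      have : (∑ a, ∑ b, ‖herm x a b‖) = C := rfl
      rw [this, mul_div_assoc', div_le_iff₀ (by positivity)]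
      nlinarith
    rw [lin_apply] at h8 ⊢
    linarith [h9.1, h9.2]
  · have := hL₁ L ((le_max_left _ _).trans hL) x (by simp) φ h4 h5 hG
    linarith

/-- **Generic interactions.** -/
theorem generic (hd : 2 ≤ d) (R : Finset (ℤ × ℤ)) :
    ∃ e : ((R → Fin d) → (R → Fin d) → ℝ) → ℝ,
      (∀ x, ∀ ε : ℝ, 0 < ε → ∃ L₀ : ℕ, ∀ (L : ℕ) [NeZero L], L₀ ≤ L → ∀ E : ℝ,
        IsLeast' (ham R (herm x) L) E → |E / (L : ℝ) ^ 2 - e x| ≤ ε) ∧
      (∀ᵐ x, DifferentiableAt ℝ e x) ∧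
      (∀ x, DifferentiableAt ℝ e x → ∀ R₀ : Finset (ℤ × ℤ), R₀ ⊆ R → ∀ ε : ℝ, 0 < ε →
        ∃ A : Tensor d (bondDim d R₀ ε), ∃ δ : ℝ, 0 < δ ∧ ∃ L₀ : ℕ, ∀ (L : ℕ) [NeZero L], L₀ ≤ L →
          contract A L ≠ 0 ∧ ∀ y, ‖y - x‖ ≤ δ → ∀ ψ : (Site L → Fin d) → ℂ,
            TIGround (ham R (herm y) L) ψ →
            traceNorm (redState R₀ ψ - redState R₀ (contract A L)) ≤ ε) := by
  refine ⟨low (limStates d R), fun x ε hε => energy_unif hd R x ε hε, ae_diff hd R, ?_⟩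
  intro x hx R₀ hR ε hε
  obtain ⟨A, δ, hδ, L₀, hL₀⟩ := diff_unif hd hR hx ε hε
  refine ⟨A, δ, hδ, L₀, fun L _ hL => ⟨(hL₀ L hL).1, fun y hy ψ hψ => ?_⟩⟩
  exact (hL₀ L hL).2 y hy ψ hψ.1 hψ.2.1 (hψ.isGround (herm_isHermitian y))

end Pool.Agent.Y665.PE
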