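import Mathlib
import Pool.Agent.Y665.PE.F1

set_option autoImplicit false
set_option linter.unusedSectionVars false

open scoped BigOperators Topology
open Finset Filter MeasureTheory
open Pool.Agent.H4R2

/-!
# A stable gap makes the energy density differentiable
-/

namespace Pool.Agent.Y665.PE

variable {d : ℕ}

/-- the limit of a Cauchy family -/
lemma limit_of_cauch (hd : 2 ≤ d) (R : Finset (ℤ × ℤ))
    (ψ : ∀ (L : ℕ) [NeZero L], (Site L → Fin d) → ℂ) (L₁ : ℕ)
    (hψ : ∀ (L : ℕ) [NeZero L], L₁ ≤ L → normSq (ψ L) = 1 ∧ TransInv (ψ L))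
    (h : Cauch R ψ) : ∃ ρ ∈ limStates d R, ∀ δ : ℝ, 0 < δ → ∃ L₂ : ℕ, ∀ (L : ℕ) [NeZero L],
      L₂ ≤ L → ∀ a b, ‖redState R (ψ L) a b - ρ a b‖ ≤ δ := by
  obtain ⟨ρ, hρ⟩ := exists_cluster R ψ L₁ (fun L _ h => (hψ L h).1)
  refine ⟨ρ, cluster_lim hd R ψ L₁ hψ hρ, fun δ hδ => ?_⟩
  obtain ⟨L₂, hL₂⟩ := h (δ / 2) (by positivity)
  refine ⟨L₂, fun L _ hL a b => ?_⟩
  obtain ⟨L', _, h6, h7⟩ := hρ (δ / 2) (by positivity) L₂
  have h8 := hL₂ L L' hL h6 a b
  have h9 : redState R (ψ L) a b - ρ a b = (redState R (ψ L) a b - redState R (ψ L') a b) +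
      (redState R (ψ L') a b - ρ a b) := by ring
  rw [h9]
  refine (norm_add_le _ _).trans ?_
  linarith [h7 a b]

/-- the energies of ground vectors converge uniformly -/
lemma lin_unif (hd : 2 ≤ d) (R : Finset (ℤ × ℤ)) (x : (R → Fin d) → (R → Fin d) → ℝ) (ε : ℝ)
    (hε : 0 < ε) : ∃ L₀ : ℕ, ∀ (L : ℕ) [NeZero L], L₀ ≤ L → ∀ φ : (Site L → Fin d) → ℂ,
      normSq φ = 1 → TransInv φ → IsGround (ham R (herm x) L) φ →
        |lin (redState R φ) x - low (limStates d R) x| ≤ ε := by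
  set C : ℝ := size (herm x) with hC
  have hC0 : 0 ≤ C := size_nonneg _
  obtain ⟨L₁, hL₁⟩ := ground_low hd R x ε hε
  obtain ⟨L₂, hL₂⟩ := unif hd R (ε / (C + 1)) (by positivity)
  refine ⟨max L₁ L₂, fun L _ hL φ h4 h5 hG => ?_⟩
  rw [abs_le]
  constructor
  · obtain ⟨ρ, hρ, h7⟩ := (hL₂ L ((le_max_right _ _).trans hL)).2 φ h4 h5
    have h8 := low_le (limStates_bound R) x hρ
    have h9 := abs_le.mp (pair_le (herm x) _ _ _ h7)
    have h10 : (∑ a, ∑ b, ‖herm x a b‖) * (ε / (C + 1)) ≤ ε := by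
      have : (∑ a, ∑ b, ‖herm x a b‖) = C := rfl
      rw [this, mul_div_assoc', div_le_iff₀ (by positivity)]
      nlinarith
    rw [lin_apply] at h8 ⊢
    linarith [h9.1, h9.2]
  · have := hL₁ L ((le_max_left _ _).trans hL) x (by simp) φ h4 h5 hG
    linarith

lemma herm_lin {n : Type*} [Fintype n] (x v : n → n → ℝ) (t : ℝ) :
    herm (x + t • v) = herm x + (t : ℂ) • herm v := by
  ext a b
  rw [Matrix.add_apply, Matrix.smul_apply, smul_eq_mul]
  unfold herm
  simp only [Pi.add_apply, Pi.smul_apply, smul_eq_mul]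
  push_cast
  ring

/-- the second order bound in one direction -/
lemma line_bound (hd : 2 ≤ d) {B R : Finset (ℤ × ℤ)} (hBR : B ⊆ R)
    {h : Matrix (B → Fin d) (B → Fin d) ℂ} (ψ : ∀ (L : ℕ) [NeZero L], (Site L → Fin d) → ℂ)
    (hgap : GappedFamily B h ψ) (hst : StableGap B h R)
    {x : (R → Fin d) → (R → Fin d) → ℝ} (hx : herm x = enl hBR h)
    {ρ : Matrix (R → Fin d) (R → Fin d) ℂ}
    (hρ : ∀ δ : ℝ, 0 < δ → ∃ L₂ : ℕ, ∀ (L : ℕ) [NeZero L],
      L₂ ≤ L → ∀ a b, ‖redState R (ψ L) a b - ρ a b‖ ≤ δ) (v : (R → Fin d) → (R → Fin d) → ℝ) :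
    ∃ δ : ℝ, 0 < δ ∧ ∃ K : ℝ, ∀ T : ℝ, 0 < T → T ≤ δ →
      |low (limStates d R) (x + T • v) - low (limStates d R) x - T * lin ρ v| ≤ K * T ^ 2 := by
  obtain ⟨Δ₀, hΔ₀, L₁, hL₁⟩ := hgap
  obtain ⟨δ, hδ, Δ, hΔ, L₂, hL₂⟩ := hst (herm v) (herm_isHermitian v)
  set D := min Δ₀ Δ with hDdef
  have hD : 0 < D := lt_min hΔ₀ hΔ
  refine ⟨δ, hδ, 8 * (R.card : ℝ) ^ 4 * (size (herm x) + δ * size (herm v)) *
    size (herm v) ^ 2 / D ^ 2, fun T hT hTδ => ?_⟩
  set K := 8 * (R.card : ℝ) ^ 4 * (size (herm x) + δ * size (herm v)) *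
    size (herm v) ^ 2 / D ^ 2 with hK
  have hK0 : 0 ≤ K := by
    have h1 := size_nonneg (herm x)
    have h2 := size_nonneg (herm v)
    rw [hK]; positivity
  apply le_of_forall_pos_le_add
  intro η hη
  have hTs : 0 < size (herm v) + 1 := by have := size_nonneg (herm v); linarith
  obtain ⟨N₁, hN₁⟩ := lin_unif hd R (x + T • v) (η / 3) (by positivity)
  obtain ⟨N₂, hN₂⟩ := lin_unif hd R x (η / 3) (by positivity)
  obtain ⟨N₃, hN₃⟩ := hρ (η / 3 / (T * (size (herm v) + 1))) (by positivity)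
  set L := max (max (max L₁ L₂) (2 * rad R + 1)) (max N₁ (max N₂ N₃)) with hLdef
  have b1 : L₁ ≤ L := (le_max_left _ _).trans ((le_max_left _ _).trans (le_max_left _ _))
  have b2 : L₂ ≤ L := (le_max_right _ _).trans ((le_max_left _ _).trans (le_max_left _ _))
  have b3 : 2 * rad R + 1 ≤ L := (le_max_right _ _).trans (le_max_left _ _)
  have b4 : N₁ ≤ L := (le_max_left _ _).trans (le_max_right _ _)
  have b5 : N₂ ≤ L := (le_max_left _ _).trans ((le_max_right _ _).trans (le_max_right _ _))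
  have b6 : N₃ ≤ L := (le_max_right _ _).trans ((le_max_right _ _).trans (le_max_right _ _))
  have : NeZero L := ⟨by omega⟩
  obtain ⟨f1, f2⟩ := hL₁ L b1
  have f3 : IsGappedGround (ham R (herm x) L) D (ψ L) := by
    rw [hx, ham_enl hBR h b3]
    exact gapped_mono (min_le_left _ _) f2
  obtain ⟨φ, g1, g2, g3, g4, g5⟩ := one_size R (herm_isHermitian x) (herm_isHermitian v) hD hT hTδ
    (ψ L) f1 f3 (by
      intro t ht0 ht
      obtain ⟨φ, e1, e2⟩ := hL₂ L b2 t ht0 ht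
      refine ⟨φ, e1, ?_⟩
      rw [hx, ham_enl hBR h b3]
      exact gapped_mono (min_le_right _ _) e2)
  rw [← herm_lin] at g3 g4 g5
  have c1 := abs_le.mp (hN₁ L b4 φ g1 g2 g3)
  have c2 := abs_le.mp (hN₂ L b5 (ψ L) f1 (transInv_of_ground R _ D (ψ L) f3)
    (isGround_of_gapped (ham_herm R (herm_isHermitian x)) hD.le f3))
  have c3 := abs_le.mp (pair_le (herm v) _ _ _ (hN₃ L b6))
  rw [lin_apply] at c1 c2
  rw [← hK] at g5
  have c4 : (∑ a, ∑ b, ‖herm v a b‖) * (η / 3 / (T * (size (herm v) + 1))) ≤ η / 3 / T := by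
    have e1 : (∑ a, ∑ b, ‖herm v a b‖) = size (herm v) := rfl
    rw [e1]
    have e2 : η / 3 / (T * (size (herm v) + 1)) = (η / 3 / T) / (size (herm v) + 1) := by
      field_simp
    rw [e2, mul_div_assoc', div_le_iff₀ hTs]
    have e3 : 0 < η / 3 / T := by positivity
    nlinarith
  have c5 : |T * (pair (herm v) (redState R (ψ L))).re - T * lin ρ v| ≤ η / 3 := by
    rw [← mul_sub, abs_mul, abs_of_pos hT]
    have e1 : |(pair (herm v) (redState R (ψ L))).re - lin ρ v| ≤ η / 3 / T := by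
      rw [lin_apply, abs_le]
      constructor
      · linarith [c3.1]
      · linarith [c3.2]
    calc T * |(pair (herm v) (redState R (ψ L))).re - lin ρ v| ≤ T * (η / 3 / T) :=
          mul_le_mul_of_nonneg_left e1 hT.le
      _ = η / 3 := by field_simp
  have c6 := abs_le.mp c5
  have hT2 : 0 ≤ K * T ^ 2 := by positivity
  rw [abs_le]
  constructor
  · linarith [c1.1, c1.2, c2.1, c2.2, c6.1, c6.2]
  · linarith [c1.1, c1.2, c2.1, c2.2, c6.1, c6.2]

/-- **A stable gap makes the energy density differentiable.** -/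
theorem stable_diff (hd : 2 ≤ d) {B R : Finset (ℤ × ℤ)} (hBR : B ⊆ R)
    {h : Matrix (B → Fin d) (B → Fin d) ℂ} (hh : h.IsHermitian)
    (ψ : ∀ (L : ℕ) [NeZero L], (Site L → Fin d) → ℂ)
    (hgap : GappedFamily B h ψ) (hst : StableGap B h R)
    {x : (R → Fin d) → (R → Fin d) → ℝ} (hx : herm x = enl hBR h) :
    DifferentiableAt ℝ (low (limStates d R)) x := by
  have hc := stable_case hd B hh ψ hgap R hst
  have hG := groundFamily_of_gapped B hh ψ hgap
  obtain ⟨L₁, hL₁⟩ := hG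
  obtain ⟨ρ, _, hρ⟩ := limit_of_cauch hd R ψ L₁ (fun L _ h => ⟨(hL₁ L h).1, (hL₁ L h).2.1⟩) hc
  have hline : ∀ v : (R → Fin d) → (R → Fin d) → ℝ,
      HasLineDerivAt ℝ (low (limStates d R)) (LinearMap.toContinuousLinearMap (lin ρ) v) x v := by
    intro v
    have hval : LinearMap.toContinuousLinearMap (lin ρ) v = lin ρ v := rfl
    rw [hval]
    obtain ⟨δ₁, hδ₁, K₁, hK₁⟩ := line_bound hd hBR ψ hgap hst hx hρ v
    obtain ⟨δ₂, hδ₂, K₂, hK₂⟩ := line_bound hd hBR ψ hgap hst hx hρ (-v)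
    unfold HasLineDerivAt
    rw [hasDerivAt_iff_isLittleO_nhds_zero, Asymptotics.isLittleO_iff]
    intro c hc0
    set K := max (max K₁ K₂) 1 with hK
    have hKpos : 0 < K := lt_of_lt_of_le one_pos (le_max_right _ _)
    have hKK1 : K₁ ≤ K := (le_max_left _ _).trans (le_max_left _ _)
    have hKK2 : K₂ ≤ K := (le_max_right _ _).trans (le_max_left _ _)
    have hr : 0 < min (min δ₁ δ₂) (c / K) := lt_min (lt_min hδ₁ hδ₂) (by positivity)
    rw [Metric.eventually_nhds_iff]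
    refine ⟨_, hr, fun t ht => ?_⟩
    rw [dist_zero_right, Real.norm_eq_abs] at ht
    rw [Real.norm_eq_abs, Real.norm_eq_abs, zero_add, zero_smul, add_zero, smul_eq_mul]
    have ht1 : |t| < δ₁ := ht.trans_le ((min_le_left _ _).trans (min_le_left _ _))
    have ht2 : |t| < δ₂ := ht.trans_le ((min_le_left _ _).trans (min_le_right _ _))
    have ht3 : K * |t| ≤ c := by
      have h1 : |t| < c / K := ht.trans_le (min_le_right _ _)
      rw [lt_div_iff₀ hKpos] at h1
      linarith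
    have key : |low (limStates d R) (x + t • v) - low (limStates d R) x - t * lin ρ v| ≤
        K * |t| ^ 2 := by
      rcases lt_trichotomy t 0 with h0 | h0 | h0
      · have h1 := hK₂ (-t) (by linarith) (by rw [abs_of_neg h0] at ht2; exact ht2.le)
        have e1 : x + (-t) • (-v) = x + t • v := by rw [smul_neg, neg_smul, neg_neg]
        have e2 : (-t) * lin ρ (-v) = t * lin ρ v := by rw [map_neg]; ring
        rw [e1, e2] at h1
        rw [abs_of_neg h0]
        exact h1.trans (mul_le_mul_of_nonneg_right hKK2 (sq_nonneg _))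
      · rw [h0]; simp
      · have h1 := hK₁ t h0 (by rw [abs_of_pos h0] at ht1; exact ht1.le)
        rw [abs_of_pos h0]
        exact h1.trans (mul_le_mul_of_nonneg_right hKK1 (sq_nonneg _))
    refine key.trans ?_
    rw [sq, ← mul_assoc]
    exact mul_le_mul_of_nonneg_right ht3 (abs_nonneg t)
  have hL := low_lipschitz (limStates_bound (d := d) R) (limStates_nonempty hd R)
  exact (hL.hasFDerivAt_of_hasLineDerivAt_of_closure (s := Set.univ) (by simp)
    (fun v _ => hline v)).differentiableAt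

/-- **Local approximation for interactions with a stable gap, uniformly near the interaction.** -/
theorem stable_unif (hd : 2 ≤ d) {B R₀ R : Finset (ℤ × ℤ)} (hBR : B ⊆ R) (hR : R₀ ⊆ R)
    {h : Matrix (B → Fin d) (B → Fin d) ℂ} (hh : h.IsHermitian)
    (ψ : ∀ (L : ℕ) [NeZero L], (Site L → Fin d) → ℂ)
    (hgap : GappedFamily B h ψ) (hst : StableGap B h R) (ε : ℝ) (hε : 0 < ε) :
    ∃ A : Tensor d (bondDim d R₀ ε), ∃ δ : ℝ, 0 < δ ∧ ∃ L₀ : ℕ, ∀ (L : ℕ) [NeZero L], L₀ ≤ L →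
      contract A L ≠ 0 ∧ traceNorm (redState R₀ (ψ L) - redState R₀ (contract A L)) ≤ ε ∧
        ∀ k : Matrix (R → Fin d) (R → Fin d) ℂ, k.IsHermitian → (∀ a b, ‖k a b‖ ≤ δ) →
          ∀ φ : (Site L → Fin d) → ℂ, TIGround (ham B h L + ham R k L) φ →
            traceNorm (redState R₀ φ - redState R₀ (contract A L)) ≤ ε := by
  obtain ⟨x, hx⟩ := exists_herm (enl_herm hBR hh)
  have hdiff := stable_diff hd hBR hh ψ hgap hst hx
  obtain ⟨A, δ, hδ, L₀, hL₀⟩ := diff_unif hd hR hdiff ε hε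
  obtain ⟨Δ₀, hΔ₀, L₁, hL₁⟩ := hgap
  set N : ℝ := (Fintype.card (R → Fin d) : ℝ) ^ 2 with hN
  have hN0 : 0 ≤ N := by positivity
  refine ⟨A, δ / (N + 1), by positivity, max (max L₀ L₁) (2 * rad R + 1), fun L _ hL => ?_⟩
  have b1 : L₀ ≤ L := (le_max_left _ _).trans ((le_max_left _ _).trans hL)
  have b2 : L₁ ≤ L := (le_max_right _ _).trans ((le_max_left _ _).trans hL)
  have b3 : 2 * rad R + 1 ≤ L := (le_max_right _ _).trans hL
  refine ⟨(hL₀ L b1).1, ?_, ?_⟩
  · obtain ⟨f1, f2⟩ := hL₁ L b2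
    have f3 : IsGappedGround (ham R (herm x) L) Δ₀ (ψ L) := by
      rw [hx, ham_enl hBR h b3]
      exact f2
    exact (hL₀ L b1).2 x (by simp [hδ.le]) (ψ L) f1 (transInv_of_ground R _ Δ₀ (ψ L) f3)
      (isGround_of_gapped (ham_herm R (herm_isHermitian x)) hΔ₀.le f3)
  · intro k hk hkδ φ hφ
    obtain ⟨y, hy, hy2⟩ := exists_herm' hk
    have hsum : herm (x + y) = enl hBR h + k := by
      have h1 := herm_lin x y 1
      rw [one_smul, Complex.ofReal_one, one_smul] at h1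
      rw [h1, hx, hy]
    have hham : ham R (herm (x + y)) L = ham B h L + ham R k L := by
      have h1 := ham_add (L := L) R (enl hBR h) k 1
      rw [one_smul, one_smul, ham_enl hBR h b3] at h1
      rw [hsum, h1]
    rw [← hham] at hφ
    apply (hL₀ L b1).2 (x + y) _ φ hφ.1 hφ.2.1 (hφ.isGround (herm_isHermitian _))
    rw [add_sub_cancel_left]
    refine hy2.trans ?_
    unfold size
    calc ∑ a, ∑ b, ‖k a b‖ ≤ ∑ _a : (R → Fin d), ∑ _b : (R → Fin d), (δ / (N + 1)) :=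
          Finset.sum_le_sum fun a _ => Finset.sum_le_sum fun b _ => hkδ a b
      _ = N * (δ / (N + 1)) := by
          rw [hN]
          simp only [Finset.sum_const, Finset.card_univ, nsmul_eq_mul]
          ring
      _ ≤ δ := by
          rw [mul_div_assoc', div_le_iff₀ (by positivity)]
          nlinarith

end Pool.Agent.Y665.PE
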